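import Mathlib

/-!
# Multiplication by two on the curves `y ^ 2 = x ^ 3 + a₂ x ^ 2 + a₄ x + a₆`
-/

set_option autoImplicit false
set_option linter.all false

open WeierstrassCurve WeierstrassCurve.Affine

namespace Pool.Agent.H429.T3

/-- The map `(x, y) ↦ (φ x, φ y)` on points, for a homomorphism `φ` of fields. -/
noncomputable def mp {K k : Type} [Field K] [Field k] [DecidableEq K] [DecidableEq k] (V : WeierstrassCurve K) (φ : K →+* k) :
    V.toAffine.Point →+ (V.map φ).toAffine.Point :=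
  letI := φ.toAlgebra
  (Point.map (W' := V) (Algebra.ofId K k) : (V⁄K).Point →+ (V⁄k).Point)

theorem mp_some {K k : Type} [Field K] [Field k] [DecidableEq K] [DecidableEq k] (V : WeierstrassCurve K) (φ : K →+* k) {x y : K}
    (h : V.toAffine.Nonsingular x y) : ∃ h', mp V φ (Point.some x y h) = Point.some (φ x) (φ y) h' :=
  ⟨_, rfl⟩

theorem mp_injective {K k : Type} [Field K] [Field k] [DecidableEq K] [DecidableEq k] (V : WeierstrassCurve K) (φ : K →+* k) :
    Function.Injective (mp V φ) := by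
  letI := φ.toAlgebra
  exact Point.map_injective (W' := V) (Algebra.ofId K k)

section two

variable {F : Type} [Field F] [DecidableEq F] {W : WeierstrassCurve F}

theorem equation_iff' (h1 : W.a₁ = 0) (h3 : W.a₃ = 0) {x y : F} :
    W.toAffine.Equation x y ↔ y ^ 2 = x ^ 3 + W.a₂ * x ^ 2 + W.a₄ * x + W.a₆ := by
  rw [WeierstrassCurve.Affine.equation_iff, h1, h3]
  constructor <;> intro h' <;> linear_combination h'

theorem negY' (h1 : W.a₁ = 0) (h3 : W.a₃ = 0) (x y : F) : W.toAffine.negY x y = -y := by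
  simp [WeierstrassCurve.Affine.negY, h1, h3]

/-- The `x`-coordinate of `2 Q`. -/
theorem double_x (h2 : (2 : F) ≠ 0) (h1 : W.a₁ = 0) (h3 : W.a₃ = 0) {X Y : F}
    (hQ : W.toAffine.Nonsingular X Y) (hY : Y ≠ 0) :
    ∃ y h, Point.some X Y hQ + Point.some X Y hQ =
      Point.some (((3 * X ^ 2 + 2 * W.a₂ * X + W.a₄) / (2 * Y)) ^ 2 - W.a₂ - 2 * X) y h := by
  have hne : Y ≠ W.toAffine.negY X Y := by
    rw [negY' h1 h3]
    intro h
    have : (2 : F) * Y = 0 := by linear_combination h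
    rcases mul_eq_zero.1 this with h | h
    · exact h2 h
    · exact hY h
  have hs : W.toAffine.slope X X Y Y = (3 * X ^ 2 + 2 * W.a₂ * X + W.a₄) / (2 * Y) := by
    rw [slope_of_Y_ne rfl hne, negY' h1 h3, h1]
    congr 1 <;> ring
  have hx : W.toAffine.addX X X (W.toAffine.slope X X Y Y) =
      ((3 * X ^ 2 + 2 * W.a₂ * X + W.a₄) / (2 * Y)) ^ 2 - W.a₂ - 2 * X := by
    rw [hs, addX, h1]
    ring
  rw [Point.add_self_of_Y_ne hne]
  refine ⟨W.toAffine.addY X X Y (W.toAffine.slope X X Y Y), ?_, ?_⟩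
  · rw [← hx]
    exact nonsingular_add hQ hQ fun h => hne h.2
  · simp only [hx]

/-- The `x`-coordinate of `2 Q` minus a root is a square. -/
theorem double_sq {E : Type} [Field E] (φ : F →+* E) (h2 : (2 : F) ≠ 0) {X Y T : E} {a b c : F}
    (hY : Y ≠ 0) (hE : Y ^ 2 = X ^ 3 + φ a * X ^ 2 + φ b * X + φ c)
    (hT : T ^ 3 + φ a * T ^ 2 + φ b * T + φ c = 0) :
    ((3 * X ^ 2 + 2 * φ a * X + φ b) / (2 * Y)) ^ 2 - φ a - 2 * X - T =
      (((X - T) ^ 2 - (3 * T ^ 2 + 2 * φ a * T + φ b)) / (2 * Y)) ^ 2 := by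
  have h2' : (2 : E) ≠ 0 := by
    have := (map_ne_zero φ).2 h2
    rwa [map_ofNat] at this
  field_simp
  linear_combination (-4 * (φ a + 2 * X + T)) * hE + (-4 * (φ a + 2 * X + T)) * hT

/-- If a point is divisible by two, then its `x`-coordinate minus a root of the cubic polynomial is a
square. -/
theorem sq_of_double {E : Type} [Field E] (φ : F →+* E) (h2 : (2 : F) ≠ 0) (h1 : W.a₁ = 0)
    (h3 : W.a₃ = 0) {x y : F} (hP : W.toAffine.Nonsingular x y) (Q : W.toAffine.Point)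
    (hQ : Point.some x y hP = Q + Q) {T : E}
    (hT : T ^ 3 + φ W.a₂ * T ^ 2 + φ W.a₄ * T + φ W.a₆ = 0) :
    ∃ (X Y : F), Y ≠ 0 ∧ Y ^ 2 = X ^ 3 + W.a₂ * X ^ 2 + W.a₄ * X + W.a₆ ∧
      φ x - T = (((φ X - T) ^ 2 - (3 * T ^ 2 + 2 * φ W.a₂ * T + φ W.a₄)) / (2 * φ Y)) ^ 2 := by
  match Q, hQ with
  | 0, hQ =>
    rw [add_zero] at hQ
    exact absurd hQ (by simp)
  | Point.some X Y hXY, hQ =>
    have hY : Y ≠ 0 := by
      rintro rfl
      rw [Point.add_self_of_Y_eq (by rw [negY' h1 h3, neg_zero])] at hQ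
      exact absurd hQ (by simp)
    have hEq := (equation_iff' h1 h3).1 hXY.1
    obtain ⟨y', h', e⟩ := double_x h2 h1 h3 hXY hY
    rw [e, Point.some.injEq] at hQ
    refine ⟨X, Y, hY, hEq, ?_⟩
    have hE' : (φ Y) ^ 2 = (φ X) ^ 3 + φ W.a₂ * (φ X) ^ 2 + φ W.a₄ * (φ X) + φ W.a₆ := by
      rw [← map_pow, hEq]
      simp
    have e3 : φ 3 = 3 := map_ofNat φ 3
    have e2 : φ 2 = 2 := map_ofNat φ 2
    rw [← double_sq φ h2 ((map_ne_zero φ).2 hY) hE' hT, hQ.1]
    simp only [map_sub, map_add, map_mul, map_pow, map_div₀, e2, e3]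

/-- If `x - θ` is a square in the field generated by the root `θ`, then the point is divisible by
two. -/
theorem halve {E : Type} [Field E] (φ : F →+* E) (h2 : (2 : F) ≠ 0) (h1 : W.a₁ = 0)
    (h3 : W.a₃ = 0) (hΔ : W.Δ ≠ 0) {x y : F} (hP : W.toAffine.Nonsingular x y) {T : E}
    (hT : T ^ 3 + φ W.a₂ * T ^ 2 + φ W.a₄ * T + φ W.a₆ = 0)
    (hli : ∀ u v w : F, φ u + φ v * T + φ w * T ^ 2 = 0 → u = 0 ∧ v = 0 ∧ w = 0)
    {u v w : F} (hsq : φ x - T = (φ u + φ v * T + φ w * T ^ 2) ^ 2) :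
    ∃ Q : W.toAffine.Point, Point.some x y hP = Q + Q := by
  obtain ⟨p, hp⟩ : ∃ p, p = W.a₂ := ⟨_, rfl⟩
  obtain ⟨q, hq⟩ : ∃ q, q = W.a₄ := ⟨_, rfl⟩
  obtain ⟨r, hr⟩ : ∃ r, r = W.a₆ := ⟨_, rfl⟩
  rw [← hp, ← hq, ← hr] at hT
  obtain ⟨e0, e1, e2⟩ := hli (x - (u ^ 2 + w ^ 2 * p * r - 2 * v * w * r))
    (-1 - (w ^ 2 * (p * q - r) + 2 * u * v - 2 * v * w * q))
    (0 - (v ^ 2 + w ^ 2 * (p ^ 2 - q) + 2 * u * w - 2 * v * w * p)) (by
      simp only [map_sub, map_add, map_mul, map_pow, map_neg, map_one, map_zero, map_ofNat]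
      linear_combination hsq + (-(φ w) ^ 2 * T + (φ w) ^ 2 * φ p - 2 * φ v * φ w) * hT * (-1))
  have hw : w ≠ 0 := by
    rintro rfl
    have h4 : v ^ 2 = 0 := by linear_combination -e2
    have h5 : v = 0 := by simpa using h4
    subst h5
    have : (1 : F) = 0 := by linear_combination -e1
    exact one_ne_zero this
  have hcurve : (1 / w) ^ 2 = (v / w - p) ^ 3 + p * (v / w - p) ^ 2 + q * (v / w - p) + r := by
    field_simp
    linear_combination (-w) * e1 + (v) * e2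
  have hns : W.toAffine.Nonsingular (v / w - p) (1 / w) := by
    refine (equation_iff_nonsingular_of_Δ_ne_zero hΔ).1 ?_
    rw [equation_iff' h1 h3, ← hp, ← hq, ← hr]
    exact hcurve
  have hYw : (1 / w : F) ≠ 0 := one_div_ne_zero hw
  obtain ⟨y', h', e⟩ := double_x h2 h1 h3 hns hYw
  have hx : ((3 * (v / w - p) ^ 2 + 2 * p * (v / w - p) + q) / (2 * (1 / w))) ^ 2 - p -
      2 * (v / w - p) = x := by
    have h6 : 2 * u * w = q * w ^ 2 - (v - p * w) ^ 2 := by linear_combination -e2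
    have h7 : r * w ^ 3 = w - (v - p * w) ^ 3 - p * (v - p * w) ^ 2 * w - q * (v - p * w) * w ^ 2 := by
      linear_combination (w) * e1 - (v) * e2
    have h8 : x = u ^ 2 + w ^ 2 * p * r - 2 * v * w * r := by linear_combination e0
    have h9 : 4 * w ^ 2 * x = (q * w ^ 2 - (v - p * w) ^ 2) ^ 2 - 4 * (2 * (v - p * w) + p * w) *
        (w - (v - p * w) ^ 3 - p * (v - p * w) ^ 2 * w - q * (v - p * w) * w ^ 2) := by
      rw [h8, ← h7, ← h6]
      ring
    have h10 : (2 : F) ^ 2 * w ^ 2 ≠ 0 := mul_ne_zero (pow_ne_zero 2 h2) (pow_ne_zero 2 hw)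
    apply mul_left_cancel₀ h10
    have h11 : (2 : F) ^ 2 * w ^ 2 * x = 4 * w ^ 2 * x := by ring
    rw [h11, h9]
    field_simp
    ring
  have hxx : (Point.some x y hP).xRep = (Point.some (v / w - p) (1 / w) hns +
      Point.some (v / w - p) (1 / w) hns).xRep := by
    rw [e, Point.xRep_some, Point.xRep_some, ← hp, ← hq, hx]
  rcases Point.eq_or_eq_neg_of_xRep_eq_xRep hxx with h | h
  · exact ⟨_, h⟩
  · exact ⟨-Point.some (v / w - p) (1 / w) hns, by rw [h, neg_add]⟩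

end two

end Pool.Agent.H429.T3
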