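import Mathlib

/-!
# Local fields generated by the image of a number field; Galois theory
-/

set_option autoImplicit false
set_option linter.all false

open Polynomial Module
open scoped Classical IntermediateField

namespace Pool.Agent.H429.T3

/-- Adjoining a zero of an irreducible polynomial (copied from `Pool.Graph...N874.JM.Fld`). -/
theorem exists_field {M : Type} [Field M] {p : M[X]} (hp : Irreducible p) (hm : p.Monic) :
    ∃ (Ω : Type) (_ : Field Ω) (_ : Algebra M Ω) (t : Ω),
      aeval t p = 0 ∧ Module.finrank M Ω = p.natDegree ∧ M⟮t⟯ = ⊤ ∧ FiniteDimensional M Ω ∧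
      minpoly M t = p := by
  haveI hf : Fact (Irreducible p) := ⟨hp⟩
  haveI : FiniteDimensional M (AdjoinRoot p) := hm.finite_adjoinRoot
  have hr : Module.finrank M (AdjoinRoot p) = p.natDegree := by
    rw [(AdjoinRoot.powerBasis hm.ne_zero).finrank, AdjoinRoot.powerBasis_dim]
  have h0 : aeval (AdjoinRoot.root p) p = 0 := by
    rw [aeval_def]
    exact AdjoinRoot.eval₂_root _
  have hmin : minpoly M (AdjoinRoot.root p) = p :=
    (minpoly.eq_of_irreducible_of_monic hp h0 hm).symm
  refine ⟨AdjoinRoot p, inferInstance, inferInstance, AdjoinRoot.root p, h0, hr, ?_, inferInstance,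
    hmin⟩
  rw [Field.primitive_element_iff_minpoly_natDegree_eq, hmin, hr]

/-- A polynomial of odd degree which is irreducible over `K` is irreducible over an extension of
degree `2 ^ n` (copied from `Pool.Graph...N874.JM.Fld`). -/
theorem irr_up {K M : Type} [Field K] [Field M] [Algebra K M] [FiniteDimensional K M] {n : ℕ}
    (hM : Module.finrank K M = 2 ^ n) {f : K[X]} (h : Irreducible f) (hm : f.Monic)
    (hodd : Odd f.natDegree) : Irreducible (f.map (algebraMap K M)) := by
  have hnu : ¬ IsUnit (f.map (algebraMap K M)) := by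
    intro hu
    have h1 := natDegree_eq_zero_of_isUnit hu
    rw [hm.natDegree_map] at h1
    rw [h1] at hodd
    exact absurd hodd (by decide)
  obtain ⟨p, hpm, hpi, hpd⟩ := exists_monic_irreducible_factor _ hnu
  obtain ⟨Ω, instF, instA, t, ht, hr, htop, hfin, hmin⟩ := exists_field hpi hpm
  letI : Algebra K Ω := ((algebraMap M Ω).comp (algebraMap K M)).toAlgebra
  haveI : IsScalarTower K M Ω := IsScalarTower.of_algebraMap_eq fun x => rfl
  haveI : FiniteDimensional K Ω := FiniteDimensional.trans K M Ω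
  have h1 : aeval t f = 0 := by
    obtain ⟨q, hq⟩ := hpd
    have h2 := congrArg (aeval t) hq
    rw [map_mul, ht, zero_mul, aeval_map_algebraMap] at h2
    exact h2
  have h2 : minpoly K t = f := (minpoly.eq_of_irreducible_of_monic h h1 hm).symm
  have h3 : (minpoly K t).natDegree ∣ Module.finrank K Ω :=
    minpoly.degree_dvd (Algebra.IsIntegral.isIntegral t)
  rw [h2, ← Module.finrank_mul_finrank K M Ω, hM, hr] at h3
  have h4 : f.natDegree ∣ p.natDegree := by
    refine Nat.Coprime.dvd_of_dvd_mul_left ?_ h3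
    exact (Nat.Coprime.pow_right n (Nat.coprime_two_right.2 hodd))
  have h5 : f.natDegree ≤ p.natDegree := Nat.le_of_dvd hpi.natDegree_pos h4
  have h6 : f.map (algebraMap K M) = p := by
    refine eq_of_monic_of_dvd_of_natDegree_le hpm (hm.map _) hpd ?_
    rw [hm.natDegree_map]
    exact h5
  rw [h6]
  exact hpi

section loc

variable (k₀ : Type) {E : Type} [Field k₀] [Field E] [Algebra k₀ E]

/-- The field `k₀(τ K)`. -/
noncomputable def loc {K : Type} [Field K] (τ : K →+* E) : IntermediateField k₀ E :=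
  IntermediateField.adjoin k₀ (Set.range τ)

theorem mem_loc {K : Type} [Field K] (τ : K →+* E) (x : K) : τ x ∈ loc k₀ τ :=
  IntermediateField.subset_adjoin k₀ _ ⟨x, rfl⟩

/-- The map `K → k₀(τ K)`. -/
noncomputable def toLoc {K : Type} [Field K] (τ : K →+* E) : K →+* loc k₀ τ :=
  τ.codRestrict (loc k₀ τ) (mem_loc k₀ τ)

theorem coe_toLoc {K : Type} [Field K] (τ : K →+* E) (x : K) : (toLoc k₀ τ x : E) = τ x := rfl

theorem loc_mono {K K' : Type} [Field K] [Field K'] (τ : K' →+* E) (φ : K →+* K') :
    loc k₀ (τ.comp φ) ≤ loc k₀ τ := by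
  refine IntermediateField.adjoin.mono k₀ _ _ ?_
  rintro _ ⟨x, rfl⟩
  exact ⟨φ x, rfl⟩

theorem loc_equiv {K K' : Type} [Field K] [Field K'] (τ : K' →+* E) (φ : K ≃+* K') :
    loc k₀ (τ.comp (φ : K →+* K')) = loc k₀ τ := by
  unfold loc
  congr 1
  ext y
  constructor
  · rintro ⟨x, rfl⟩
    exact ⟨φ x, rfl⟩
  · rintro ⟨x, rfl⟩
    exact ⟨φ.symm x, by simp⟩

variable (E)

/-- `x` is a square in `k₀(τ K)` for all `τ`. -/
def SqAt {K : Type} [Field K] (x : K) : Prop :=
  ∀ τ : K →+* E, ∃ s ∈ loc k₀ τ, τ x = s ^ 2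

theorem sqAt_sq {K : Type} [Field K] (x : K) : SqAt k₀ E (x ^ 2) := fun τ =>
  ⟨τ x, mem_loc k₀ τ x, map_pow τ x 2⟩

theorem SqAt.mul {K : Type} [Field K] {x y : K} (hx : SqAt k₀ E x) (hy : SqAt k₀ E y) :
    SqAt k₀ E (x * y) := by
  intro τ
  obtain ⟨s, hs, h1⟩ := hx τ
  obtain ⟨t, ht, h2⟩ := hy τ
  exact ⟨s * t, mul_mem hs ht, by rw [map_mul, h1, h2, mul_pow]⟩

theorem SqAt.equiv {K K' : Type} [Field K] [Field K'] {x : K} (hx : SqAt k₀ E x) (φ : K ≃+* K') :
    SqAt k₀ E (φ x) := by
  intro τ
  obtain ⟨s, hs, h1⟩ := hx (τ.comp (φ : K →+* K'))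
  rw [loc_equiv] at hs
  exact ⟨s, hs, h1⟩

end loc

section gal

/-- Over a bigger base, the image of a Galois extension of degree `2 ^ n` generates a Galois
extension of degree `2 ^ m`. -/
theorem gal_up {F M k E : Type} [Field F] [Field M] [Field k] [Field E] [CharZero k]
    [Algebra F M] [Algebra F k] [Algebra k E] [Algebra F E] [IsScalarTower F k E]
    [Algebra M E] [IsScalarTower F M E] [FiniteDimensional F M] [IsGalois F M] [IsAlgClosed E]
    [Algebra.IsAlgebraic k E] {n : ℕ} (hM : finrank F M = 2 ^ n) :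
    ∃ m : ℕ, finrank k (IntermediateField.adjoin k (Set.range (algebraMap M E))) = 2 ^ m ∧
      FiniteDimensional k (IntermediateField.adjoin k (Set.range (algebraMap M E))) ∧
      Normal k (IntermediateField.adjoin k (Set.range (algebraMap M E))) := by
  have hval : ∀ (h : E →ₐ[k] E) (x : M), ∃ y : M, h (algebraMap M E x) = algebraMap M E y := by
    intro h x
    have h1 : ((minpoly F x).map (algebraMap F M)).Splits := Normal.splits inferInstance x
    have h2 : (((minpoly F x).map (algebraMap F M)).map (algebraMap M E)).IsRoot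
        (h (algebraMap M E x)) := by
      rw [Polynomial.map_map, ← IsScalarTower.algebraMap_eq, IsRoot, eval_map_algebraMap]
      have h3 : aeval (algebraMap M E x) (minpoly F x) = 0 := by
        rw [aeval_algebraMap_apply, minpoly.aeval, map_zero]
      have h4 := congrArg (h.restrictScalars F) h3
      rw [map_zero, ← aeval_algHom_apply] at h4
      exact h4
    have h0 : ((minpoly F x).map (algebraMap F M)) ≠ 0 :=
      Polynomial.map_ne_zero (minpoly.ne_zero (IsIntegral.of_finite F x))
    obtain ⟨y, hy⟩ := h1.mem_range_of_isRoot h0 h2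
    exact ⟨y, hy.symm⟩
  haveI : IsAlgClosure k E := ⟨inferInstance, inferInstance⟩
  haveI : Normal k E := IsAlgClosure.normal k E
  set N := IntermediateField.adjoin k (Set.range (algebraMap M E)) with hN
  have hfin : FiniteDimensional k N := by
    let b := Module.finBasis F M
    have h1 : N = IntermediateField.adjoin k (Set.range fun i => algebraMap M E (b i)) := by
      apply le_antisymm
      · rw [hN, IntermediateField.adjoin_le_iff]
        rintro _ ⟨x, rfl⟩
        rw [← b.sum_repr x, map_sum]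
        refine sum_mem fun i _ => ?_
        rw [Algebra.smul_def, map_mul]
        refine mul_mem ?_ (IntermediateField.subset_adjoin k _ ⟨i, rfl⟩)
        rw [← IsScalarTower.algebraMap_apply F M E, IsScalarTower.algebraMap_apply F k E]
        exact IntermediateField.algebraMap_mem _ _
      · rw [IntermediateField.adjoin_le_iff]
        rintro _ ⟨i, rfl⟩
        exact IntermediateField.subset_adjoin k _ ⟨b i, rfl⟩
    rw [h1]
    haveI : Finite (Set.range fun i => algebraMap M E (b i)) := inferInstance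
    exact IntermediateField.finiteDimensional_adjoin fun x _ => Algebra.IsIntegral.isIntegral x
  have hnor : Normal k N := by
    rw [IntermediateField.normal_iff_forall_map_le]
    intro h
    rw [hN, IntermediateField.adjoin_map, IntermediateField.adjoin_le_iff]
    rintro _ ⟨_, ⟨x, rfl⟩, rfl⟩
    obtain ⟨y, hy⟩ := hval h x
    rw [SetLike.mem_coe, hy]
    exact IntermediateField.subset_adjoin k _ ⟨y, rfl⟩
  haveI : IsGalois k N := ⟨⟩
  have hm : ∀ x : M, algebraMap M E x ∈ N := fun x => IntermediateField.subset_adjoin k _ ⟨x, rfl⟩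
  letI i1 : Algebra M N := ((algebraMap M E).codRestrict N hm).toAlgebra
  letI i2 : Algebra F N := ((algebraMap M N).comp (algebraMap F M)).toAlgebra
  haveI t1 : IsScalarTower F M N := IsScalarTower.of_algebraMap_eq fun _ => rfl
  haveI t2 : IsScalarTower F k N := IsScalarTower.of_algebraMap_eq fun x => by
    apply Subtype.ext
    change algebraMap M E (algebraMap F M x) = algebraMap k E (algebraMap F k x)
    rw [← IsScalarTower.algebraMap_apply, ← IsScalarTower.algebraMap_apply]
  let Φ : (N ≃ₐ[k] N) →* (M ≃ₐ[F] M) :=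
    { toFun := fun σ => AlgEquiv.restrictNormalHom M (σ.restrictScalars F)
      map_one' := by
        have : ((1 : N ≃ₐ[k] N).restrictScalars F) = (1 : N ≃ₐ[F] N) := rfl
        rw [this, map_one]
      map_mul' := fun σ τ => by
        have : ((σ * τ : N ≃ₐ[k] N).restrictScalars F) =
          (σ.restrictScalars F) * (τ.restrictScalars F) := rfl
        rw [this, map_mul] }
  have hΦ : ∀ (σ : N ≃ₐ[k] N) (x : M), algebraMap M N (Φ σ x) = σ (algebraMap M N x) := fun σ x =>
    AlgEquiv.restrictNormal_commutes (σ.restrictScalars F) M x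
  have hinj : Function.Injective Φ := by
    rw [injective_iff_map_eq_one]
    intro σ hσ
    have h1 : ∀ x : M, σ (algebraMap M N x) = algebraMap M N x := by
      intro x
      rw [← hΦ, hσ]
      rfl
    have h2 : ∀ (y : E) (hy : y ∈ N), σ ⟨y, hy⟩ = ⟨y, hy⟩ := by
      intro y hy
      refine IntermediateField.adjoin_induction k (p := fun y hy => σ ⟨y, hy⟩ = ⟨y, hy⟩)
        ?_ ?_ ?_ ?_ ?_ hy
      · rintro _ ⟨x, rfl⟩
        exact h1 x
      · intro x
        exact σ.commutes x
      · intro x y hx hy e1 e2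
        have : (⟨x + y, add_mem hx hy⟩ : N) = ⟨x, hx⟩ + ⟨y, hy⟩ := rfl
        rw [this, map_add, e1, e2]
      · intro x hx e1
        have : (⟨x⁻¹, inv_mem hx⟩ : N) = (⟨x, hx⟩ : N)⁻¹ := rfl
        rw [this, map_inv₀, e1]
      · intro x y hx hy e1 e2
        have : (⟨x * y, mul_mem hx hy⟩ : N) = ⟨x, hx⟩ * ⟨y, hy⟩ := rfl
        rw [this, map_mul, e1, e2]
    ext ⟨y, hy⟩
    rw [h2 y hy]
    rfl
  have hdvd := Subgroup.card_dvd_of_injective Φ hinj
  rw [IsGalois.card_aut_eq_finrank, IsGalois.card_aut_eq_finrank, hM,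
    Nat.dvd_prime_pow Nat.prime_two] at hdvd
  obtain ⟨m, -, hm⟩ := hdvd
  exact ⟨m, hm, hfin, hnor⟩

end gal

end Pool.Agent.H429.T3
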