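import Pool.Agent.H429.T3.B1

/-!
# Local squares: descent along a Galois 2-extension
-/

set_option autoImplicit false
set_option linter.all false

open Polynomial Module
open scoped Classical IntermediateField

namespace Pool.Agent.H429.T3

theorem sqAt_down {k₀ E F L M Ω : Type} [Field k₀] [CharZero k₀] [Field E] [Algebra k₀ E]
    [IsAlgClosed E] [Algebra.IsAlgebraic k₀ E] [Field F] [Field L] [Field M] [Field Ω]
    [Algebra F L] [Algebra F M] [Algebra L Ω] [Algebra M Ω] [Algebra F Ω]
    [IsScalarTower F L Ω] [IsScalarTower F M Ω] [FiniteDimensional F M] [IsGalois F M]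
    [FiniteDimensional F L] [Algebra.IsAlgebraic L Ω] [CharZero F]
    {n : ℕ} (hM : finrank F M = 2 ^ n) (hL : Odd (finrank F L)) {f : F[X]} (hf : f.Monic)
    (hodd : Odd f.natDegree) {θ : L} (hθ : aeval θ f = 0)
    (hLθ : ∀ x : L, ∃ y : F[X], x = aeval θ y)
    (hΩθ : ∀ x : Ω, ∃ y : M[X], x = aeval (algebraMap L Ω θ) y)
    (hirr : ∀ τ : F →+* E, Irreducible (f.map (toLoc k₀ τ)))
    {x : L} (hx : x ≠ 0) (hN : IsSquare (Algebra.norm F x))
    (h : SqAt k₀ E (algebraMap L Ω x)) : SqAt k₀ E x := by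
  intro τ
  letI iLE : Algebra L E := τ.toAlgebra
  letI iFE : Algebra F E := (τ.comp (algebraMap F L)).toAlgebra
  haveI tFLE : IsScalarTower F L E := IsScalarTower.of_algebraMap_eq fun _ => rfl
  let τ' : Ω →ₐ[L] E := IsAlgClosed.lift
  letI iME : Algebra M E := ((τ' : Ω →+* E).comp (algebraMap M Ω)).toAlgebra
  haveI tFME : IsScalarTower F M E := IsScalarTower.of_algebraMap_eq fun a => by
    change τ (algebraMap F L a) = τ' (algebraMap M Ω (algebraMap F M a))
    rw [← IsScalarTower.algebraMap_apply, IsScalarTower.algebraMap_apply F L Ω, τ'.commutes]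
    rfl
  obtain ⟨s, hs, hsx⟩ := h (τ' : Ω →+* E)
  have hsx' : τ x = s ^ 2 := by
    rw [← hsx]
    exact (τ'.commutes x).symm
  refine ⟨s, ?_, hsx'⟩
  set T : E := τ θ with hT
  have hTf : aeval T f = 0 := by
    have := congrArg (algebraMap L E) hθ
    rw [map_zero, ← aeval_algebraMap_apply] at this
    exact this
  -- the base field
  obtain ⟨k, hk⟩ : ∃ k : IntermediateField k₀ E, k = loc k₀ (algebraMap F E) := ⟨_, rfl⟩
  have hFk : ∀ a : F, algebraMap F E a ∈ k := fun a => by
    rw [hk]
    exact mem_loc k₀ _ a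
  letI iFk : Algebra F k := ((algebraMap F E).codRestrict k hFk).toAlgebra
  haveI tFkE : IsScalarTower F k E := IsScalarTower.of_algebraMap_eq fun _ => rfl
  have hirrk : Irreducible (f.map (algebraMap F k)) := by
    subst hk
    exact hirr (algebraMap F E)
  haveI : Algebra.IsAlgebraic k E := Algebra.IsAlgebraic.tower_top (K := k₀) k
  haveI : CharZero k := inferInstance
  obtain ⟨m, hm, hfin, hnor⟩ := gal_up (k := k) (E := E) (M := M) (F := F) hM
  obtain ⟨N, hNe⟩ : ∃ N, N = IntermediateField.adjoin k (Set.range (algebraMap M E)) := ⟨_, rfl⟩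
  rw [← hNe] at hm hfin hnor
  have hMN : ∀ a : M, algebraMap M E a ∈ N := fun a => by
    rw [hNe]
    exact IntermediateField.subset_adjoin k _ ⟨a, rfl⟩
  have hirrN : Irreducible ((f.map (algebraMap F k)).map (algebraMap k N)) :=
    irr_up hm hirrk (hf.map _) (by rw [hf.natDegree_map]; exact hodd)
  obtain ⟨f1, hf1⟩ : ∃ f1, f1 = (f.map (algebraMap F k)).map (algebraMap k N) := ⟨_, rfl⟩
  rw [← hf1] at hirrN
  have hf1m : f1.Monic := by
    rw [hf1]
    exact (hf.map _).map _
  have hf1E : ∀ e : E, aeval e f1 = aeval e f := by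
    intro e
    rw [hf1, aeval_map_algebraMap, aeval_map_algebraMap]
  have hTf1 : aeval T f1 = 0 := by rw [hf1E, hTf]
  have hmin : minpoly N T = f1 := (minpoly.eq_of_irreducible_of_monic hirrN hTf1 hf1m).symm
  -- `s` is a polynomial in `T` over `N`
  obtain ⟨g, hg⟩ : ∃ g : N[X], s = aeval T g := by
    haveI : IsScalarTower k₀ N E := IsScalarTower.of_algebraMap_eq fun _ => rfl
    have h1 : loc k₀ (τ' : Ω →+* E) ≤
        (IntermediateField.adjoin N {T}).restrictScalars k₀ := by
      unfold loc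
      rw [IntermediateField.adjoin_le_iff]
      rintro _ ⟨y, rfl⟩
      obtain ⟨g0, rfl⟩ := hΩθ y
      rw [SetLike.mem_coe, IntermediateField.mem_restrictScalars, aeval_def, hom_eval₂]
      rw [eval₂_eq_sum_range]
      refine sum_mem fun i _ => mul_mem ?_ (pow_mem ?_ i)
      · exact IntermediateField.algebraMap_mem (IntermediateField.adjoin N {T})
          (⟨algebraMap M E (g0.coeff i), hMN _⟩ : N)
      · have : ((τ' : Ω →+* E) (algebraMap L Ω θ)) = T := τ'.commutes θ
        rw [this]
        exact IntermediateField.mem_adjoin_simple_self N T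
    have h2 : s ∈ IntermediateField.adjoin N {T} := h1 hs
    have h3 : IsIntegral N T := ⟨f1, hf1m, hTf1⟩
    have h4 := IntermediateField.adjoin_simple_toSubalgebra_of_isAlgebraic h3.isAlgebraic
    have h5 : s ∈ (IntermediateField.adjoin N {T}).toSubalgebra := h2
    rw [h4, Algebra.adjoin_singleton_eq_range_aeval] at h5
    obtain ⟨g, hg⟩ := h5
    exact ⟨g, hg.symm⟩
  have hkL : k ≤ loc k₀ τ := by
    rw [hk]
    exact loc_mono k₀ τ (algebraMap F L)
  obtain ⟨y, hy⟩ := hLθ x
  have h2E : (2 : E) ≠ 0 := by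
    have := (map_ne_zero (algebraMap k₀ E)).2 (two_ne_zero (α := k₀))
    rwa [map_ofNat] at this
  -- Galois
  have hfix : ∀ h : E ≃ₐ[loc k₀ τ] E, h s = s := by
    intro h
    by_contra hne
    have c1 : ∀ a ∈ loc k₀ τ, h a = a := fun a ha => h.commutes ⟨a, ha⟩
    let hk' : E →ₐ[k] E :=
      { (h : E →+* E) with commutes' := fun a => c1 a (hkL a.2) }
    let hF : E ≃ₐ[F] E := AlgEquiv.ofRingEquiv (f := h.toRingEquiv)
      (fun a => c1 _ (hkL (hFk a)))
    have c2 : ∀ a ∈ N, h a ∈ N := by
      intro a ha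
      haveI : IsAlgClosure k E := ⟨inferInstance, inferInstance⟩
      haveI : Normal k E := IsAlgClosure.normal k E
      exact (IntermediateField.normal_iff_forall_map_le.1 hnor) hk' ⟨a, ha, rfl⟩
    let hN' : N →+* N := ((h : E →+* E).comp (algebraMap N E)).codRestrict N (fun a => c2 a a.2)
    have c3 : ∀ (e : E) (q : N[X]), h (aeval e q) = aeval (h e) (q.map hN') := by
      intro e q
      rw [aeval_def, aeval_def, eval₂_map]
      exact hom_eval₂ q (algebraMap N E) (h : E →+* E) e
    have hT' : h T = T := c1 T (mem_loc k₀ τ θ)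
    have hsn : h s = - s := by
      have h1 : (h s) ^ 2 = s ^ 2 := by
        rw [← map_pow, ← hsx']
        exact c1 _ (mem_loc k₀ τ x)
      rcases sq_eq_sq_iff_eq_or_eq_neg.1 h1 with h1 | h1
      · exact absurd h1 hne
      · exact h1
    have d1 : f1 ∣ g.map hN' + g := by
      rw [← hmin]
      apply minpoly.dvd
      have h1 := c3 T g
      rw [hT', ← hg] at h1
      rw [map_add, ← h1, hsn, ← hg]
      ring
    obtain ⟨y1, hy1⟩ : ∃ y1 : N[X], y1 = (y.map (algebraMap F k)).map (algebraMap k N) := ⟨_, rfl⟩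
    have hy1E : ∀ e : E, aeval e y1 = aeval e y := by
      intro e
      rw [hy1, aeval_map_algebraMap, aeval_map_algebraMap]
    have hyT : aeval T y = τ x := by
      rw [hy, hT]
      exact aeval_algebraMap_apply E θ y
    have d2 : f1 ∣ g ^ 2 - y1 := by
      rw [← hmin]
      apply minpoly.dvd
      rw [map_sub, map_pow, ← hg, hy1E, hyT, hsx', sub_self]
    have hσf : ∀ σ : L →ₐ[F] E, aeval (σ θ) f1 = 0 := by
      intro σ
      rw [hf1E, aeval_algHom_apply, hθ, map_zero]
    have e1 : ∀ σ : L →ₐ[F] E, aeval (σ θ) (g.map hN') = - aeval (σ θ) g := by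
      intro σ
      obtain ⟨q, hq⟩ := d1
      have := congrArg (aeval (σ θ)) hq
      rw [map_mul, hσf, zero_mul, map_add] at this
      linear_combination this
    have e2 : ∀ σ : L →ₐ[F] E, (aeval (σ θ) g) ^ 2 = σ x := by
      intro σ
      obtain ⟨q, hq⟩ := d2
      have := congrArg (aeval (σ θ)) hq
      have h7 : aeval (σ θ) y = σ x := by rw [aeval_algHom_apply, ← hy]
      rw [map_mul, hσf, zero_mul, map_sub, map_pow, hy1E, h7] at this
      linear_combination this
    obtain ⟨t, ht⟩ : ∃ t : E, t = ∏ σ : L →ₐ[F] E, aeval (σ θ) g := ⟨_, rfl⟩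
    have ht2 : t ^ 2 = algebraMap F E (Algebra.norm F x) := by
      rw [Algebra.norm_eq_prod_embeddings, ht, ← Finset.prod_pow]
      exact Finset.prod_congr rfl fun σ _ => e2 σ
    have hht : h t = - t := by
      rw [ht, map_prod]
      have h1 : ∀ σ : L →ₐ[F] E, h (aeval (σ θ) g) =
          - aeval (((AlgEquiv.refl : L ≃ₐ[F] L).arrowCongr hF σ) θ) g := by
        intro σ
        rw [c3, ← e1]
        rfl
      rw [Finset.prod_congr rfl fun σ _ => h1 σ, Finset.prod_neg, Finset.card_univ,
        AlgHom.card F L E, hL.neg_one_pow, Equiv.prod_comp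
          ((AlgEquiv.refl : L ≃ₐ[F] L).arrowCongr hF) (fun σ : L →ₐ[F] E => aeval (σ θ) g)]
      ring
    obtain ⟨r, hr⟩ := hN
    rw [hr, map_mul] at ht2
    have h3 : h t = t := by
      have h4 : t ^ 2 = (algebraMap F E r) ^ 2 := by rw [ht2, pow_two]
      rcases sq_eq_sq_iff_eq_or_eq_neg.1 h4 with h4 | h4
      · rw [h4]
        exact c1 _ (hkL (hFk r))
      · rw [h4, map_neg]
        congr 1
        exact c1 _ (hkL (hFk r))
    rw [h3] at hht
    have h5 : t = 0 := by
      have : (2 : E) * t = 0 := by linear_combination hht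
      rcases mul_eq_zero.1 this with h | h
      · exact absurd h h2E
      · exact h
    rw [ht, Finset.prod_eq_zero_iff] at h5
    obtain ⟨σ, -, hσ⟩ := h5
    have h6 := e2 σ
    rw [hσ, zero_pow two_ne_zero] at h6
    exact hx ((map_eq_zero σ).1 h6.symm)
  haveI : Algebra.IsAlgebraic (loc k₀ τ) E := Algebra.IsAlgebraic.tower_top (K := k₀) _
  haveI : IsAlgClosure (loc k₀ τ) E := ⟨inferInstance, inferInstance⟩
  haveI : Normal (loc k₀ τ) E := IsAlgClosure.normal _ E
  haveI : CharZero (loc k₀ τ) := inferInstance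
  haveI : IsGalois (loc k₀ τ) E := ⟨⟩
  obtain ⟨z, hz⟩ := InfiniteGalois.mem_range_algebraMap_iff_fixed (k := loc k₀ τ) (K := E) s |>.2 hfix
  rw [← hz]
  exact z.2

end Pool.Agent.H429.T3
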