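import Pool.Agent.H429.T3.B1

/-!
# No roots in the local fields of a Galois 2-extension
-/

set_option autoImplicit false
set_option linter.all false

open Polynomial Module
open scoped Classical IntermediateField

namespace Pool.Agent.H429.T3

theorem no_root {k₀ E F M : Type} [Field k₀] [CharZero k₀] [Field E] [Algebra k₀ E]
    [IsAlgClosed E] [Algebra.IsAlgebraic k₀ E] [Field F] [Field M] [Algebra F M]
    [FiniteDimensional F M] [IsGalois F M]
    {n : ℕ} (hM : finrank F M = 2 ^ n) {f : F[X]} (hf : f.Monic) (hodd : Odd f.natDegree)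
    (h1 : f.natDegree ≠ 1) (hirr : ∀ τ : F →+* E, Irreducible (f.map (toLoc k₀ τ)))
    (τ : M →+* E) {r : E} (hr : r ∈ loc k₀ τ) :
    eval₂ (τ.comp (algebraMap F M)) r f ≠ 0 := by
  intro h0
  letI iME : Algebra M E := τ.toAlgebra
  letI iFE : Algebra F E := (τ.comp (algebraMap F M)).toAlgebra
  haveI tFME : IsScalarTower F M E := IsScalarTower.of_algebraMap_eq fun _ => rfl
  obtain ⟨k, hk⟩ : ∃ k : IntermediateField k₀ E, k = loc k₀ (algebraMap F E) := ⟨_, rfl⟩
  have hFk : ∀ a : F, algebraMap F E a ∈ k := fun a => by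
    rw [hk]
    exact mem_loc k₀ _ a
  letI iFk : Algebra F k := ((algebraMap F E).codRestrict k hFk).toAlgebra
  haveI tFkE : IsScalarTower F k E := IsScalarTower.of_algebraMap_eq fun _ => rfl
  have hirrk : Irreducible (f.map (algebraMap F k)) := by
    subst hk
    exact hirr (algebraMap F E)
  haveI : Algebra.IsAlgebraic k E := Algebra.IsAlgebraic.tower_top (K := k₀) k
  haveI : CharZero k := inferInstance
  obtain ⟨m, hm, hfin, hnor⟩ := gal_up (k := k) (E := E) (M := M) (F := F) hM
  obtain ⟨N, hNe⟩ : ∃ N, N = IntermediateField.adjoin k (Set.range (algebraMap M E)) := ⟨_, rfl⟩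
  rw [← hNe] at hm hfin hnor
  have hirrN : Irreducible ((f.map (algebraMap F k)).map (algebraMap k N)) :=
    irr_up hm hirrk (hf.map _) (by rw [hf.natDegree_map]; exact hodd)
  haveI : IsScalarTower k₀ N E := IsScalarTower.of_algebraMap_eq fun _ => rfl
  have hle : loc k₀ τ ≤ N.restrictScalars k₀ := by
    unfold loc
    rw [IntermediateField.adjoin_le_iff]
    rintro _ ⟨y, rfl⟩
    rw [SetLike.mem_coe, IntermediateField.mem_restrictScalars, hNe]
    exact IntermediateField.subset_adjoin k _ ⟨y, rfl⟩
  have hrN : r ∈ N := hle hr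
  have hroot : ((f.map (algebraMap F k)).map (algebraMap k N)).IsRoot (⟨r, hrN⟩ : N) := by
    rw [IsRoot, ← (algebraMap N E).injective.eq_iff, map_zero, ← eval₂_at_apply, eval₂_map,
      eval₂_map]
    exact h0
  have hd := degree_eq_one_of_irreducible_of_root hirrN hroot
  have hd' := natDegree_eq_of_degree_eq_some hd
  rw [(hf.map _).natDegree_map, hf.natDegree_map] at hd'
  exact h1 hd'

end Pool.Agent.H429.T3
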