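import Mathlib

/-!
# The valuation of a norm
-/

set_option autoImplicit false
set_option linter.all false

open IsDedekindDomain NumberField Ideal
open scoped Classical

namespace Pool.Agent.H429.T3

variable {F L : Type} [Field F] [NumberField F] [Field L] [NumberField L] [Algebra F L]

/-- The exponent of a prime in an ideal. -/
noncomputable def ct {K : Type} [Field K] [NumberField K] (P I : Ideal (𝓞 K)) : ℕ :=
  (Associates.mk P).count (Associates.mk I).factors

theorem ct_mul {K : Type} [Field K] [NumberField K] {P I J : Ideal (𝓞 K)} (hP : P.IsPrime)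
    (h0 : P ≠ ⊥) (hI : I ≠ ⊥) (hJ : J ≠ ⊥) : ct P (I * J) = ct P I + ct P J := by
  unfold ct
  rw [← Associates.mk_mul_mk, Associates.count_mul]
  · rwa [Ne, Associates.mk_eq_zero]
  · rwa [Ne, Associates.mk_eq_zero]
  · rw [Associates.irreducible_mk]
    exact ((Ideal.prime_iff_isPrime h0).2 hP).irreducible

theorem ct_self {K : Type} [Field K] [NumberField K] {P : Ideal (𝓞 K)} (hP : P.IsPrime)
    (h0 : P ≠ ⊥) : ct P P = 1 := by
  unfold ct
  exact Associates.count_self (Associates.irreducible_mk.2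
    ((Ideal.prime_iff_isPrime h0).2 hP).irreducible)

theorem ct_ne {K : Type} [Field K] [NumberField K] {P Q : Ideal (𝓞 K)} (hP : P.IsPrime)
    (h0 : P ≠ ⊥) (hQ : Q.IsPrime) (h0' : Q ≠ ⊥) (hne : P ≠ Q) : ct P Q = 0 := by
  unfold ct
  refine Associates.count_eq_zero_of_ne (Associates.irreducible_mk.2
    ((Ideal.prime_iff_isPrime h0).2 hP).irreducible) (Associates.irreducible_mk.2
    ((Ideal.prime_iff_isPrime h0').2 hQ).irreducible) ?_
  intro h
  exact hne (associated_iff_eq.1 (Associates.mk_eq_mk_iff_associated.1 h))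

theorem ct_pow {K : Type} [Field K] [NumberField K] {P I : Ideal (𝓞 K)} (hP : P.IsPrime)
    (h0 : P ≠ ⊥) (hI : I ≠ ⊥) (n : ℕ) : ct P (I ^ n) = n * ct P I := by
  induction n with
  | zero =>
    unfold ct
    have : (Associates.mk ((I ^ 0 : Ideal (𝓞 K)))) = 1 := by
      rw [pow_zero, Associates.mk_one]
    rw [this, Associates.factors_one, zero_mul]
    exact Associates.count_zero (Associates.irreducible_mk.2
      ((Ideal.prime_iff_isPrime h0).2 hP).irreducible)
  | succ n ih =>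
    rw [pow_succ, ct_mul hP h0 (pow_ne_zero n hI) hI, ih]
    ring

theorem ct_one {K : Type} [Field K] [NumberField K] {P : Ideal (𝓞 K)} (hP : P.IsPrime)
    (h0 : P ≠ ⊥) : ct P ⊤ = 0 := by
  have := ct_pow hP h0 h0 0
  rw [pow_zero, Ideal.one_eq_top, zero_mul] at this
  exact this

theorem ct_norm (v : HeightOneSpectrum (𝓞 F)) {I : Ideal (𝓞 L)} (hI : I ≠ ⊥) :
    ct v.asIdeal (relNorm (𝓞 F) I) =
      ∑ P ∈ IsDedekindDomain.primesOverFinset v.asIdeal (𝓞 L), P.inertiaDeg (𝓞 F) * ct P I := by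
  haveI := v.isMaximal
  induction I using UniqueFactorizationMonoid.induction_on_prime with
  | h₁ => exact absurd rfl hI
  | h₂ I hu =>
    rw [Ideal.isUnit_iff.1 hu, relNorm_top, ct_one v.isPrime v.ne_bot, Finset.sum_eq_zero]
    intro P hP
    rw [IsDedekindDomain.mem_primesOverFinset_iff v.ne_bot] at hP
    haveI := hP.1
    haveI := hP.2
    rw [ct_one hP.1 (ne_bot_of_liesOver_of_ne_bot v.ne_bot P), mul_zero]
  | h₃ I Q hI0 hQ ih =>
    have hQ' : Q.IsPrime := (Ideal.prime_iff_isPrime hQ.ne_zero).1 hQ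
    haveI hQm : Q.IsMaximal := hQ'.isMaximal hQ.ne_zero
    obtain ⟨w, hw⟩ : ∃ w : Ideal (𝓞 F), w = Q.under (𝓞 F) := ⟨_, rfl⟩
    haveI hlw : Q.LiesOver w := ⟨hw⟩
    haveI hwm : w.IsMaximal := by
      rw [hw]
      infer_instance
    have hw0 : w ≠ ⊥ := by
      rw [hw]
      intro h0
      exact hQ.ne_zero (Ideal.eq_bot_of_comap_eq_bot h0)
    have hn0 : relNorm (𝓞 F) I ≠ ⊥ := by rwa [Ne, relNorm_eq_bot_iff]
    have hnQ : relNorm (𝓞 F) Q ≠ ⊥ := by
      rw [Ne, relNorm_eq_bot_iff]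
      exact hQ.ne_zero
    rw [map_mul, ct_mul v.isPrime v.ne_bot hnQ hn0, ih hI0]
    have h1 : ∀ P ∈ IsDedekindDomain.primesOverFinset v.asIdeal (𝓞 L), P.inertiaDeg (𝓞 F) * ct P (Q * I) =
        P.inertiaDeg (𝓞 F) * ct P Q + P.inertiaDeg (𝓞 F) * ct P I := by
      intro P hP
      rw [IsDedekindDomain.mem_primesOverFinset_iff v.ne_bot] at hP
      haveI := hP.1
      haveI := hP.2
      rw [ct_mul hP.1 (ne_bot_of_liesOver_of_ne_bot v.ne_bot P) hQ.ne_zero hI0]
      ring
    rw [Finset.sum_congr rfl h1, Finset.sum_add_distrib]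
    congr 1
    rw [relNorm_eq_pow_of_isMaximal Q w, ct_pow v.isPrime v.ne_bot hw0]
    by_cases hvw : v.asIdeal = w
    · rw [hvw, ct_self (hvw ▸ v.isPrime) hw0]
      rw [Finset.sum_eq_single Q]
      · rw [ct_self hQ' hQ.ne_zero]
      · intro P hP hPQ
        rw [IsDedekindDomain.mem_primesOverFinset_iff hw0] at hP
        haveI := hP.1
        haveI := hP.2
        rw [ct_ne hP.1 (ne_bot_of_liesOver_of_ne_bot hw0 P) hQ' hQ.ne_zero hPQ, mul_zero]
      · intro h
        exact absurd ((IsDedekindDomain.mem_primesOverFinset_iff hw0 (𝓞 L)).2 ⟨hQ', hlw⟩) h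
    · rw [ct_ne v.isPrime v.ne_bot hwm.isPrime hw0 hvw, mul_zero, Finset.sum_eq_zero]
      intro P hP
      rw [IsDedekindDomain.mem_primesOverFinset_iff v.ne_bot] at hP
      haveI := hP.1
      haveI := hP.2
      rw [ct_ne hP.1 (ne_bot_of_liesOver_of_ne_bot v.ne_bot P) hQ' hQ.ne_zero, mul_zero]
      rintro rfl
      apply hvw
      rw [hw]
      exact hP.2.over

end Pool.Agent.H429.T3
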