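import Pool.Agent.H429.T3.C1

/-!
# Parity of valuations and norms
-/

set_option autoImplicit false
set_option linter.all false

open IsDedekindDomain NumberField Ideal Module
open scoped Classical

namespace Pool.Agent.H429.T3

/-- The valuation of `x` at `𝔓` is even. -/
def Ev {L : Type} [Field L] [NumberField L] (𝔓 : HeightOneSpectrum (𝓞 L)) (x : L) : Prop :=
  ∃ n : ℤ, 𝔓.valuation L x = WithZero.exp (2 * n)

section ev

variable {L : Type} [Field L] [NumberField L] {𝔓 : HeightOneSpectrum (𝓞 L)}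

theorem exists_exp (𝔓 : HeightOneSpectrum (𝓞 L)) {x : L} (hx : x ≠ 0) :
    ∃ m : ℤ, 𝔓.valuation L x = WithZero.exp m :=
  ⟨WithZero.log _, (WithZero.exp_log ((Valuation.ne_zero_iff _).2 hx)).symm⟩

theorem ev_iff {x : L} {m : ℤ} (h : 𝔓.valuation L x = WithZero.exp m) : Ev 𝔓 x ↔ Even m := by
  constructor
  · rintro ⟨n, hn⟩
    rw [h, WithZero.exp_inj] at hn
    exact ⟨n, by omega⟩
  · rintro ⟨n, hn⟩
    exact ⟨n, by rw [h, hn, two_mul]⟩

theorem Ev.mul {x y : L} (hx : Ev 𝔓 x) (hy : Ev 𝔓 y) : Ev 𝔓 (x * y) := by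
  obtain ⟨m, hm⟩ := hx
  obtain ⟨n, hn⟩ := hy
  exact ⟨m + n, by rw [map_mul, hm, hn, ← WithZero.exp_add, mul_add]⟩

theorem ev_sq {x : L} (hx : x ≠ 0) : Ev 𝔓 (x ^ 2) := by
  obtain ⟨m, hm⟩ := exists_exp 𝔓 hx
  exact ⟨m, by rw [map_pow, hm, ← WithZero.exp_nsmul]; simp⟩

theorem ev_of_one {x : L} (hx : 𝔓.valuation L x = 1) : Ev 𝔓 x := ⟨0, by rw [hx]; simp⟩

theorem Ev.ne_zero {x : L} (hx : Ev 𝔓 x) : x ≠ 0 := by
  rintro rfl
  obtain ⟨n, hn⟩ := hx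
  rw [map_zero] at hn
  exact WithZero.exp_ne_zero hn.symm

theorem ev_mul_sq_iff {x y : L} (hx : x ≠ 0) (hy : y ≠ 0) : Ev 𝔓 (x * y ^ 2) ↔ Ev 𝔓 x := by
  obtain ⟨m, hm⟩ := exists_exp 𝔓 hx
  obtain ⟨n, hn⟩ := exists_exp 𝔓 hy
  have h1 : 𝔓.valuation L (x * y ^ 2) = WithZero.exp (m + 2 * n) := by
    rw [map_mul, map_pow, hm, hn, ← WithZero.exp_nsmul, ← WithZero.exp_add]
    simp
  rw [ev_iff hm, ev_iff h1, Int.even_add]
  simp

end ev

variable {F L : Type} [Field F] [NumberField F] [Field L] [NumberField L] [Algebra F L]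

/-- `𝔓` lies over `v`. -/
def Over (v : HeightOneSpectrum (𝓞 F)) (𝔓 : HeightOneSpectrum (𝓞 L)) : Prop :=
  𝔓.asIdeal.LiesOver v.asIdeal

theorem parity (v : HeightOneSpectrum (𝓞 F)) {x : L} (hx : x ≠ 0)
    (hN : IsSquare (Algebra.norm F x)) :
    ∃ c : Ideal (𝓞 L) → ℕ, (∀ 𝔓 : HeightOneSpectrum (𝓞 L), Ev 𝔓 x ↔ Even (c 𝔓.asIdeal)) ∧
      Even (∑ P ∈ IsDedekindDomain.primesOverFinset v.asIdeal (𝓞 L),
        P.inertiaDeg (𝓞 F) * c P) := by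
  obtain ⟨a, b, hb, hab⟩ := IsFractionRing.div_surjective (A := 𝓞 L) x
  have hb0 : b ≠ 0 := nonZeroDivisors.ne_zero hb
  have hbL : algebraMap (𝓞 L) L b ≠ 0 := by simpa using hb0
  have ha0 : a ≠ 0 := by
    rintro rfl
    rw [map_zero, zero_div] at hab
    exact hx hab.symm
  have hz : algebraMap (𝓞 L) L (a * b) = x * (algebraMap (𝓞 L) L b) ^ 2 := by
    rw [← hab, map_mul]
    field_simp
  have hab0 : a * b ≠ 0 := mul_ne_zero ha0 hb0
  have hspan : Ideal.span {a * b} ≠ ⊥ := by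
    rw [Ne, Ideal.span_singleton_eq_bot]
    exact hab0
  refine ⟨fun P => ct P (Ideal.span {a * b}), fun 𝔓 => ?_, ?_⟩
  · rw [← ev_mul_sq_iff hx hbL, ← hz]
    have h1 : 𝔓.valuation L (algebraMap (𝓞 L) L (a * b)) =
        WithZero.exp (-(ct 𝔓.asIdeal (Ideal.span {a * b}) : ℤ)) := by
      rw [HeightOneSpectrum.valuation_of_algebraMap, HeightOneSpectrum.intValuation_if_neg _ hab0]
      rfl
    rw [ev_iff h1, even_neg]
    exact Int.even_coe_nat _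
  · rw [← ct_norm v hspan, relNorm_singleton]
    have hn0 : Algebra.intNorm (𝓞 F) (𝓞 L) (a * b) ≠ 0 := by
      intro h0
      have h1 : relNorm (𝓞 F) (Ideal.span {a * b}) = ⊥ := by
        rw [relNorm_singleton, h0, Ideal.span_singleton_eq_bot]
      rw [relNorm_eq_bot_iff] at h1
      exact hspan h1
    have h1 : v.valuation F (algebraMap (𝓞 F) F (Algebra.intNorm (𝓞 F) (𝓞 L) (a * b))) =
        WithZero.exp (-(ct v.asIdeal (Ideal.span {Algebra.intNorm (𝓞 F) (𝓞 L) (a * b)}) : ℤ)) := by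
      rw [HeightOneSpectrum.valuation_of_algebraMap, HeightOneSpectrum.intValuation_if_neg _ hn0]
      rfl
    rw [← Int.even_coe_nat, ← even_neg, ← ev_iff h1,
      Algebra.algebraMap_intNorm (A := 𝓞 F) (K := F) (L := L) (B := 𝓞 L), hz, map_mul, map_pow]
    obtain ⟨r, hr⟩ := hN
    have hr0 : r ≠ 0 := by
      rintro rfl
      rw [mul_zero, Algebra.norm_eq_zero_iff] at hr
      exact hx hr
    rw [hr, ← pow_two, ← mul_pow]
    exact ev_sq (mul_ne_zero hr0 (Algebra.norm_ne_zero_iff.2 hbL))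

theorem ef_eq (v : HeightOneSpectrum (𝓞 F)) {𝔓 : HeightOneSpectrum (𝓞 L)} (h𝔓 : Over v 𝔓)
    (huniq : ∀ 𝔓' : HeightOneSpectrum (𝓞 L), Over v 𝔓' → 𝔓' = 𝔓) :
    𝔓.asIdeal.ramificationIdx (𝓞 F) * 𝔓.asIdeal.inertiaDeg (𝓞 F) = finrank F L := by
  haveI := v.isMaximal
  have h4 := sum_ramification_inertia_eq_finrank v.asIdeal (𝓞 L)
  have h5 : ∀ q : primesOver v.asIdeal (𝓞 L), q = ⟨𝔓.asIdeal, 𝔓.isPrime, h𝔓⟩ := by
    rintro ⟨P, h1, h2⟩
    have h3 := huniq ⟨P, h1, ne_bot_of_liesOver_of_ne_bot v.ne_bot P⟩ h2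
    exact Subtype.ext (congrArg HeightOneSpectrum.asIdeal h3)
  rw [← IsFractionRing.finrank_eq (𝓞 F) F (𝓞 L) L] at h4
  rw [← h4, Fintype.sum_eq_single ⟨𝔓.asIdeal, 𝔓.isPrime, h𝔓⟩]
  intro q hq
  exact absurd (h5 q) hq

theorem odd_ef (hL : Odd (finrank F L)) (v : HeightOneSpectrum (𝓞 F))
    {𝔓 : HeightOneSpectrum (𝓞 L)} (h𝔓 : Over v 𝔓)
    (huniq : ∀ 𝔓' : HeightOneSpectrum (𝓞 L), Over v 𝔓' → 𝔓' = 𝔓) :
    Odd (𝔓.asIdeal.ramificationIdx (𝓞 F) * 𝔓.asIdeal.inertiaDeg (𝓞 F)) := by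
  rw [ef_eq v h𝔓 huniq]
  exact hL

/-- If `[L : F]` is odd and there is only one prime over `v`, then the valuations of elements
with square norm are even. -/
theorem ev_of_unique (hL : Odd (finrank F L)) (v : HeightOneSpectrum (𝓞 F))
    {𝔓 : HeightOneSpectrum (𝓞 L)} (h𝔓 : Over v 𝔓)
    (huniq : ∀ 𝔓' : HeightOneSpectrum (𝓞 L), Over v 𝔓' → 𝔓' = 𝔓) {x : L} (hx : x ≠ 0)
    (hN : IsSquare (Algebra.norm F x)) : Ev 𝔓 x := by
  obtain ⟨c, hc, hsum⟩ := parity v hx hN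
  have hset : IsDedekindDomain.primesOverFinset v.asIdeal (𝓞 L) = {𝔓.asIdeal} := by
    ext P
    rw [IsDedekindDomain.mem_primesOverFinset_iff v.ne_bot, Finset.mem_singleton]
    constructor
    · rintro ⟨h1, h2⟩
      have h3 := huniq ⟨P, h1, ne_bot_of_liesOver_of_ne_bot v.ne_bot P⟩ h2
      exact congrArg HeightOneSpectrum.asIdeal h3
    · rintro rfl
      exact ⟨𝔓.isPrime, h𝔓⟩
  rw [hset, Finset.sum_singleton] at hsum
  rw [hc]
  obtain ⟨-, hodd⟩ := Nat.odd_mul.1 (odd_ef hL v h𝔓 huniq)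
  rcases Nat.even_mul.1 hsum with h | h
  · exact absurd h (Nat.not_even_iff_odd.2 hodd)
  · exact h

end Pool.Agent.H429.T3
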