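import Pool.Agent.H429.T3.C2
import Pool.Graph.R_pool_sql_team_seeded_63374d34.N301.JM.TOW

/-!
# Primes in the compositum with a Galois 2-extension
-/

set_option autoImplicit false
set_option linter.all false

open IsDedekindDomain NumberField Ideal Module
open scoped Classical

namespace Pool.Agent.H429.T3

/-- A prime of the extension over a given prime. -/
theorem exists_over {F L : Type} [Field F] [NumberField F] [Field L] [NumberField L] [Algebra F L]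
    (v : HeightOneSpectrum (𝓞 F)) : ∃ 𝔓 : HeightOneSpectrum (𝓞 L), Over v 𝔓 := by
  haveI := v.isMaximal
  obtain ⟨Q, hQ1, hQ2⟩ := exists_maximal_ideal_liesOver_of_isIntegral (S := 𝓞 L) v.asIdeal
  exact ⟨⟨Q, hQ1.isPrime, ne_bot_of_liesOver_of_ne_bot v.ne_bot Q⟩, hQ2⟩

/-- The prime below. -/
theorem exists_under {F L : Type} [Field F] [NumberField F] [Field L] [NumberField L] [Algebra F L]
    (𝔓 : HeightOneSpectrum (𝓞 L)) : ∃ v : HeightOneSpectrum (𝓞 F), Over v 𝔓 := by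
  refine ⟨⟨𝔓.asIdeal.under (𝓞 F), inferInstance, ?_⟩, ⟨rfl⟩⟩
  intro h0
  exact 𝔓.ne_bot (Ideal.eq_bot_of_comap_eq_bot h0)

theorem Over.trans {F M Ω : Type} [Field F] [NumberField F] [Field M] [NumberField M]
    [Field Ω] [NumberField Ω] [Algebra F M] [Algebra M Ω] [Algebra F Ω] [IsScalarTower F M Ω]
    {v : HeightOneSpectrum (𝓞 F)} {w : HeightOneSpectrum (𝓞 M)} {𝔔 : HeightOneSpectrum (𝓞 Ω)}
    (h1 : Over v w) (h2 : Over w 𝔔) : Over v 𝔔 := by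
  haveI : w.asIdeal.LiesOver v.asIdeal := h1
  haveI : 𝔔.asIdeal.LiesOver w.asIdeal := h2
  exact LiesOver.trans 𝔔.asIdeal w.asIdeal v.asIdeal

theorem Over.eq {F M : Type} [Field F] [NumberField F] [Field M] [NumberField M] [Algebra F M]
    {v v' : HeightOneSpectrum (𝓞 F)} {w : HeightOneSpectrum (𝓞 M)} (h : Over v w)
    (h' : Over v' w) : v = v' := by
  apply HeightOneSpectrum.ext
  rw [h.over, h'.over]

/-- Valuations and ramification. -/
theorem val_over {F L : Type} [Field F] [NumberField F] [Field L] [NumberField L] [Algebra F L]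
    {v : HeightOneSpectrum (𝓞 F)} {𝔓 : HeightOneSpectrum (𝓞 L)} (h : Over v 𝔓) (x : F) :
    𝔓.valuation L (algebraMap F L x) = v.valuation F x ^ 𝔓.asIdeal.ramificationIdx (𝓞 F) := by
  haveI : 𝔓.asIdeal.LiesOver v.asIdeal := h
  haveI := v.isPrime
  haveI := 𝔓.isPrime
  rw [← HeightOneSpectrum.valuation_liesOver L v 𝔓,
    ramificationIdx'_eq_ramificationIdx _ _ v.ne_bot]

theorem e_pos {F L : Type} [Field F] [NumberField F] [Field L] [NumberField L] [Algebra F L]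
    (𝔓 : HeightOneSpectrum (𝓞 L)) : 0 < 𝔓.asIdeal.ramificationIdx (𝓞 F) := by
  haveI := 𝔓.isPrime
  exact ramificationIdx_pos _ _

theorem f_pos {F L : Type} [Field F] [NumberField F] [Field L] [NumberField L] [Algebra F L]
    (𝔓 : HeightOneSpectrum (𝓞 L)) : 0 < 𝔓.asIdeal.inertiaDeg (𝓞 F) := by
  haveI := 𝔓.isPrime
  exact inertiaDeg_pos _ _

theorem finite_res {F : Type} [Field F] [NumberField F] (v : HeightOneSpectrum (𝓞 F)) :
    haveI := v.isPrime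
    Finite v.asIdeal.ResidueField := by
  haveI := v.isMaximal
  haveI : Finite (𝓞 F ⧸ v.asIdeal) := v.asIdeal.finiteQuotientOfFreeOfNeBot v.ne_bot
  exact Finite.of_surjective _ (Ideal.bijective_algebraMap_quotient_residueField v.asIdeal).2

section gal

variable {F L M Ω : Type} [Field F] [NumberField F] [Field L] [NumberField L] [Field M]
  [NumberField M] [Field Ω] [NumberField Ω] [Algebra F L] [Algebra F M] [Algebra L Ω] [Algebra M Ω]
  [Algebra F Ω] [IsScalarTower F L Ω] [IsScalarTower F M Ω] [IsGalois F M]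

theorem ef_dvd {n : ℕ} (hM : finrank F M = 2 ^ n) (w : HeightOneSpectrum (𝓞 M)) :
    w.asIdeal.ramificationIdx (𝓞 F) * w.asIdeal.inertiaDeg (𝓞 F) ∣ 2 ^ n := by
  obtain ⟨v, hv⟩ := exists_under (F := F) w
  haveI : w.asIdeal.LiesOver v.asIdeal := hv
  haveI := v.isPrime
  haveI := w.isPrime
  have h1 := ncard_primesOver_mul_ramificationIdxIn_mul_inertiaDegIn v.asIdeal (𝓞 M) Gal(M/F)
  rw [ramificationIdxIn_eq_ramificationIdx v.asIdeal w.asIdeal Gal(M/F),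
    inertiaDegIn_eq_inertiaDeg v.asIdeal w.asIdeal Gal(M/F), IsGalois.card_aut_eq_finrank, hM] at h1
  exact ⟨_, by rw [← h1, mul_comm]⟩

/-- If there is only one prime of `L` over `v`, then there is only one prime of `Ω` over every
prime of `M` over `v`. -/
theorem unique_up {n : ℕ} (hM : finrank F M = 2 ^ n) (hL : Odd (finrank F L))
    (hΩ : finrank M Ω = finrank F L) {v : HeightOneSpectrum (𝓞 F)}
    (huniq : ∀ 𝔓 𝔓' : HeightOneSpectrum (𝓞 L), Over v 𝔓 → Over v 𝔓' → 𝔓 = 𝔓')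
    {w : HeightOneSpectrum (𝓞 M)} (hw : Over v w) (𝔔 𝔔' : HeightOneSpectrum (𝓞 Ω))
    (h1 : Over w 𝔔) (h2 : Over w 𝔔') : 𝔔 = 𝔔' := by
  by_contra hne
  obtain ⟨𝔓, h𝔓⟩ := exists_under (F := L) 𝔔
  obtain ⟨v', hv'⟩ := exists_under (F := F) 𝔓
  obtain rfl : v = v' := (hw.trans h1).eq (hv'.trans h𝔓)
  haveI i1 : 𝔔.asIdeal.LiesOver w.asIdeal := h1
  haveI i2 : 𝔔.asIdeal.LiesOver 𝔓.asIdeal := h𝔓
  have e1 := ramificationIdx_tower (R := 𝓞 F) w.asIdeal 𝔔.asIdeal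
  have e2 := ramificationIdx_tower (R := 𝓞 F) 𝔓.asIdeal 𝔔.asIdeal
  have e3 := inertiaDeg_tower (R := 𝓞 F) w.asIdeal 𝔔.asIdeal
  have e4 := inertiaDeg_tower (R := 𝓞 F) 𝔓.asIdeal 𝔔.asIdeal
  have e5 := ef_eq v hv' fun 𝔓' h => huniq 𝔓' 𝔓 h hv'
  have e6 := ef_dvd hM w
  have hL0 : 0 < finrank F L := hL.pos
  have h3 : finrank F L ∣ (w.asIdeal.ramificationIdx (𝓞 F) * w.asIdeal.inertiaDeg (𝓞 F)) *
      (𝔔.asIdeal.ramificationIdx (𝓞 M) * 𝔔.asIdeal.inertiaDeg (𝓞 M)) := by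
    refine ⟨𝔔.asIdeal.ramificationIdx (𝓞 L) * 𝔔.asIdeal.inertiaDeg (𝓞 L), ?_⟩
    calc _ = (w.asIdeal.ramificationIdx (𝓞 F) * 𝔔.asIdeal.ramificationIdx (𝓞 M)) *
        (w.asIdeal.inertiaDeg (𝓞 F) * 𝔔.asIdeal.inertiaDeg (𝓞 M)) := by ring
      _ = (𝔓.asIdeal.ramificationIdx (𝓞 F) * 𝔔.asIdeal.ramificationIdx (𝓞 L)) *
        (𝔓.asIdeal.inertiaDeg (𝓞 F) * 𝔔.asIdeal.inertiaDeg (𝓞 L)) := by
          rw [← e1, ← e3, ← e2, ← e4]
      _ = _ := by rw [← e5]; ring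
  have h4 : finrank F L ∣ 𝔔.asIdeal.ramificationIdx (𝓞 M) * 𝔔.asIdeal.inertiaDeg (𝓞 M) := by
    refine Nat.Coprime.dvd_of_dvd_mul_left ?_ h3
    exact Nat.Coprime.coprime_dvd_right e6 (Nat.Coprime.pow_right n (Nat.coprime_two_right.2 hL))
  have h5 := Nat.le_of_dvd (Nat.mul_pos (e_pos (F := M) 𝔔) (f_pos (F := M) 𝔔)) h4
  have h6 := Nat.mul_pos (e_pos (F := M) 𝔔') (f_pos (F := M) 𝔔')
  haveI := w.isPrime
  have h7 := sum_ramification_inertia_eq_finrank w.asIdeal (𝓞 Ω)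
  rw [← IsFractionRing.finrank_eq (𝓞 M) M (𝓞 Ω) Ω, hΩ] at h7
  let q : primesOver w.asIdeal (𝓞 Ω) := ⟨𝔔.asIdeal, 𝔔.isPrime, h1⟩
  let q' : primesOver w.asIdeal (𝓞 Ω) := ⟨𝔔'.asIdeal, 𝔔'.isPrime, h2⟩
  have hqq : q ≠ q' := by
    intro h
    apply hne
    exact HeightOneSpectrum.ext (congrArg Subtype.val h)
  have h8 := Finset.sum_le_sum_of_subset (f := fun q : primesOver w.asIdeal (𝓞 Ω) =>
    q.1.ramificationIdx (𝓞 M) * q.1.inertiaDeg (𝓞 M)) (Finset.subset_univ {q, q'})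
  rw [Finset.sum_pair hqq, h7] at h8
  change 𝔔.asIdeal.ramificationIdx (𝓞 M) * 𝔔.asIdeal.inertiaDeg (𝓞 M) +
    𝔔'.asIdeal.ramificationIdx (𝓞 M) * 𝔔'.asIdeal.inertiaDeg (𝓞 M) ≤ _ at h8
  omega

/-- If `v` is unramified in `M`, then the primes of `L` over `v` are unramified in `Ω`. -/
theorem unram_up {n : ℕ} (hM : finrank F M = 2 ^ n) (hL : Odd (finrank F L))
    (hΩ : finrank M Ω = finrank F L) {v : HeightOneSpectrum (𝓞 F)}
    (hun : ∀ w : HeightOneSpectrum (𝓞 M), Over v w → w.asIdeal.ramificationIdx (𝓞 F) = 1)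
    {𝔓 : HeightOneSpectrum (𝓞 L)} (h𝔓 : Over v 𝔓) {𝔔 : HeightOneSpectrum (𝓞 Ω)}
    (h𝔔 : Over 𝔓 𝔔) : 𝔔.asIdeal.ramificationIdx (𝓞 L) = 1 := by
  obtain ⟨w, hw⟩ := exists_under (F := M) 𝔔
  obtain ⟨v', hv'⟩ := exists_under (F := F) w
  obtain rfl : v = v' := (h𝔓.trans h𝔔).eq (hv'.trans hw)
  have hle := Pool.Agent.N301.JM.sup_top (K := F) (L := L) (M := M) (Ω := Ω) hM hL hΩ
  haveI hN : Normal L Ω := Pool.Agent.N692.PMTOW.normal_of_top hle
  haveI hG : IsGalois L Ω := ⟨⟩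
  haveI : 𝔔.asIdeal.LiesOver 𝔓.asIdeal := h𝔔
  haveI : w.asIdeal.LiesOver v.asIdeal := hv'
  haveI := 𝔓.isMaximal
  haveI := 𝔔.isPrime
  haveI := v.isMaximal
  haveI := w.isPrime
  haveI : Finite 𝔓.asIdeal.ResidueField := finite_res 𝔓
  haveI : Finite v.asIdeal.ResidueField := finite_res v
  rw [← ramificationIdxIn_eq_ramificationIdx 𝔓.asIdeal 𝔔.asIdeal Gal(Ω/L),
    ← card_inertia_eq_ramificationIdxIn (G := Gal(Ω/L)) 𝔓.asIdeal 𝔔.asIdeal]
  have h1 := hun w hv'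
  rw [← ramificationIdxIn_eq_ramificationIdx v.asIdeal w.asIdeal Gal(M/F),
    ← card_inertia_eq_ramificationIdxIn (G := Gal(M/F)) v.asIdeal w.asIdeal,
    Subgroup.card_eq_one] at h1
  rw [Subgroup.card_eq_one, eq_bot_iff]
  intro σ hσ
  rw [Subgroup.mem_bot]
  rw [AddSubgroup.mem_inertia] at hσ
  let τ : M ≃ₐ[F] M := (σ.restrictScalars F).restrictNormal M
  have hτ : ∀ y : M, algebraMap M Ω (τ y) = σ (algebraMap M Ω y) :=
    AlgEquiv.restrictNormal_commutes (σ.restrictScalars F) M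
  have hτ1 : τ ∈ inertia Gal(M/F) w.asIdeal := by
    rw [AddSubgroup.mem_inertia]
    intro y
    have h2 := hσ (algebraMap (𝓞 M) (𝓞 Ω) y)
    have h3 : σ • algebraMap (𝓞 M) (𝓞 Ω) y = algebraMap (𝓞 M) (𝓞 Ω) (τ • y) := by
      apply RingOfIntegers.ext
      exact (hτ (y : M)).symm
    rw [h3, ← map_sub] at h2
    change τ • y - y ∈ w.asIdeal
    rw [hw.over]
    exact h2
  rw [h1, Subgroup.mem_bot] at hτ1
  have hfix : ∀ y : M, σ (algebraMap M Ω y) = algebraMap M Ω y := by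
    intro y
    rw [← hτ, hτ1]
    rfl
  ext x
  have hx := Pool.Agent.N692.PMTOW.adj_top (K := F) (L := L) (M := M) hle x
  change σ x = x
  refine IntermediateField.adjoin_induction L (p := fun y _ => σ y = y) ?_ ?_ ?_ ?_ ?_ hx
  · rintro _ ⟨y, rfl⟩
    exact hfix y
  · intro y
    exact σ.commutes y
  · intro x y _ _ e1 e2
    rw [map_add, e1, e2]
  · intro x _ e1
    rw [map_inv₀, e1]
  · intro x y _ _ e1 e2
    rw [map_mul, e1, e2]

end gal

end Pool.Agent.H429.T3
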