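import Pool.Agent.H429.T3.C2

/-!
# Valuations of `x - θ` for points, and norms
-/

set_option autoImplicit false
set_option linter.all false

open IsDedekindDomain NumberField Module Polynomial
open scoped Classical

namespace Pool.Agent.H429.T3

section val

variable {Ω : Type} [Field Ω] [NumberField Ω] (𝔔 : HeightOneSpectrum (𝓞 Ω))

/-- A root of a monic cubic polynomial with integral coefficients is integral. -/
theorem val_root {θ a b c : Ω} (ha : 𝔔.valuation Ω a ≤ 1) (hb : 𝔔.valuation Ω b ≤ 1)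
    (hc : 𝔔.valuation Ω c ≤ 1) (hθ : θ ^ 3 + a * θ ^ 2 + b * θ + c = 0) :
    𝔔.valuation Ω θ ≤ 1 := by
  by_contra h
  push Not at h
  set ν := 𝔔.valuation Ω with hν
  have h0 : ν θ ≠ 0 := (zero_lt_one.trans h).ne'
  have h2 : ν θ < ν θ ^ 2 := by
    rw [pow_two]
    exact lt_mul_of_one_lt_left (zero_lt_one.trans h) h
  have h3 : ν θ ^ 2 < ν θ ^ 3 := by
    rw [pow_succ (ν θ) 2]
    exact lt_mul_of_one_lt_right (pow_pos (zero_lt_one.trans h) 2) h
  have e : θ ^ 3 = -(a * θ ^ 2 + b * θ + c) := by linear_combination hθ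
  have h4 : ν (θ ^ 3) ≤ ν θ ^ 2 := by
    rw [e, Valuation.map_neg]
    refine (Valuation.map_add _ _ _).trans (max_le ((Valuation.map_add _ _ _).trans
      (max_le ?_ ?_)) ?_)
    · rw [map_mul, map_pow]
      exact mul_le_of_le_one_left zero_le' ha
    · rw [map_mul]
      exact (mul_le_of_le_one_left zero_le' hb).trans h2.le
    · exact hc.trans (h.le.trans h2.le)
  rw [map_pow] at h4
  exact absurd h4 (not_le.2 h3)

/-- The valuation of `x - θ` is even at the primes of good reduction. -/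
theorem ev_good {θ a b c x y : Ω} (ha : 𝔔.valuation Ω a ≤ 1) (hb : 𝔔.valuation Ω b ≤ 1)
    (hc : 𝔔.valuation Ω c ≤ 1) (hθ : θ ^ 3 + a * θ ^ 2 + b * θ + c = 0)
    (hd : 𝔔.valuation Ω (a ^ 2 * b ^ 2 - 4 * b ^ 3 - 4 * a ^ 3 * c - 27 * c ^ 2 + 18 * a * b * c)
      = 1)
    (hxy : y ^ 2 = x ^ 3 + a * x ^ 2 + b * x + c) (hne : x - θ ≠ 0) : Ev 𝔔 (x - θ) := by
  have hθ1 := val_root 𝔔 ha hb hc hθ
  set ν := 𝔔.valuation Ω with hν
  have hint : ∀ n : ℕ, ν (n : Ω) ≤ 1 := fun n => by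
    rw [← map_natCast (algebraMap (𝓞 Ω) Ω) n]
    exact 𝔔.valuation_le_one (K := Ω) (n : 𝓞 Ω)
  have h4 : ν (4 : Ω) ≤ 1 := by exact_mod_cast hint 4
  obtain ⟨p, hp⟩ : ∃ p, p = a + θ := ⟨_, rfl⟩
  obtain ⟨q, hq⟩ : ∃ q, q = b + a * θ + θ ^ 2 := ⟨_, rfl⟩
  have hp1 : ν p ≤ 1 := by
    rw [hp]
    exact (Valuation.map_add _ _ _).trans (max_le ha hθ1)
  have hq1 : ν q ≤ 1 := by
    rw [hq]
    refine (Valuation.map_add _ _ _).trans (max_le ((Valuation.map_add _ _ _).trans
      (max_le hb ?_)) ?_)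
    · rw [map_mul]
      exact mul_le_one' ha hθ1
    · rw [map_pow]
      exact pow_le_one' hθ1 2
  obtain ⟨f', hf'⟩ : ∃ f', f' = θ ^ 2 + p * θ + q := ⟨_, rfl⟩
  have hf1 : ν f' ≤ 1 := by
    rw [hf']
    refine (Valuation.map_add _ _ _).trans (max_le ((Valuation.map_add _ _ _).trans
      (max_le ?_ ?_)) hq1)
    · rw [map_pow]
      exact pow_le_one' hθ1 2
    · rw [map_mul]
      exact mul_le_one' hp1 hθ1
  have hdisc : a ^ 2 * b ^ 2 - 4 * b ^ 3 - 4 * a ^ 3 * c - 27 * c ^ 2 + 18 * a * b * c =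
      (p ^ 2 - 4 * q) * f' ^ 2 := by
    have hc' : c = -(θ ^ 3 + a * θ ^ 2 + b * θ) := by linear_combination hθ
    rw [hf', hp, hq, hc']
    ring
  have hf'1 : ν f' = 1 := by
    rw [hdisc, map_mul, map_pow] at hd
    have h5 : ν (p ^ 2 - 4 * q) ≤ 1 := by
      refine (Valuation.map_sub _ _ _).trans (max_le ?_ ?_)
      · rw [map_pow]
        exact pow_le_one' hp1 2
      · rw [map_mul]
        exact mul_le_one' h4 hq1
    refine le_antisymm hf1 ?_
    by_contra hlt
    push Not at hlt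
    have h6 : ν f' ^ 2 < 1 := pow_lt_one' hlt two_ne_zero
    have h7 : ν (p ^ 2 - 4 * q) * ν f' ^ 2 < 1 := mul_lt_one_of_nonneg_of_lt_one_right h5 zero_le' h6
    exact absurd hd h7.ne
  by_cases hx : 1 < ν x
  · -- a pole
    have h0 : ν x ≠ 0 := (zero_lt_one.trans hx).ne'
    have hx0 : x ≠ 0 := (Valuation.ne_zero_iff _).1 h0
    have e1 : ν (x - θ) = ν x := Valuation.map_sub_eq_of_lt_left _ (hθ1.trans_lt hx)
    have h2 : ν x < ν x ^ 2 := by
      rw [pow_two]
      exact lt_mul_of_one_lt_left (zero_lt_one.trans hx) hx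
    have h3 : ν x ^ 2 < ν x ^ 3 := by
      rw [pow_succ (ν x) 2]
      exact lt_mul_of_one_lt_right (pow_pos (zero_lt_one.trans hx) 2) hx
    have e2 : ν (y ^ 2) = ν x ^ 3 := by
      have h4 : ν (a * x ^ 2 + b * x + c) ≤ ν x ^ 2 := by
        refine (Valuation.map_add _ _ _).trans (max_le ((Valuation.map_add _ _ _).trans
          (max_le ?_ ?_)) ?_)
        · rw [map_mul, map_pow]
          exact mul_le_of_le_one_left zero_le' ha
        · rw [map_mul]
          exact (mul_le_of_le_one_left zero_le' hb).trans h2.le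
        · exact hc.trans (hx.le.trans h2.le)
      have e3 : y ^ 2 = x ^ 3 + (a * x ^ 2 + b * x + c) := by rw [hxy]; ring
      rw [e3, Valuation.map_add_eq_of_lt_left, map_pow]
      rw [map_pow]
      exact h4.trans_lt h3
    have hy0 : y ≠ 0 := by
      rintro rfl
      rw [zero_pow two_ne_zero, map_zero] at e2
      exact pow_ne_zero 3 h0 e2.symm
    obtain ⟨n, hn⟩ := ev_sq (𝔓 := 𝔔) (div_ne_zero hy0 hx0)
    refine ⟨n, ?_⟩
    rw [← hn, e1, div_pow, map_div₀, e2, map_pow, pow_succ (ν x) 2, mul_div_cancel_left₀]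
    exact pow_ne_zero 2 h0
  · push Not at hx
    by_cases h1 : ν (x - θ) = 1
    · exact ev_of_one h1
    · have hlt : ν (x - θ) < 1 :=
        lt_of_le_of_ne ((Valuation.map_sub _ _ _).trans (max_le hx hθ1)) h1
      have hg : y ^ 2 = (x - θ) * (f' + (x - θ) * (x + θ + p)) := by
        have hc' : c = -(θ ^ 3 + a * θ ^ 2 + b * θ) := by linear_combination hθ
        rw [hxy, hf', hp, hq, hc']
        ring
      have hg1 : ν (f' + (x - θ) * (x + θ + p)) = 1 := by
        rw [Valuation.map_add_eq_of_lt_left, hf'1]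
        rw [hf'1, map_mul]
        have h5 : ν (x + θ + p) ≤ 1 := (Valuation.map_add _ _ _).trans (max_le
          ((Valuation.map_add _ _ _).trans (max_le hx hθ1)) hp1)
        exact mul_lt_one_of_nonneg_of_lt_one_left zero_le' hlt h5
      have hy0 : y ≠ 0 := by
        rintro rfl
        rw [zero_pow two_ne_zero] at hg
        rcases mul_eq_zero.1 hg.symm with h | h
        · exact hne h
        · rw [h, map_zero] at hg1
          exact zero_ne_one hg1
      obtain ⟨n, hn⟩ := ev_sq (𝔓 := 𝔔) hy0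
      refine ⟨n, ?_⟩
      rw [← hn, hg, map_mul, hg1, mul_one]

end val

end Pool.Agent.H429.T3
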