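import Pool.Agent.H429.T3.C3
import Pool.Agent.H429.T3.C4

/-!
# Valuations of `x - θ` for points at primes of multiplicative reduction of type `I_1`
-/

set_option autoImplicit false
set_option linter.all false

open IsDedekindDomain NumberField Module Polynomial
open scoped Classical

namespace Pool.Agent.H429.T3

theorem exp_lt_one_iff {v : WithZero (Multiplicative ℤ)} : v < 1 ↔ v ≤ WithZero.exp (-1 : ℤ) := by
  by_cases h : v = 0
  · subst h
    simp
  · obtain ⟨n, rfl⟩ : ∃ n : ℤ, v = WithZero.exp n := ⟨_, (WithZero.exp_log h).symm⟩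
    rw [WithZero.exp_le_exp, ← WithZero.exp_zero, WithZero.exp_lt_exp]
    omega

/-- The valuation of `x - θ` is even at the primes which divide the discriminant at most once. -/
theorem ev_semi {M Ω : Type} [Field M] [NumberField M] [Field Ω] [NumberField Ω] [Algebra M Ω]
    {w : HeightOneSpectrum (𝓞 M)} {𝔔 : HeightOneSpectrum (𝓞 Ω)} (hw : Over w 𝔔)
    {a b c x y : M} {θ : Ω} (ha : w.valuation M a ≤ 1) (hb : w.valuation M b ≤ 1)
    (hc : w.valuation M c ≤ 1) (hθ : θ ^ 3 + algebraMap M Ω a * θ ^ 2 + algebraMap M Ω b * θ +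
      algebraMap M Ω c = 0)
    (hd : WithZero.exp (-1 : ℤ) ≤ w.valuation M (a ^ 2 * b ^ 2 - 4 * b ^ 3 - 4 * a ^ 3 * c -
      27 * c ^ 2 + 18 * a * b * c))
    (hxy : y ^ 2 = x ^ 3 + a * x ^ 2 + b * x + c) (hne : algebraMap M Ω x - θ ≠ 0) :
    Ev 𝔔 (algebraMap M Ω x - θ) := by
  have hle : ∀ z : M, w.valuation M z ≤ 1 → 𝔔.valuation Ω (algebraMap M Ω z) ≤ 1 := by
    intro z hz
    rw [val_over hw]
    exact pow_le_one' hz _
  have hep := e_pos (F := M) 𝔔
  have hlt' : ∀ z : M, 𝔔.valuation Ω (algebraMap M Ω z) < 1 → w.valuation M z < 1 := by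
    intro z hz
    by_contra h
    push Not at h
    rw [val_over hw] at hz
    exact absurd hz (not_lt.2 (one_le_pow_of_one_le' h _))
  obtain ⟨ν, hν⟩ : ∃ ν, ν = 𝔔.valuation Ω := ⟨_, rfl⟩
  obtain ⟨A, hA⟩ : ∃ A, A = algebraMap M Ω a := ⟨_, rfl⟩
  obtain ⟨B, hB⟩ : ∃ B, B = algebraMap M Ω b := ⟨_, rfl⟩
  obtain ⟨C, hC⟩ : ∃ C, C = algebraMap M Ω c := ⟨_, rfl⟩
  obtain ⟨X, hX⟩ : ∃ X, X = algebraMap M Ω x := ⟨_, rfl⟩
  obtain ⟨Y, hY⟩ : ∃ Y, Y = algebraMap M Ω y := ⟨_, rfl⟩
  have hA1 : ν A ≤ 1 := by rw [hA, hν]; exact hle _ ha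
  have hB1 : ν B ≤ 1 := by rw [hB, hν]; exact hle _ hb
  have hC1 : ν C ≤ 1 := by rw [hC, hν]; exact hle _ hc
  have hXY : Y ^ 2 = X ^ 3 + A * X ^ 2 + B * X + C := by
    rw [hY, hX, hA, hB, hC, ← map_pow, hxy]
    simp only [map_add, map_mul, map_pow]
  rw [← hA, ← hB, ← hC] at hθ
  rw [← hX] at hne ⊢
  have hθ1 : ν θ ≤ 1 := by
    rw [hν] at hA1 hB1 hC1 ⊢
    exact val_root 𝔔 hA1 hB1 hC1 hθ
  by_cases hx : 1 < ν X
  · -- a pole
    have h0 : ν X ≠ 0 := (zero_lt_one.trans hx).ne'
    have hx0 : X ≠ 0 := (Valuation.ne_zero_iff _).1 h0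
    have e1 : ν (X - θ) = ν X := Valuation.map_sub_eq_of_lt_left _ (hθ1.trans_lt hx)
    have h2 : ν X < ν X ^ 2 := by
      rw [pow_two]
      exact lt_mul_of_one_lt_left (zero_lt_one.trans hx) hx
    have h3 : ν X ^ 2 < ν X ^ 3 := by
      rw [pow_succ (ν X) 2]
      exact lt_mul_of_one_lt_right (pow_pos (zero_lt_one.trans hx) 2) hx
    have e2 : ν (Y ^ 2) = ν X ^ 3 := by
      have h4 : ν (A * X ^ 2 + B * X + C) ≤ ν X ^ 2 := by
        refine (Valuation.map_add _ _ _).trans (max_le ((Valuation.map_add _ _ _).trans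
          (max_le ?_ ?_)) ?_)
        · rw [map_mul, map_pow]
          exact mul_le_of_le_one_left zero_le' hA1
        · rw [map_mul]
          exact (mul_le_of_le_one_left zero_le' hB1).trans h2.le
        · exact hC1.trans (hx.le.trans h2.le)
      have e3 : Y ^ 2 = X ^ 3 + (A * X ^ 2 + B * X + C) := by rw [hXY]; ring
      rw [e3, Valuation.map_add_eq_of_lt_left, map_pow]
      rw [map_pow]
      exact h4.trans_lt h3
    have hy0 : Y ≠ 0 := by
      rintro rfl
      rw [zero_pow two_ne_zero, map_zero] at e2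
      exact pow_ne_zero 3 h0 e2.symm
    obtain ⟨n, hn⟩ := ev_sq (𝔓 := 𝔔) (div_ne_zero hy0 hx0)
    refine ⟨n, ?_⟩
    rw [← hn, ← hν, e1, div_pow, map_div₀, e2, map_pow, pow_succ (ν X) 2, mul_div_cancel_left₀]
    exact pow_ne_zero 2 h0
  · push Not at hx
    have hxw : w.valuation M x ≤ 1 := by
      by_contra h
      push Not at h
      rw [hν, hX, val_over hw] at hx
      exact absurd hx (not_le.2 (one_lt_pow' h hep.ne'))
    by_cases h1 : ν (X - θ) = 1
    · exact ev_of_one (by rw [← hν]; exact h1)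
    · have hlt : ν (X - θ) < 1 :=
        lt_of_le_of_ne ((Valuation.map_sub _ _ _).trans (max_le hx hθ1)) h1
      obtain ⟨p, hp⟩ : ∃ p, p = A + θ := ⟨_, rfl⟩
      obtain ⟨q, hq⟩ : ∃ q, q = B + A * θ + θ ^ 2 := ⟨_, rfl⟩
      have hp1 : ν p ≤ 1 := by
        rw [hp]
        exact (Valuation.map_add _ _ _).trans (max_le hA1 hθ1)
      have hq1 : ν q ≤ 1 := by
        rw [hq]
        refine (Valuation.map_add _ _ _).trans (max_le ((Valuation.map_add _ _ _).trans
          (max_le hB1 ?_)) ?_)
        · rw [map_mul]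
          exact mul_le_one' hA1 hθ1
        · rw [map_pow]
          exact pow_le_one' hθ1 2
      obtain ⟨f', hf'⟩ : ∃ f', f' = θ ^ 2 + p * θ + q := ⟨_, rfl⟩
      have hg : Y ^ 2 = (X - θ) * (f' + (X - θ) * (X + θ + p)) := by
        have hc' : C = -(θ ^ 3 + A * θ ^ 2 + B * θ) := by linear_combination hθ
        rw [hXY, hf', hp, hq, hc']
        ring
      have hy2 : ν (Y ^ 2) < 1 := by
        rw [hg, map_mul]
        refine mul_lt_one_of_nonneg_of_lt_one_left zero_le' hlt ?_
        refine (Valuation.map_add _ _ _).trans (max_le ?_ ?_)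
        · rw [hf']
          refine (Valuation.map_add _ _ _).trans (max_le ((Valuation.map_add _ _ _).trans
            (max_le ?_ ?_)) hq1)
          · rw [map_pow]
            exact pow_le_one' hθ1 2
          · rw [map_mul]
            exact mul_le_one' hp1 hθ1
        · rw [map_mul]
          exact mul_le_one' hlt.le ((Valuation.map_add _ _ _).trans (max_le
            ((Valuation.map_add _ _ _).trans (max_le hx hθ1)) hp1))
      have hyν : ν Y < 1 := by
        rw [map_pow] at hy2
        by_contra h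
        push Not at h
        exact absurd hy2 (not_lt.2 (one_le_pow_of_one_le' h _))
      have hyw : w.valuation M y ≤ WithZero.exp (-1 : ℤ) :=
        exp_lt_one_iff.1 (hlt' y (by rw [← hν, ← hY]; exact hyν))
      -- the derivative at `x` is a unit
      have hint : ∀ n : ℕ, w.valuation M (n : M) ≤ 1 := fun n => by
        rw [← map_natCast (algebraMap (𝓞 M) M) n]
        exact w.valuation_le_one (K := M) (n : 𝓞 M)
      have i2 : w.valuation M (2 : M) ≤ 1 := by exact_mod_cast hint 2
      have i3 : w.valuation M (3 : M) ≤ 1 := by exact_mod_cast hint 3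
      have i4 : w.valuation M (4 : M) ≤ 1 := by exact_mod_cast hint 4
      have i27 : w.valuation M (27 : M) ≤ 1 := by exact_mod_cast hint 27
      have i18 : w.valuation M (18 : M) ≤ 1 := by exact_mod_cast hint 18
      obtain ⟨μ, hμ⟩ : ∃ μ, μ = w.valuation M := ⟨_, rfl⟩
      rw [← hμ] at i2 i3 i4 i27 i18 hyw hxw ha hb hc hd
      obtain ⟨u, hu⟩ : ∃ u, u = 3 * x + a := ⟨_, rfl⟩
      obtain ⟨d, hdd⟩ : ∃ d, d = 3 * x ^ 2 + 2 * a * x + b := ⟨_, rfl⟩
      have hu1 : μ u ≤ 1 := by
        rw [hu]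
        refine (Valuation.map_add _ _ _).trans (max_le ?_ ha)
        rw [map_mul]
        exact mul_le_one' i3 hxw
      have hd1 : μ d ≤ 1 := by
        rw [hdd]
        refine (Valuation.map_add _ _ _).trans (max_le ((Valuation.map_add _ _ _).trans
          (max_le ?_ ?_)) hb)
        · rw [map_mul, map_pow]
          exact mul_le_one' i3 (pow_le_one' hxw 2)
        · rw [map_mul, map_mul]
          exact mul_le_one' (mul_le_one' i2 ha) hxw
      have hdisc : a ^ 2 * b ^ 2 - 4 * b ^ 3 - 4 * a ^ 3 * c - 27 * c ^ 2 + 18 * a * b * c =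
          (u ^ 2 - 4 * d) * d ^ 2 + (-(4 * u ^ 3) - 27 * y ^ 2 + 18 * u * d) * y ^ 2 := by
        rw [hxy, hu, hdd]
        ring
      have hdu : μ d = 1 := by
        by_contra hne1
        have h5 : μ d ≤ WithZero.exp (-1 : ℤ) := exp_lt_one_iff.1 (lt_of_le_of_ne hd1 hne1)
        have h6 : ∀ z : M, μ z ≤ WithZero.exp (-1 : ℤ) → μ (z ^ 2) ≤ WithZero.exp (-2 : ℤ) := by
          intro z hz
          rw [map_pow]
          refine (pow_le_pow_left' hz 2).trans ?_
          rw [← WithZero.exp_nsmul]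
          simp
        have h7 := h6 d h5
        have h8 := h6 y hyw
        have h9 : μ (a ^ 2 * b ^ 2 - 4 * b ^ 3 - 4 * a ^ 3 * c - 27 * c ^ 2 + 18 * a * b * c) ≤
            WithZero.exp (-2 : ℤ) := by
          rw [hdisc]
          refine (Valuation.map_add _ _ _).trans (max_le ?_ ?_)
          · rw [map_mul]
            refine le_trans (mul_le_of_le_one_left zero_le' ?_) h7
            refine (Valuation.map_sub _ _ _).trans (max_le ?_ ?_)
            · rw [map_pow]
              exact pow_le_one' hu1 2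
            · rw [map_mul]
              exact mul_le_one' i4 hd1
          · rw [map_mul]
            refine le_trans (mul_le_of_le_one_left zero_le' ?_) h8
            refine (Valuation.map_add _ _ _).trans (max_le ((Valuation.map_sub _ _ _).trans
              (max_le ?_ ?_)) ?_)
            · rw [Valuation.map_neg, map_mul, map_pow]
              exact mul_le_one' i4 (pow_le_one' hu1 3)
            · rw [map_mul]
              refine mul_le_one' i27 (h8.trans ?_)
              rw [← WithZero.exp_zero, WithZero.exp_le_exp]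
              norm_num
            · rw [map_mul, map_mul]
              exact mul_le_one' (mul_le_one' i18 hu1) hd1
        have h10 := hd.trans h9
        rw [WithZero.exp_le_exp] at h10
        norm_num at h10
      have hdν : ν (3 * X ^ 2 + 2 * A * X + B) = 1 := by
        have h5 : 3 * X ^ 2 + 2 * A * X + B = algebraMap M Ω d := by
          rw [hdd, hX, hA, hB]
          simp only [map_add, map_mul, map_pow, map_ofNat]
        rw [h5, hν, val_over hw, ← hμ, hdu, one_pow]
      have hintΩ : ∀ n : ℕ, ν (n : Ω) ≤ 1 := fun n => by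
        rw [hν, ← map_natCast (algebraMap (𝓞 Ω) Ω) n]
        exact 𝔔.valuation_le_one (K := Ω) (n : 𝓞 Ω)
      have j2 : ν (2 : Ω) ≤ 1 := by exact_mod_cast hintΩ 2
      have j3 : ν (3 : Ω) ≤ 1 := by exact_mod_cast hintΩ 3
      have hf1 : ν f' = 1 := by
        have h5 : f' = (3 * X ^ 2 + 2 * A * X + B) - (X - θ) * (3 * (X + θ) + 2 * A) := by
          rw [hf', hp, hq]
          ring
        rw [h5, Valuation.map_sub_eq_of_lt_left, hdν]
        rw [hdν, map_mul]
        refine mul_lt_one_of_nonneg_of_lt_one_left zero_le' hlt ?_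
        refine (Valuation.map_add _ _ _).trans (max_le ?_ ?_)
        · rw [map_mul]
          exact mul_le_one' j3 ((Valuation.map_add _ _ _).trans (max_le hx hθ1))
        · rw [map_mul]
          exact mul_le_one' j2 hA1
      have hg1 : ν (f' + (X - θ) * (X + θ + p)) = 1 := by
        rw [Valuation.map_add_eq_of_lt_left, hf1]
        rw [hf1, map_mul]
        have h5 : ν (X + θ + p) ≤ 1 := (Valuation.map_add _ _ _).trans (max_le
          ((Valuation.map_add _ _ _).trans (max_le hx hθ1)) hp1)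
        exact mul_lt_one_of_nonneg_of_lt_one_left zero_le' hlt h5
      have hy0 : Y ≠ 0 := by
        rintro rfl
        rw [zero_pow two_ne_zero] at hg
        rcases mul_eq_zero.1 hg.symm with h | h
        · exact hne h
        · rw [h, map_zero] at hg1
          exact zero_ne_one hg1
      obtain ⟨n, hn⟩ := ev_sq (𝔓 := 𝔔) hy0
      refine ⟨n, ?_⟩
      rw [← hn, hg, ← hν, map_mul, hg1, mul_one]

end Pool.Agent.H429.T3
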