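import Pool.Agent.H429.T3.A
import Pool.Agent.H429.T3.B2
import Pool.Agent.H429.T3.C3
import Pool.Agent.H429.T3.C4

/-!
# Divisibility by two over a Galois 2-extension
-/

set_option autoImplicit false
set_option linter.all false

open IsDedekindDomain NumberField Module Polynomial
open scoped Classical IntermediateField

namespace Pool.Agent.H429.T3

/-- The algebraic closure of `ℚ_2`. -/
abbrev Q2bar : Type := AlgebraicClosure ℚ_[2]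

/-- `x` has square norm, even valuations at the primes not above `2` and is a square in the
completions above `2`. -/
structure Strict (F : Type) {L : Type} [Field F] [Field L] [NumberField L] [Algebra F L] (x : L) :
    Prop where
  ne : x ≠ 0
  norm : IsSquare (Algebra.norm F x)
  even : ∀ 𝔓 : HeightOneSpectrum (𝓞 L), (2 : 𝓞 L) ∉ 𝔓.asIdeal → Ev 𝔓 x
  two : SqAt ℚ_[2] Q2bar x

/-- Exactly one prime of `L` lies over `v`. -/
def OnePrime {F : Type} [Field F] [NumberField F] (L : Type) [Field L] [NumberField L]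
    [Algebra F L] (v : HeightOneSpectrum (𝓞 F)) : Prop :=
  ∀ 𝔓 𝔓' : HeightOneSpectrum (𝓞 L), Over v 𝔓 → Over v 𝔓' → 𝔓 = 𝔓'

/-- The prime `v` is unramified in `M`. -/
def Unram {F : Type} [Field F] [NumberField F] (M : Type) [Field M] [NumberField M]
    [Algebra F M] (v : HeightOneSpectrum (𝓞 F)) : Prop :=
  ∀ w : HeightOneSpectrum (𝓞 M), Over v w → w.asIdeal.ramificationIdx (𝓞 F) = 1

theorem two_mem_iff {F L : Type} [Field F] [NumberField F] [Field L] [NumberField L]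
    [Algebra F L] {v : HeightOneSpectrum (𝓞 F)} {𝔓 : HeightOneSpectrum (𝓞 L)} (h : Over v 𝔓) :
    (2 : 𝓞 F) ∈ v.asIdeal ↔ (2 : 𝓞 L) ∈ 𝔓.asIdeal := by
  rw [h.over]
  have : (2 : 𝓞 L) = algebraMap (𝓞 F) (𝓞 L) 2 := by rw [map_ofNat]
  rw [this]
  exact Iff.rfl

theorem ev_up_all {K L : Type} [Field K] [NumberField K] [Field L] [NumberField L] [Algebra K L]
    {x : K} (h : ∀ v : HeightOneSpectrum (𝓞 K), (2 : 𝓞 K) ∉ v.asIdeal → Ev v x) :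
    ∀ 𝔓 : HeightOneSpectrum (𝓞 L), (2 : 𝓞 L) ∉ 𝔓.asIdeal → Ev 𝔓 (algebraMap K L x) := by
  intro 𝔓 h𝔓
  obtain ⟨v, hv⟩ := exists_under (F := K) 𝔓
  obtain ⟨n, hn⟩ := h v fun h' => h𝔓 ((two_mem_iff hv).1 h')
  refine ⟨𝔓.asIdeal.ramificationIdx (𝓞 K) * n, ?_⟩
  rw [val_over hv, hn, ← WithZero.exp_nsmul, nsmul_eq_mul]
  congr 1
  ring

section abs

variable {F L M Ω : Type} [Field F] [NumberField F] [Field L] [NumberField L] [Field M]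
  [NumberField M] [Field Ω] [NumberField Ω] [Algebra F L] [Algebra F M] [Algebra L Ω] [Algebra M Ω]
  [Algebra F Ω] [IsScalarTower F L Ω] [IsScalarTower F M Ω] [IsGalois F M]

/-- Galois action on valuations. -/
theorem ev_equiv (σ : Ω ≃+* Ω) {x : Ω}
    (h : ∀ 𝔔 : HeightOneSpectrum (𝓞 Ω), (2 : 𝓞 Ω) ∉ 𝔔.asIdeal → Ev 𝔔 x) :
    ∀ 𝔔 : HeightOneSpectrum (𝓞 Ω), (2 : 𝓞 Ω) ∉ 𝔔.asIdeal → Ev 𝔔 (σ x) := by
  exact @ev_up_all Ω Ω _ _ _ _ (σ : Ω →+* Ω).toAlgebra x h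

theorem isSquare_of_strict {n : ℕ} (hM : finrank F M = 2 ^ n) (hL : Odd (finrank F L))
    (hΩ : finrank M Ω = finrank F L) {f : F[X]} (hf : f.Monic)
    (hodd : Odd f.natDegree) {θ : L} (hθ : aeval θ f = 0)
    (hLθ : ∀ x : L, ∃ y : F[X], x = aeval θ y)
    (hΩθ : ∀ x : Ω, ∃ y : M[X], x = aeval (algebraMap L Ω θ) y)
    (hA : ∀ x : L, Strict F x → IsSquare x)
    (hB : ∀ τ : F →+* Q2bar, Irreducible (f.map (toLoc ℚ_[2] τ)))
    (hR : ∀ v : HeightOneSpectrum (𝓞 F), (2 : 𝓞 F) ∉ v.asIdeal → Unram M v ∨ OnePrime L v)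
    {z : Ω} (hz : Strict M z) : IsSquare z := by
  refine Pool.Agent.N301.JM.tow' n F L M Ω two_ne_zero hM hL hΩ
    (fun x => (∀ 𝔔 : HeightOneSpectrum (𝓞 Ω), (2 : 𝓞 Ω) ∉ 𝔔.asIdeal → Ev 𝔔 x) ∧
      SqAt ℚ_[2] Q2bar x) (fun x hx => ⟨fun 𝔔 _ => ev_sq hx, sqAt_sq _ _ x⟩)
    (fun x y hx hy h1 h2 => ⟨fun 𝔔 h𝔔 => (h1.1 𝔔 h𝔔).mul (h2.1 𝔔 h𝔔), h1.2.mul _ _ h2.2⟩)
    (fun σ x h => ⟨ev_equiv σ.toRingEquiv h.1, h.2.equiv _ _ σ.toRingEquiv⟩)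
    (fun x hx hC hN => hA x ⟨hx, hN, fun 𝔓 h𝔓 => ?_, ?_⟩) z hz.ne ⟨hz.even, hz.two⟩ hz.norm
  · obtain ⟨v, hv⟩ := exists_under (F := F) 𝔓
    have h2v : (2 : 𝓞 F) ∉ v.asIdeal := fun h => h𝔓 ((two_mem_iff hv).1 h)
    rcases hR v h2v with hun | hone
    · obtain ⟨𝔔, h𝔔⟩ := exists_over (L := Ω) 𝔓
      have he := unram_up hM hL hΩ hun hv h𝔔
      obtain ⟨m, hm⟩ := hC.1 𝔔 fun h => h𝔓 ((two_mem_iff h𝔔).2 h)
      rw [val_over h𝔔, he, pow_one] at hm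
      exact ⟨m, hm⟩
    · exact ev_of_unique hL v hv (fun 𝔓' h => hone 𝔓' 𝔓 h hv) hx hN
  · exact sqAt_down hM hL hf hodd hθ hLθ hΩθ hB hx hN hC.2

end abs

end Pool.Agent.H429.T3
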