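import Pool.Agent.H429.T3.D1
import Pool.Agent.H429.T3.C5

/-!
# Divisibility by two of points over a Galois 2-extension
-/

set_option autoImplicit false
set_option linter.all false

open IsDedekindDomain NumberField Module Polynomial WeierstrassCurve WeierstrassCurve.Affine
open scoped Classical IntermediateField

namespace Pool.Agent.H429.T3

/-- The polynomial `x ^ 3 + a₂ x ^ 2 + a₄ x + a₆`. -/
noncomputable def cub {F : Type} [Field F] (W : WeierstrassCurve F) : F[X] :=
  X ^ 3 + C W.a₂ * X ^ 2 + C W.a₄ * X + C W.a₆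

section cub

variable {F : Type} [Field F] (W : WeierstrassCurve F)

theorem cub_deg : (cub W).natDegree = 3 := by
  unfold cub
  compute_degree!

theorem cub_monic : (cub W).Monic := by
  unfold cub
  monicity!

theorem aeval_cub {E : Type} [Field E] [Algebra F E] (t : E) : aeval t (cub W) =
    t ^ 3 + algebraMap F E W.a₂ * t ^ 2 + algebraMap F E W.a₄ * t + algebraMap F E W.a₆ := by
  simp [cub]

theorem eval_cub (t : F) : (cub W).eval t = t ^ 3 + W.a₂ * t ^ 2 + W.a₄ * t + W.a₆ := by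
  simp [cub]

theorem cub_map {K : Type} [Field K] (φ : F →+* K) : cub (W.map φ) = (cub W).map φ := by
  simp [cub]

theorem disc_eq (h1 : W.a₁ = 0) (h3 : W.a₃ = 0) :
    W.Δ = 16 * (W.a₂ ^ 2 * W.a₄ ^ 2 - 4 * W.a₄ ^ 3 - 4 * W.a₂ ^ 3 * W.a₆ - 27 * W.a₆ ^ 2 +
      18 * W.a₂ * W.a₄ * W.a₆) := by
  rw [WeierstrassCurve.Δ, WeierstrassCurve.b₂, WeierstrassCurve.b₄, WeierstrassCurve.b₆,
    WeierstrassCurve.b₈, h1, h3]
  ring

end cub

/-- The equation is integral at `v` and its discriminant is not divisible by `v ^ 2`. -/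
structure Good {F : Type} [Field F] [NumberField F] (W : WeierstrassCurve F)
    (v : HeightOneSpectrum (𝓞 F)) : Prop where
  a2 : v.valuation F W.a₂ ≤ 1
  a4 : v.valuation F W.a₄ ≤ 1
  a6 : v.valuation F W.a₆ ≤ 1
  disc : WithZero.exp (-1 : ℤ) ≤ v.valuation F W.Δ

section gen

variable {K E : Type} [Field K] [Field E] [Algebra K E]

theorem norm_sub [FiniteDimensional K E] {θ : E} {f : K[X]} (hmin : minpoly K θ = f)
    (htop : Algebra.adjoin K {θ} = ⊤) (x : K) :
    Algebra.norm K (algebraMap K E x - θ) = f.eval x := by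
  let pb := PowerBasis.ofAdjoinEqTop (IsIntegral.of_finite K θ) htop
  have hgen : pb.gen = θ := PowerBasis.ofAdjoinEqTop_gen _ _
  rw [Algebra.norm_eq_matrix_det pb.basis, ← hmin]
  have h1 := charpoly_leftMulMatrix pb
  rw [hgen] at h1
  rw [← h1, Matrix.eval_charpoly, map_sub]
  congr 2
  rw [AlgHom.commutes]
  rfl

theorem adjoin_top [FiniteDimensional K E] {θ : E} {f : K[X]} (hmin : minpoly K θ = f)
    (hd : f.natDegree = finrank K E) : Algebra.adjoin K {θ} = ⊤ := by
  have h1 : K⟮θ⟯ = ⊤ := by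
    rw [Field.primitive_element_iff_minpoly_natDegree_eq, hmin, hd]
  have h2 := IntermediateField.adjoin_simple_toSubalgebra_of_isAlgebraic
    (IsIntegral.of_finite K θ).isAlgebraic
  rw [← h2, h1, IntermediateField.top_toSubalgebra]

theorem exists_poly {θ : E} (htop : Algebra.adjoin K {θ} = ⊤) (x : E) :
    ∃ y : K[X], x = aeval θ y := by
  have h2 : x ∈ Algebra.adjoin K {θ} := by
    rw [htop]
    exact Algebra.mem_top
  rw [Algebra.adjoin_singleton_eq_range_aeval] at h2
  obtain ⟨y, hy⟩ := h2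
  exact ⟨y, hy.symm⟩

theorem exists_quad {θ : E} {f : K[X]} (hf : f.Monic) (hd : f.natDegree = 3)
    (hroot : aeval θ f = 0) (htop : Algebra.adjoin K {θ} = ⊤) (x : E) :
    ∃ u v w : K, x = algebraMap K E u + algebraMap K E v * θ + algebraMap K E w * θ ^ 2 := by
  obtain ⟨y, rfl⟩ := exists_poly htop x
  have h1 : aeval θ y = aeval θ (y %ₘ f) := by
    conv_lhs => rw [← modByMonic_add_div y f]
    rw [map_add, map_mul, hroot, zero_mul, add_zero]
  have h2 : (y %ₘ f).natDegree < 3 := by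
    rw [← hd]
    refine natDegree_modByMonic_lt _ hf ?_
    rintro rfl
    rw [natDegree_one] at hd
    omega
  refine ⟨(y %ₘ f).coeff 0, (y %ₘ f).coeff 1, (y %ₘ f).coeff 2, ?_⟩
  rw [h1]
  conv_lhs => rw [as_sum_range_C_mul_X_pow' (y %ₘ f) h2]
  simp [Finset.sum_range_succ]

theorem lin_indep {θ : E} {f : K[X]} (hd : f.natDegree = 3) (hmin : minpoly K θ = f)
    {u v w : K} (h : algebraMap K E u + algebraMap K E v * θ + algebraMap K E w * θ ^ 2 = 0) :
    u = 0 ∧ v = 0 ∧ w = 0 := by
  have h1 : aeval θ (C u + C v * X + C w * X ^ 2 : K[X]) = 0 := by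
    simpa using h
  have h2 : (C u + C v * X + C w * X ^ 2 : K[X]) = 0 := by
    by_contra hne
    have h3 := natDegree_le_natDegree (minpoly.degree_le_of_ne_zero K θ hne h1)
    rw [hmin, hd] at h3
    have h4 : (C u + C v * X + C w * X ^ 2 : K[X]).natDegree ≤ 2 := by compute_degree
    omega
  refine ⟨?_, ?_, ?_⟩
  · have := congrArg (fun p => coeff p 0) h2
    simpa using this
  · have := congrArg (fun p => coeff p 1) h2
    simpa [coeff_X, coeff_C] using this
  · have := congrArg (fun p => coeff p 2) h2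
    simpa [coeff_X, coeff_C] using this

end gen

section abs

variable {F L M Ω : Type} [Field F] [NumberField F] [Field L] [NumberField L] [Field M]
  [NumberField M] [Field Ω] [NumberField Ω] [Algebra F L] [Algebra F M] [Algebra L Ω] [Algebra M Ω]
  [Algebra F Ω] [IsScalarTower F L Ω] [IsScalarTower F M Ω] [IsGalois F M]

theorem even_point {n : ℕ} (hM : finrank F M = 2 ^ n) (hL : Odd (finrank F L))
    (hΩ : finrank M Ω = finrank F L) (W : WeierstrassCurve F) (hW1 : W.a₁ = 0) (hW3 : W.a₃ = 0)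
    {t : Ω} (ht : aeval t (cub W) = 0)
    (hR : ∀ v : HeightOneSpectrum (𝓞 F), (2 : 𝓞 F) ∉ v.asIdeal →
      (Good W v ∧ Unram M v) ∨ OnePrime L v)
    {x y : M} (hxy : y ^ 2 = (cub (W.map (algebraMap F M))).eval x)
    (hne : algebraMap M Ω x - t ≠ 0) (hN : IsSquare (Algebra.norm M (algebraMap M Ω x - t)))
    (𝔔 : HeightOneSpectrum (𝓞 Ω)) (h𝔔 : (2 : 𝓞 Ω) ∉ 𝔔.asIdeal) : Ev 𝔔 (algebraMap M Ω x - t) := by
  obtain ⟨w, hw⟩ := exists_under (F := M) 𝔔
  obtain ⟨v, hv⟩ := exists_under (F := F) w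
  have hv𝔔 : Over v 𝔔 := hv.trans hw
  have h2v : (2 : 𝓞 F) ∉ v.asIdeal := fun h => h𝔔 ((two_mem_iff hv𝔔).1 h)
  rcases hR v h2v with ⟨hg, hun⟩ | hone
  · have hval : ∀ a : F, w.valuation M (algebraMap F M a) = v.valuation F a := by
      intro a
      rw [val_over hv, hun w hv, pow_one]
    have h2 : v.valuation F (2 : F) = 1 := by
      have h3 := HeightOneSpectrum.valuation_eq_one_iff_notMem (K := F) v (r := (2 : 𝓞 F))
      rw [← map_ofNat (algebraMap (𝓞 F) F) 2]
      exact h3.2 h2v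
    have hd := hg.disc
    rw [disc_eq W hW1 hW3, map_mul] at hd
    have h16 : v.valuation F 16 = 1 := by
      rw [show (16 : F) = 2 ^ 4 by norm_num, map_pow, h2, one_pow]
    rw [h16, one_mul] at hd
    refine ev_semi hw (a := algebraMap F M W.a₂) (b := algebraMap F M W.a₄)
      (c := algebraMap F M W.a₆) (y := y) ?_ ?_ ?_ ?_ ?_ ?_ hne
    · rw [hval]
      exact hg.a2
    · rw [hval]
      exact hg.a4
    · rw [hval]
      exact hg.a6
    · rw [← IsScalarTower.algebraMap_apply, ← IsScalarTower.algebraMap_apply,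
        ← IsScalarTower.algebraMap_apply, ← aeval_cub W, ht]
    · refine hd.trans_eq ?_
      rw [← hval]
      congr 1
      simp only [map_add, map_sub, map_mul, map_pow, map_ofNat]
    · rw [hxy, eval_cub]
      simp only [WeierstrassCurve.map]
  · exact ev_of_unique (by rw [hΩ]; exact hL) w hw
      (fun 𝔔' h => unique_up hM hL hΩ hone hv 𝔔' 𝔔 h hw) hne hN

end abs

end Pool.Agent.H429.T3
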