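import Pool.Agent.H429.T3.D2

/-!
# Points over a Galois 2-extension which are locally divisible by two
-/

set_option autoImplicit false
set_option linter.all false

open IsDedekindDomain NumberField Module Polynomial WeierstrassCurve WeierstrassCurve.Affine
open scoped Classical IntermediateField

namespace Pool.Agent.H429.T3

/-- The hypotheses on the curve, the cubic extension `L` and the extension `M`. -/
structure Hyp {F : Type} [Field F] [NumberField F] (W : WeierstrassCurve F) (L : Type) [Field L]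
    [NumberField L] [Algebra F L] (M : Type) [Field M] [NumberField M] [Algebra F M] : Prop where
  w1 : W.a₁ = 0
  w3 : W.a₃ = 0
  disc : W.Δ ≠ 0
  deg : finrank F L = 3
  root : ∃ θ : L, aeval θ (cub W) = 0
  lirr : ∀ τ : F →+* Q2bar, Irreducible ((cub W).map (toLoc ℚ_[2] τ))
  sel : ∀ x : L, Strict F x → IsSquare x
  ram : ∀ v : HeightOneSpectrum (𝓞 F), (2 : 𝓞 F) ∉ v.asIdeal →
    (Good W v ∧ Unram M v) ∨ OnePrime L v

section main

variable {F L M : Type} [Field F] [NumberField F] [Field L] [NumberField L] [Field M]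
  [NumberField M] [Algebra F L] [Algebra F M] [IsGalois F M] {W : WeierstrassCurve F}

theorem Hyp.irr (h : Hyp W L M) : Irreducible (cub W) := by
  let τ : F →+* Q2bar := (IsAlgClosed.lift (R := ℚ) : F →ₐ[ℚ] Q2bar)
  exact (cub_monic W).irreducible_of_irreducible_map _ _ (h.lirr τ)

theorem Hyp.two_div (h : Hyp W L M) {n : ℕ} (hM : finrank F M = 2 ^ n)
    (P : (W.map (algebraMap F M)).toAffine.Point)
    (hP : ∀ τ : M →+* Q2bar, ∃ Q, mp (W.map (algebraMap F M)) (toLoc ℚ_[2] τ) P = Q + Q) :
    ∃ Q, P = Q + Q := by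
  obtain ⟨θ, hθ⟩ := h.root
  obtain ⟨f, hf⟩ : ∃ f, f = cub W := ⟨_, rfl⟩
  have hfm : f.Monic := hf ▸ cub_monic W
  have hfd : f.natDegree = 3 := hf ▸ cub_deg W
  have hodd : Odd f.natDegree := by
    rw [hfd]
    decide
  have hL : Odd (finrank F L) := by
    rw [h.deg]
    decide
  rw [← hf] at hθ
  have hirr : Irreducible f := hf ▸ h.irr
  have hirrM : Irreducible (f.map (algebraMap F M)) := irr_up hM hirr hfm hodd
  -- the field `L`
  have hminL : minpoly F θ = f := (minpoly.eq_of_irreducible_of_monic hirr hθ hfm).symm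
  have htopL : Algebra.adjoin F {θ} = ⊤ := adjoin_top hminL (by rw [hfd, h.deg])
  -- the field `Ω`
  obtain ⟨Ω, instF, instA, t, ht, hrk, htop, hfin, hminΩ⟩ := exists_field hirrM (hfm.map _)
  haveI : CharZero Ω := charZero_of_injective_algebraMap (algebraMap M Ω).injective
  haveI : FiniteDimensional ℚ Ω := FiniteDimensional.trans ℚ M Ω
  haveI : NumberField Ω := NumberField.mk
  letI : Algebra F Ω := ((algebraMap M Ω).comp (algebraMap F M)).toAlgebra
  haveI : IsScalarTower F M Ω := IsScalarTower.of_algebraMap_eq' rfl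
  have ht' : aeval t f = 0 := by
    rw [aeval_map_algebraMap] at ht
    exact ht
  let pb := PowerBasis.ofAdjoinEqTop (IsIntegral.of_finite F θ) htopL
  have hgen : pb.gen = θ := PowerBasis.ofAdjoinEqTop_gen _ _
  let ι : L →ₐ[F] Ω := pb.lift t (by rw [hgen, hminL, ht'])
  have hι : ι θ = t := by
    have h5 : ι pb.gen = t := pb.lift_gen t _
    rw [hgen] at h5
    exact h5
  letI : Algebra L Ω := ι.toRingHom.toAlgebra
  haveI : IsScalarTower F L Ω := IsScalarTower.of_algebraMap_eq fun x => (ι.commutes x).symm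
  have hLt : algebraMap L Ω θ = t := hι
  have hΩ : finrank M Ω = finrank F L := by
    rw [hrk, hfm.natDegree_map, hfd, h.deg]
  have htopΩ : Algebra.adjoin M {t} = ⊤ := adjoin_top hminΩ (by rw [hrk])
  have hdM : (f.map (algebraMap F M)).natDegree = 3 := by rw [hfm.natDegree_map, hfd]
  match P, hP with
  | 0, _ => exact ⟨0, by rw [add_zero]⟩
  | Point.some x y hxy, hP =>
    have hxy' : y ^ 2 = (cub (W.map (algebraMap F M))).eval x := by
      rw [eval_cub]
      refine (equation_iff' ?_ ?_).1 hxy.1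
      · change algebraMap F M W.a₁ = 0
        rw [h.w1, map_zero]
      · change algebraMap F M W.a₃ = 0
        rw [h.w3, map_zero]
    have hne : algebraMap M Ω x - t ≠ 0 := by
      intro h0
      have h1 := lin_indep (u := x) (v := -1) (w := 0) hdM hminΩ (by
        rw [map_neg, map_one, map_zero]
        linear_combination h0)
      exact absurd h1.2.1 (by simp)
    have hN : IsSquare (Algebra.norm M (algebraMap M Ω x - t)) := by
      rw [norm_sub hminΩ htopΩ, hf, ← cub_map, ← hxy']
      exact ⟨y, pow_two y⟩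
    have hstrict : Strict M (algebraMap M Ω x - t) := by
      refine ⟨hne, hN, fun 𝔔 h𝔔 => ?_, ?_⟩
      · refine even_point (L := L) hM hL hΩ W h.w1 h.w3 (by rw [← hf, ht'])
          h.ram hxy' hne hN 𝔔 h𝔔
      · intro τ
        obtain ⟨Q, hQ⟩ := hP (τ.comp (algebraMap M Ω))
        obtain ⟨h', e'⟩ := mp_some (W.map (algebraMap F M))
          (toLoc ℚ_[2] (τ.comp (algebraMap M Ω))) hxy
        rw [e'] at hQ
        have h2 : (2 : loc ℚ_[2] (τ.comp (algebraMap M Ω))) ≠ 0 := two_ne_zero
        have hw1 : (toLoc ℚ_[2] (τ.comp (algebraMap M Ω))) (algebraMap F M W.a₁) = 0 := by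
          rw [h.w1, map_zero, map_zero]
        have hw3 : (toLoc ℚ_[2] (τ.comp (algebraMap M Ω))) (algebraMap F M W.a₃) = 0 := by
          rw [h.w3, map_zero, map_zero]
        have hcoe : ∀ a : F, algebraMap (loc ℚ_[2] (τ.comp (algebraMap M Ω))) Q2bar
            ((toLoc ℚ_[2] (τ.comp (algebraMap M Ω))) (algebraMap F M a)) =
            τ (algebraMap F Ω a) := fun a => rfl
        have hroot : (τ t) ^ 3 + τ (algebraMap F Ω W.a₂) * (τ t) ^ 2 +
            τ (algebraMap F Ω W.a₄) * τ t + τ (algebraMap F Ω W.a₆) = 0 := by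
          have := ht'
          rw [hf, aeval_cub] at this
          have := congrArg τ this
          simpa using this
        obtain ⟨X₀, Y₀, hY₀, hE, hsq⟩ := sq_of_double
          (algebraMap (loc ℚ_[2] (τ.comp (algebraMap M Ω))) Q2bar) h2 hw1 hw3 h' Q hQ
          (T := τ t) hroot
        have hle := loc_mono ℚ_[2] τ (algebraMap M Ω)
        have hXm : (X₀ : Q2bar) ∈ loc ℚ_[2] τ := hle X₀.2
        have hYm : (Y₀ : Q2bar) ∈ loc ℚ_[2] τ := hle Y₀.2
        have hTm : τ t ∈ loc ℚ_[2] τ := mem_loc _ _ _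
        have hnat : ∀ k : ℕ, (k : Q2bar) ∈ loc ℚ_[2] τ := fun k => natCast_mem _ k
        have h2m : (2 : Q2bar) ∈ loc ℚ_[2] τ := by exact_mod_cast hnat 2
        have h3m : (3 : Q2bar) ∈ loc ℚ_[2] τ := by exact_mod_cast hnat 3
        refine ⟨_, ?_, (map_sub τ _ _).trans hsq⟩
        · refine div_mem (sub_mem (pow_mem (sub_mem hXm hTm) 2) (add_mem (add_mem
            (mul_mem h3m (pow_mem hTm 2)) (mul_mem (mul_mem h2m ?_) hTm)) ?_)) (mul_mem h2m hYm)
          · exact mem_loc ℚ_[2] τ (algebraMap F Ω W.a₂)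
          · exact mem_loc ℚ_[2] τ (algebraMap F Ω W.a₄)
    obtain ⟨s, hs⟩ := isSquare_of_strict (F := F) (L := L) hM hL hΩ hfm hodd hθ
      (exists_poly htopL) (fun z => by rw [hLt]; exact exists_poly htopΩ z) h.sel
      (fun τ => by rw [hf]; exact h.lirr τ)
      (fun v hv => by
        rcases h.ram v hv with h1 | h1
        · exact Or.inl h1.2
        · exact Or.inr h1) hstrict
    obtain ⟨u, v, w, huvw⟩ := exists_quad (hfm.map (algebraMap F M)) hdM ht htopΩ s
    refine halve (algebraMap M Ω) two_ne_zero ?_ ?_ ?_ hxy (T := t) ?_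
      (fun u v w h0 => lin_indep hdM hminΩ h0) (u := u) (v := v) (w := w) ?_
    · change algebraMap F M W.a₁ = 0
      rw [h.w1, map_zero]
    · change algebraMap F M W.a₃ = 0
      rw [h.w3, map_zero]
    · rw [WeierstrassCurve.map_Δ]
      exact (_root_.map_ne_zero _).2 h.disc
    · rw [hf, aeval_cub] at ht'
      exact ht'
    · rw [← huvw, hs, pow_two]

end main

end Pool.Agent.H429.T3
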