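import Pool.Agent.H429.T3.D3
import Pool.Agent.H429.T3.B3

/-!
# Points over a Galois 2-extension which are locally divisible by powers of two
-/

set_option autoImplicit false
set_option linter.all false

open IsDedekindDomain NumberField Module Polynomial WeierstrassCurve WeierstrassCurve.Affine
open scoped Classical IntermediateField

namespace Pool.Agent.H429.T3

section main

variable {F L M : Type} [Field F] [NumberField F] [Field L] [NumberField L] [Field M]
  [NumberField M] [Algebra F L] [Algebra F M] [IsGalois F M] {W : WeierstrassCurve F}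

/-- There are no points of order two over the local fields of `M`. -/
theorem Hyp.no_two (h : Hyp W L M) {n : ℕ} (hM : finrank F M = 2 ^ n) (τ : M →+* Q2bar)
    (Q : ((W.map (algebraMap F M)).map (toLoc ℚ_[2] τ)).toAffine.Point) (hQ : Q + Q = 0) :
    Q = 0 := by
  have h2 : (2 : loc ℚ_[2] τ) ≠ 0 := two_ne_zero
  have hw1 : ((W.map (algebraMap F M)).map (toLoc ℚ_[2] τ)).a₁ = 0 := by
    change (toLoc ℚ_[2] τ) (algebraMap F M W.a₁) = 0
    rw [h.w1, map_zero, map_zero]
  have hw3 : ((W.map (algebraMap F M)).map (toLoc ℚ_[2] τ)).a₃ = 0 := by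
    change (toLoc ℚ_[2] τ) (algebraMap F M W.a₃) = 0
    rw [h.w3, map_zero, map_zero]
  match Q, hQ with
  | 0, _ => rfl
  | Point.some X Y hXY, hQ =>
    exfalso
    by_cases hY : Y = 0
    · subst hY
      have hE := (equation_iff' hw1 hw3).1 hXY.1
      have hodd : Odd (cub W).natDegree := by
        rw [cub_deg]
        decide
      have h1 : (cub W).natDegree ≠ 1 := by
        rw [cub_deg]
        decide
      refine no_root hM (cub_monic W) hodd h1 h.lirr τ (r := (X : Q2bar)) X.2 ?_
      have hE' := congrArg (algebraMap (loc ℚ_[2] τ) Q2bar) hE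
      have hcoe : ∀ a : F, algebraMap (loc ℚ_[2] τ) Q2bar
          ((toLoc ℚ_[2] τ) (algebraMap F M a)) = τ (algebraMap F M a) := fun a => rfl
      have hX : algebraMap (loc ℚ_[2] τ) Q2bar X = (X : Q2bar) := rfl
      simp only [WeierstrassCurve.map, map_add, map_mul, map_pow, hcoe, hX, map_zero] at hE'
      unfold cub
      simp only [eval₂_add, eval₂_mul, eval₂_pow, eval₂_X, eval₂_C, RingHom.comp_apply]
      rw [← hE']
      ring
    · obtain ⟨y', h', e⟩ := double_x h2 hw1 hw3 hXY hY
      rw [e] at hQ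
      exact absurd hQ (by simp)

theorem Hyp.pow_div (h : Hyp W L M) {n : ℕ} (hM : finrank F M = 2 ^ n) (k : ℕ) :
    ∀ (P : (W.map (algebraMap F M)).toAffine.Point)
    (hP : ∀ τ : M →+* Q2bar, ∃ Q, mp (W.map (algebraMap F M)) (toLoc ℚ_[2] τ) P =
      ((2 : ℤ) ^ k) • Q), ∃ Q, P = ((2 : ℤ) ^ k) • Q := by
  induction k with
  | zero =>
    intro P _
    exact ⟨P, by rw [pow_zero, one_smul]⟩
  | succ k ih =>
    intro P hP
    obtain ⟨R, hR⟩ := h.two_div hM P (fun τ => by
      obtain ⟨Q, hQ⟩ := hP τ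
      refine ⟨((2 : ℤ) ^ k) • Q, ?_⟩
      rw [hQ, ← add_smul]
      congr 1
      ring)
    obtain ⟨S, hS⟩ := ih R (fun τ => by
      obtain ⟨Q, hQ⟩ := hP τ
      refine ⟨Q, ?_⟩
      rw [hR, map_add] at hQ
      have h0 := h.no_two hM τ (mp (W.map (algebraMap F M)) (toLoc ℚ_[2] τ) R -
        ((2 : ℤ) ^ k) • Q) (by
          have h1 : ((2 : ℤ) ^ (k + 1)) • Q = ((2 : ℤ) ^ k) • Q + ((2 : ℤ) ^ k) • Q := by
            rw [← add_smul]
            congr 1
            ring
          rw [h1] at hQ
          rw [sub_add_sub_comm, hQ, sub_self])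
      exact sub_eq_zero.1 h0)
    refine ⟨S, ?_⟩
    rw [hR, hS, ← add_smul]
    congr 1
    ring

end main

end Pool.Agent.H429.T3
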