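import Mathlib

/-!
# Relations with 2-adic integral coefficients in a finitely generated group
-/

set_option autoImplicit false
set_option linter.all false

open Module
open scoped Classical

namespace Pool.Agent.H429.T3

/-- If points independent over `ℤ` of a finitely generated group satisfy a relation over `ℤ_p`
modulo all powers of `p`, then the relation is trivial. -/
theorem indep_of_fg {Λ : Type} [AddCommGroup Λ] [Module.Finite ℤ Λ] {p : ℕ} [hp : Fact p.Prime]
    {r : ℕ} {P : Fin r → Λ} (hP : LinearIndependent ℤ P) (c : Fin r → ℤ_[p])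
    (h : ∀ k : ℕ, ∃ m : Fin r → ℤ, (∀ i, (p : ℤ_[p]) ^ k ∣ c i - m i) ∧
      ∃ Q : Λ, ∑ i, m i • P i = ((p : ℤ) ^ k) • Q) : c = 0 := by
  haveI : IsNoetherian ℤ Λ := inferInstance
  let S : Submodule ℤ Λ := Submodule.span ℤ (Set.range P)
  let f : ℕ →o Submodule ℤ Λ :=
    { toFun := fun n => S.comap (LinearMap.lsmul ℤ Λ ((n.factorial : ℕ) : ℤ))
      monotone' := by
        intro a b hab x hx
        rw [Submodule.mem_comap, LinearMap.lsmul_apply] at hx ⊢
        obtain ⟨d, hd⟩ := Nat.factorial_dvd_factorial hab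
        rw [hd, Nat.cast_mul, mul_comm, mul_smul]
        exact S.smul_mem _ hx }
  obtain ⟨n0, hn0⟩ := monotone_stabilizes_iff_noetherian.2 this f
  obtain ⟨N, hN⟩ : ∃ N : ℕ, N = n0.factorial := ⟨_, rfl⟩
  have hN0 : N ≠ 0 := by
    rw [hN]
    exact Nat.factorial_ne_zero _
  have hsat : ∀ (k : ℕ) (x : Λ), ((p : ℤ) ^ k) • x ∈ S → (N : ℤ) • x ∈ S := by
    intro k x hx
    have h1 : x ∈ f (p ^ k) := by
      change ((p ^ k).factorial : ℤ) • x ∈ S
      obtain ⟨d, hd⟩ := Nat.dvd_factorial (pow_pos hp.out.pos k) (le_refl (p ^ k))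
      rw [hd, Nat.cast_mul, mul_comm, mul_smul, Nat.cast_pow]
      exact S.smul_mem _ hx
    have h2 : x ∈ f n0 := by
      rcases le_total n0 (p ^ k) with h | h
      · rw [hn0 _ h]
        exact h1
      · exact f.monotone' h h1
    rw [hN]
    exact h2
  funext i
  by_contra hci
  have hci' : c i ≠ 0 := hci
  -- choose `k` larger than the valuations
  obtain ⟨k, hk⟩ : ∃ k : ℕ, ¬ (p : ℤ_[p]) ^ k ∣ (N : ℤ_[p]) * c i := by
    by_contra hall
    push Not at hall
    have h1 : (N : ℤ_[p]) * c i = 0 := by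
      have h2 : ‖(N : ℤ_[p]) * c i‖ ≤ 0 := by
        refine ge_of_tendsto' (x := Filter.atTop) (f := fun k : ℕ => ((p : ℝ)⁻¹) ^ k) ?_ ?_
        · refine tendsto_pow_atTop_nhds_zero_of_lt_one (by positivity) ?_
          exact inv_lt_one_of_one_lt₀ (by exact_mod_cast hp.out.one_lt)
        · intro k
          obtain ⟨y, hy⟩ := hall k
          rw [hy, norm_mul, norm_pow, PadicInt.norm_p]
          exact mul_le_of_le_one_right (by positivity) (PadicInt.norm_le_one y)
      exact norm_le_zero_iff.1 h2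
    rcases mul_eq_zero.1 h1 with h | h
    · exact hN0 (by exact_mod_cast h)
    · exact hci' h
  obtain ⟨m, hm, Q, hQ⟩ := h k
  apply hk
  have h1 : ((p : ℤ) ^ k) • Q ∈ S := by
    rw [← hQ]
    exact Submodule.sum_mem _ fun j _ => S.smul_mem _ (Submodule.subset_span ⟨j, rfl⟩)
  obtain ⟨q, hq⟩ := (Submodule.mem_span_range_iff_exists_fun ℤ).1 (hsat k Q h1)
  have h2 : ∑ j, (N * m j - (p : ℤ) ^ k * q j) • P j = 0 := by
    simp only [sub_smul, mul_smul, Finset.sum_sub_distrib, ← Finset.smul_sum]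
    rw [hQ, hq, smul_comm, sub_self]
  have h3 := Fintype.linearIndependent_iff.1 hP _ h2 i
  have h4 : (N : ℤ_[p]) * (m i : ℤ_[p]) = (p : ℤ_[p]) ^ k * (q i : ℤ_[p]) := by
    have : (N : ℤ) * m i = (p : ℤ) ^ k * q i := by linarith
    have := congrArg (Int.cast : ℤ → ℤ_[p]) this
    push_cast at this
    exact this
  obtain ⟨d, hd⟩ := hm i
  refine ⟨N * d + q i, ?_⟩
  have : c i = m i + (p : ℤ_[p]) ^ k * d := by rw [← hd]; ring
  rw [this, mul_add, h4]
  ring

end Pool.Agent.H429.T3
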