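import Pool.Agent.H429.T3.D4
import Pool.Agent.H429.T3.E1
import Pool.Graph.R_pool_sql_team_seeded_3997aac3.Q286.EQ.MW

/-!
# Independence over the 2-adic integers
-/

set_option autoImplicit false
set_option linter.all false

open IsDedekindDomain NumberField Module Polynomial WeierstrassCurve WeierstrassCurve.Affine
open scoped Classical IntermediateField

namespace Pool.Agent.H429.T3

theorem mp_mp {K k k' : Type} [Field K] [Field k] [Field k'] [DecidableEq K] [DecidableEq k]
    [DecidableEq k'] (V : WeierstrassCurve K) (φ : K →+* k) (ψ : k →+* k')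
    (P : V.toAffine.Point) : mp (V.map φ) ψ (mp V φ P) = mp V (ψ.comp φ) P := by
  cases P <;> rfl

theorem div_up {K k k' : Type} [Field K] [Field k] [Field k'] [DecidableEq K] [DecidableEq k]
    [DecidableEq k'] (V : WeierstrassCurve K) (φ : K →+* k) (ψ : k →+* k') (N : ℤ)
    (P : V.toAffine.Point) (h : ∃ Q, mp V φ P = N • Q) : ∃ Q, mp V (ψ.comp φ) P = N • Q := by
  obtain ⟨Q, hQ⟩ := h
  refine ⟨mp (V.map φ) ψ Q, ?_⟩
  rw [← mp_mp, hQ, map_zsmul]
  rfl

section main

variable {F L M : Type} [Field F] [NumberField F] [Field L] [NumberField L] [Field M]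
  [NumberField M] [Algebra F L] [Algebra F M] [IsGalois F M] {W : WeierstrassCurve F}

theorem Hyp.indep (h : Hyp W L M) {n : ℕ} (hM : finrank F M = 2 ^ n) {K : Type} [Field K]
    [Algebra F K] [Algebra K M] [IsScalarTower F K M] {r : ℕ}
    (P : Fin r → (W.map (algebraMap F K)).toAffine.Point) (hP : LinearIndependent ℤ P)
    (c : Fin r → ℤ_[2])
    (hc : ∀ k : ℕ, ∃ m : Fin r → ℤ, (∀ i, (2 : ℤ_[2]) ^ k ∣ c i - m i) ∧
      ∀ τ : K →+* Q2bar, ∃ Q, mp (W.map (algebraMap F K)) (toLoc ℚ_[2] τ) (∑ i, m i • P i) =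
        ((2 : ℤ) ^ k) • Q) : c = 0 := by
  obtain ⟨U, hU⟩ : ∃ U, U = (W.map (algebraMap F K)).map (algebraMap K M) := ⟨_, rfl⟩
  have hUM : U = W.map (algebraMap F M) := by
    rw [hU, WeierstrassCurve.map_map, ← IsScalarTower.algebraMap_eq]
  have hdiv : ∀ (k : ℕ) (P : U.toAffine.Point) (hP : ∀ τ : M →+* Q2bar, ∃ Q, mp U
      (toLoc ℚ_[2] τ) P = ((2 : ℤ) ^ k) • Q), ∃ Q, P = ((2 : ℤ) ^ k) • Q := by
    rw [hUM]
    exact h.pow_div hM
  have hfg : AddGroup.FG U.toAffine.Point := by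
    refine Pool.Agent.Q286.EQ.mordell_weil M U ?_
    rw [hUM, WeierstrassCurve.map_Δ]
    exact (_root_.map_ne_zero _).2 h.disc
  haveI : Module.Finite ℤ U.toAffine.Point := Module.Finite.iff_addGroup_fg.2 hfg
  subst hU
  have hP' : LinearIndependent ℤ fun i => mp (W.map (algebraMap F K)) (algebraMap K M) (P i) := by
    have := hP.map' (mp (W.map (algebraMap F K)) (algebraMap K M)).toIntLinearMap
      (LinearMap.ker_eq_bot.2 (mp_injective _ _))
    exact this
  refine indep_of_fg (p := 2) hP' c fun k => ?_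
  obtain ⟨m, hm, hτ⟩ := hc k
  refine ⟨m, fun i => by exact_mod_cast hm i, ?_⟩
  have h1 : ∑ i, m i • mp (W.map (algebraMap F K)) (algebraMap K M) (P i) =
      mp (W.map (algebraMap F K)) (algebraMap K M) (∑ i, m i • P i) := by
    rw [map_sum]
    refine Finset.sum_congr rfl fun i _ => ?_
    rw [map_zsmul]
  rw [h1]
  refine hdiv k _ fun τ => ?_
  rw [mp_mp]
  exact div_up (W.map (algebraMap F K)) (toLoc ℚ_[2] (τ.comp (algebraMap K M)))
    (IntermediateField.inclusion (loc_mono ℚ_[2] τ (algebraMap K M))).toRingHom _ _ (hτ _)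

end main

end Pool.Agent.H429.T3
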