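import Pool.Agent.H429.T3.E2
import Pool.Graph.R_seed8.TH841.NF.Plc

/-!
# Independence over the 2-adic integers, in terms of completions
-/

set_option autoImplicit false
set_option linter.all false

open IsDedekindDomain NumberField Module Polynomial WeierstrassCurve WeierstrassCurve.Affine
open scoped Classical IntermediateField

namespace Pool.Agent.H429.T3

theorem div_congr {K k : Type} [Field K] [Field k] [DecidableEq K] [DecidableEq k]
    (V : WeierstrassCurve K) {φ ψ : K →+* k} (h : φ = ψ) {N : ℤ} {P : V.toAffine.Point}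
    (hP : ∃ Q, mp V φ P = N • Q) : ∃ Q, mp V ψ P = N • Q := by
  subst h
  exact hP

/-- Every embedding in the algebraic closure of `ℚ_2` comes from a completion. -/
theorem exists_place {K : Type} [Field K] [NumberField K] (τ : K →+* Q2bar) :
    ∃ v : HeightOneSpectrum (𝓞 K), (2 : 𝓞 K) ∈ v.asIdeal ∧
      ∃ β : v.adicCompletion K →+* loc ℚ_[2] τ,
        β.comp (algebraMap K (v.adicCompletion K)) = toLoc ℚ_[2] τ := by
  refine ⟨TH841.NF.pls (p := 2) τ, ?_, ?_⟩
  · change (2 : 𝓞 K) ∈ TH841.NF.pid (p := 2) τ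
    rw [TH841.NF.mem_pid, map_ofNat, map_ofNat]
    have h2 : (2 : PadicAlgCl 2) = algebraMap ℚ_[2] (PadicAlgCl 2) 2 := by
      rw [map_ofNat]
    rw [h2]
    have h4 : ‖(2 : ℚ_[2])‖ < 1 := by
      have := Padic.norm_p_lt_one (p := 2)
      exact_mod_cast this
    exact (PadicAlgCl.norm_extends 2 (2 : ℚ_[2])).trans_lt h4
  · have hle : TH841.NF.lf (p := 2) τ ≤ loc ℚ_[2] τ := by
      unfold TH841.NF.lf
      rw [IntermediateField.adjoin_le_iff]
      rintro _ ⟨i, rfl⟩
      exact mem_loc ℚ_[2] τ _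
    have hmem : ∀ y, TH841.NF.jc (p := 2) τ y ∈ loc ℚ_[2] τ := fun y =>
      hle (Subtype.property _)
    refine ⟨(TH841.NF.jc (p := 2) τ).codRestrict (loc ℚ_[2] τ) hmem, ?_⟩
    ext x
    exact TH841.NF.jc_coe (p := 2) τ x

section main

variable {F L M : Type} [Field F] [NumberField F] [Field L] [NumberField L] [Field M]
  [NumberField M] [Algebra F L] [Algebra F M] [IsGalois F M] {W : WeierstrassCurve F}

theorem Hyp.indep_compl (h : Hyp W L M) {n : ℕ} (hM : finrank F M = 2 ^ n) {K : Type} [Field K]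
    [NumberField K] [Algebra F K] [Algebra K M] [IsScalarTower F K M] {r : ℕ}
    (P : Fin r → (W.map (algebraMap F K)).toAffine.Point) (hP : LinearIndependent ℤ P)
    (a : Fin r → ℤ_[2])
    (ha : ∀ v : HeightOneSpectrum (𝓞 K), (2 : 𝓞 K) ∈ v.asIdeal → ∀ k : ℕ, ∃ m : Fin r → ℤ,
      (∀ i, (2 : ℤ_[2]) ^ k ∣ m i - a i) ∧
      ∃ R, mp (W.map (algebraMap F K)) (algebraMap K (v.adicCompletion K)) (∑ i, m i • P i) =
        ((2 : ℤ) ^ k) • R) : a = 0 := by
  refine h.indep hM P hP a fun k => ?_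
  refine ⟨fun i => ((a i).appr k : ℤ), fun i => ?_, fun τ => ?_⟩
  · have := PadicInt.appr_spec k (a i)
    rw [Ideal.mem_span_singleton] at this
    exact_mod_cast this
  · obtain ⟨v, hv, β, hβ⟩ := exists_place τ
    refine div_congr _ hβ (div_up _ _ _ _ _ ?_)
    obtain ⟨m, hm, R, hR⟩ := ha v hv k
    have h1 : ∀ i, ∃ d : ℤ, ((a i).appr k : ℤ) = m i + 2 ^ k * d := by
      intro i
      have h2 : (2 : ℤ_[2]) ^ k ∣ ((((a i).appr k : ℤ) - m i : ℤ) : ℤ_[2]) := by
        have h3 := PadicInt.appr_spec k (a i)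
        rw [Ideal.mem_span_singleton] at h3
        have h4 : (2 : ℤ_[2]) ^ k ∣ a i - ((a i).appr k : ℤ_[2]) := by exact_mod_cast h3
        have h5 := dvd_add (hm i) h4
        have h6 : (((((a i).appr k : ℤ) - m i : ℤ)) : ℤ_[2]) =
            -((m i : ℤ_[2]) - a i + (a i - ((a i).appr k : ℤ_[2]))) := by
          push_cast
          ring
        rw [h6]
        exact (dvd_neg (α := ℤ_[2])).2 h5
      have h7 : ((2 : ℕ) : ℤ_[2]) ^ k ∣ ((((a i).appr k : ℤ) - m i : ℤ) : ℤ_[2]) := by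
        exact_mod_cast h2
      rw [PadicInt.pow_p_dvd_int_iff] at h7
      obtain ⟨d, hd⟩ := h7
      refine ⟨d, ?_⟩
      have h8 : ((a i).appr k : ℤ) - m i = 2 ^ k * d := by exact_mod_cast hd
      linarith
    choose d hd using h1
    refine ⟨R + mp (W.map (algebraMap F K)) (algebraMap K (v.adicCompletion K))
      (∑ i, d i • P i), ?_⟩
    have h2 : ∑ i, ((a i).appr k : ℤ) • P i = ∑ i, m i • P i + ((2 : ℤ) ^ k) • ∑ i, d i • P i := by
      rw [Finset.smul_sum, ← Finset.sum_add_distrib]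
      refine Finset.sum_congr rfl fun i _ => ?_
      rw [hd, add_smul, mul_smul]
    rw [h2, map_add, hR, map_zsmul, smul_add]

end main

end Pool.Agent.H429.T3
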