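import Pool.Agent.H429.T3.E3

/-!
# Points over subfields of Galois 2-extensions which are locally divisible by powers of two
-/

set_option autoImplicit false
set_option linter.all false

open IsDedekindDomain NumberField Module Polynomial WeierstrassCurve WeierstrassCurve.Affine
open scoped Classical IntermediateField

namespace Pool.Agent.H429.T3

/-- The action of an automorphism on points. -/
noncomputable def ga {K M : Type} [Field K] [Field M] [Algebra K M] (V : WeierstrassCurve K)
    (σ : M ≃ₐ[K] M) : (V.map (algebraMap K M)).toAffine.Point →+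
      (V.map (algebraMap K M)).toAffine.Point :=
  (Point.map (W' := V) (σ : M →ₐ[K] M) : (V⁄M).Point →+ (V⁄M).Point)

theorem ga_some {K M : Type} [Field K] [Field M] [Algebra K M] (V : WeierstrassCurve K)
    (σ : M ≃ₐ[K] M) {x y : M} (h : (V.map (algebraMap K M)).toAffine.Nonsingular x y) :
    ∃ h', ga V σ (Point.some x y h) = Point.some (σ x) (σ y) h' := ⟨_, rfl⟩

theorem some_eq {K : Type} [Field K] {V : WeierstrassCurve K} {x y x' y' : K}
    (h : V.toAffine.Nonsingular x y) (h' : V.toAffine.Nonsingular x' y') (hx : x = x')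
    (hy : y = y') : (Point.some x y h : V.toAffine.Point) = Point.some x' y' h' := by
  subst hx hy
  rfl

/-- Galois descent for division by an integer. -/
theorem descend {K M : Type} [Field K] [Field M] [Algebra K M] [FiniteDimensional K M]
    [IsGalois K M] (V : WeierstrassCurve K) (N : ℤ)
    (hN : ∀ T : (V.map (algebraMap K M)).toAffine.Point, N • T = 0 → T = 0)
    (P : V.toAffine.Point) (h : ∃ Q, mp V (algebraMap K M) P = N • Q) : ∃ Q, P = N • Q := by
  obtain ⟨Q, hQ⟩ := h
  have hfix : ∀ σ : M ≃ₐ[K] M, ga V σ (mp V (algebraMap K M) P) = mp V (algebraMap K M) P := by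
    intro σ
    match P with
    | 0 => rw [_root_.map_zero, _root_.map_zero]
    | Point.some x y hxy =>
      obtain ⟨h', e⟩ := mp_some V (algebraMap K M) hxy
      obtain ⟨h'', e'⟩ := ga_some V σ h'
      rw [e, e']
      exact some_eq _ _ (σ.commutes x) (σ.commutes y)
  have hQfix : ∀ σ : M ≃ₐ[K] M, ga V σ Q = Q := by
    intro σ
    have h1 := hfix σ
    rw [hQ] at h1
    have h2 : N • (ga V σ Q - Q) = 0 := by
      rw [smul_sub, ← map_zsmul]
      exact sub_eq_zero.2 h1
    exact sub_eq_zero.1 (hN _ h2)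
  match Q, hQ, hQfix with
  | 0, hQ, _ =>
    rw [smul_zero] at hQ
    have : P = 0 := mp_injective V (algebraMap K M) (by rw [hQ, _root_.map_zero])
    exact ⟨0, by rw [smul_zero, this]⟩
  | Point.some x y hxy, hQ, hQfix =>
    have hx : ∀ σ : M ≃ₐ[K] M, σ x = x ∧ σ y = y := by
      intro σ
      have h1 := hQfix σ
      obtain ⟨h'', e'⟩ := ga_some V σ hxy
      rw [e', Point.some.injEq] at h1
      exact h1
    obtain ⟨x₀, rfl⟩ := (IsGalois.mem_range_algebraMap_iff_fixed (F := K) x).2 fun σ => (hx σ).1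
    obtain ⟨y₀, rfl⟩ := (IsGalois.mem_range_algebraMap_iff_fixed (F := K) y).2 fun σ => (hx σ).2
    have h0 : V.toAffine.Nonsingular x₀ y₀ :=
      (WeierstrassCurve.Affine.map_nonsingular V.toAffine (algebraMap K M).injective x₀ y₀).1 hxy
    refine ⟨Point.some x₀ y₀ h0, mp_injective V (algebraMap K M) ?_⟩
    rw [hQ, map_zsmul]
    rfl

section main

variable {F L M : Type} [Field F] [NumberField F] [Field L] [NumberField L] [Field M]
  [NumberField M] [Algebra F L] [Algebra F M] [IsGalois F M] {W : WeierstrassCurve F}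

theorem Hyp.no_torsion (h : Hyp W L M) {n : ℕ} (hM : finrank F M = 2 ^ n) (k : ℕ) :
    ∀ T : (W.map (algebraMap F M)).toAffine.Point, ((2 : ℤ) ^ k) • T = 0 → T = 0 := by
  induction k with
  | zero =>
    intro T hT
    rwa [pow_zero, one_smul] at hT
  | succ k ih =>
    intro T hT
    let τ : M →+* Q2bar := (IsAlgClosed.lift (R := ℚ) : M →ₐ[ℚ] Q2bar)
    have h1 : ((2 : ℤ) ^ k) • (T + T) = 0 := by
      rw [← hT, ← two_zsmul, smul_smul, pow_succ]
    have h2 := ih _ h1
    have h3 := h.no_two hM τ (mp _ (toLoc ℚ_[2] τ) T) (by rw [← map_add, h2, _root_.map_zero])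
    exact mp_injective _ (toLoc ℚ_[2] τ) (by rw [h3, _root_.map_zero])

theorem Hyp.sat (h : Hyp W L M) {n : ℕ} (hM : finrank F M = 2 ^ n) {K : Type} [Field K]
    [Algebra F K] [Algebra K M] [IsScalarTower F K M] (k : ℕ)
    (P : (W.map (algebraMap F K)).toAffine.Point)
    (hP : ∀ τ : K →+* Q2bar, ∃ Q, mp (W.map (algebraMap F K)) (toLoc ℚ_[2] τ) P =
      ((2 : ℤ) ^ k) • Q) : ∃ Q, P = ((2 : ℤ) ^ k) • Q := by
  haveI : IsGalois K M := IsGalois.tower_top_of_isGalois F K M
  haveI : FiniteDimensional K M := FiniteDimensional.right F K M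
  obtain ⟨U, hU⟩ : ∃ U, U = (W.map (algebraMap F K)).map (algebraMap K M) := ⟨_, rfl⟩
  have hUM : U = W.map (algebraMap F M) := by
    rw [hU, WeierstrassCurve.map_map, ← IsScalarTower.algebraMap_eq]
  have hdiv : ∀ (k : ℕ) (P : U.toAffine.Point) (hP : ∀ τ : M →+* Q2bar, ∃ Q, mp U
      (toLoc ℚ_[2] τ) P = ((2 : ℤ) ^ k) • Q), ∃ Q, P = ((2 : ℤ) ^ k) • Q := by
    rw [hUM]
    exact h.pow_div hM
  have htor : ∀ T : U.toAffine.Point, ((2 : ℤ) ^ k) • T = 0 → T = 0 := by
    rw [hUM]
    exact h.no_torsion hM k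
  subst hU
  refine descend (W.map (algebraMap F K)) _ htor P (hdiv k _ fun τ => ?_)
  rw [mp_mp]
  exact div_up (W.map (algebraMap F K)) (toLoc ℚ_[2] (τ.comp (algebraMap K M)))
    (IntermediateField.inclusion (loc_mono ℚ_[2] τ (algebraMap K M))).toRingHom _ _ (hP _)

theorem Hyp.sat_compl (h : Hyp W L M) {n : ℕ} (hM : finrank F M = 2 ^ n) {K : Type} [Field K]
    [NumberField K] [Algebra F K] [Algebra K M] [IsScalarTower F K M] (k : ℕ)
    (P : (W.map (algebraMap F K)).toAffine.Point)
    (hP : ∀ v : HeightOneSpectrum (𝓞 K), (2 : 𝓞 K) ∈ v.asIdeal →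
      ∃ R, mp (W.map (algebraMap F K)) (algebraMap K (v.adicCompletion K)) P =
        ((2 : ℤ) ^ k) • R) : ∃ Q, P = ((2 : ℤ) ^ k) • Q := by
  refine h.sat hM k P fun τ => ?_
  obtain ⟨v, hv, β, hβ⟩ := exists_place τ
  exact div_congr _ hβ (div_up _ _ _ _ _ (hP v hv))

end main

end Pool.Agent.H429.T3
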