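import Pool.Agent.H429.T3.D3

/-!
# Cubic fields over the rational numbers: primes
-/

set_option autoImplicit false
set_option linter.all false

open IsDedekindDomain NumberField Module Polynomial
open scoped Classical

namespace Pool.Agent.H429.T3

theorem exists_prime_mem (v : HeightOneSpectrum (𝓞 ℚ)) :
    ∃ p : ℕ, p.Prime ∧ (p : 𝓞 ℚ) ∈ v.asIdeal := by
  have h1 : ((Ideal.absNorm v.asIdeal : ℕ) : 𝓞 ℚ) ∈ v.asIdeal := Ideal.absNorm_mem v.asIdeal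
  have h0 : Ideal.absNorm v.asIdeal ≠ 0 := by
    rw [Ne, Ideal.absNorm_eq_zero_iff]
    exact v.ne_bot
  obtain ⟨n, hn⟩ : ∃ n, n = Ideal.absNorm v.asIdeal := ⟨_, rfl⟩
  rw [← hn] at h1 h0
  clear hn
  induction n using Nat.recOnPrimePow with
  | zero => exact absurd rfl h0
  | one =>
    exfalso
    rw [Nat.cast_one] at h1
    exact v.isPrime.ne_top ((Ideal.eq_top_iff_one _).2 h1)
  | prime_pow_mul a p n hp hpa hn ih =>
    rw [Nat.cast_mul, Nat.cast_pow] at h1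
    rcases v.isPrime.mem_or_mem h1 with h | h
    · exact ⟨p, hp, v.isPrime.mem_of_pow_mem _ h⟩
    · refine ih ?_ h
      rintro rfl
      exact h0 (mul_zero _)

theorem unram_of_discr {M : Type} [Field M] [NumberField M] {p : ℕ} (hp : p.Prime)
    (h : ¬ (p : ℤ) ∣ discr M) {v : HeightOneSpectrum (𝓞 ℚ)} (hv : (p : 𝓞 ℚ) ∈ v.asIdeal) :
    Unram M v := by
  intro w hw
  haveI := w.isPrime
  have hpw : ((p : ℤ) : 𝓞 M) ∈ w.asIdeal := by
    rw [hw.over] at hv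
    have : algebraMap (𝓞 ℚ) (𝓞 M) (p : 𝓞 ℚ) ∈ w.asIdeal := hv
    rw [map_natCast] at this
    exact_mod_cast this
  haveI := (NumberField.not_dvd_discr_iff_forall_mem M (𝓞 M)
    (Nat.prime_iff_prime_int.1 hp)).1 h w.asIdeal inferInstance hpw
  haveI : Algebra.IsUnramifiedAt (𝓞 ℚ) w.asIdeal :=
    Algebra.IsUnramifiedAt.of_restrictScalars (R := ℤ) w.asIdeal
  exact Ideal.ramificationIdx_eq_one w.asIdeal (𝓞 ℚ)

theorem val_int_le (v : HeightOneSpectrum (𝓞 ℚ)) (n : ℤ) : v.valuation ℚ (n : ℚ) ≤ 1 := by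
  have e : algebraMap (𝓞 ℚ) ℚ (n : 𝓞 ℚ) = (n : ℚ) := map_intCast _ _
  rw [← e]
  exact v.valuation_le_one (K := ℚ) (n : 𝓞 ℚ)

theorem val_int_one {v : HeightOneSpectrum (𝓞 ℚ)} {p : ℕ} (hp : p.Prime)
    (hv : (p : 𝓞 ℚ) ∈ v.asIdeal) {n : ℤ} (h : ¬ (p : ℤ) ∣ n) : v.valuation ℚ (n : ℚ) = 1 := by
  have h1 : ((n : 𝓞 ℚ)) ∉ v.asIdeal := by
    intro hn
    have hco : IsCoprime (p : ℤ) n :=
      ((Nat.prime_iff_prime_int.1 hp).coprime_iff_not_dvd).2 h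
    obtain ⟨a, b, hab⟩ := hco
    have h2 : (1 : 𝓞 ℚ) = a * p + b * n := by
      have := congrArg (Int.cast : ℤ → 𝓞 ℚ) hab
      push_cast at this
      exact this.symm
    have h3 : (1 : 𝓞 ℚ) ∈ v.asIdeal := by
      rw [h2]
      exact add_mem (Ideal.mul_mem_left _ _ hv) (Ideal.mul_mem_left _ _ hn)
    exact v.isPrime.ne_top ((Ideal.eq_top_iff_one _).2 h3)
  have e : algebraMap (𝓞 ℚ) ℚ (n : 𝓞 ℚ) = (n : ℚ) := map_intCast _ _
  rw [← e]
  exact (HeightOneSpectrum.valuation_eq_one_iff_notMem (K := ℚ) v (r := (n : 𝓞 ℚ))).2 h1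

theorem mem_over {L : Type} [Field L] [NumberField L] {v : HeightOneSpectrum (𝓞 ℚ)} {p : ℕ}
    (hv : (p : 𝓞 ℚ) ∈ v.asIdeal) {𝔓 : HeightOneSpectrum (𝓞 L)} (h : Over v 𝔓) :
    (p : 𝓞 L) ∈ 𝔓.asIdeal := by
  rw [h.over] at hv
  have : algebraMap (𝓞 ℚ) (𝓞 L) (p : 𝓞 ℚ) ∈ 𝔓.asIdeal := hv
  rwa [map_natCast] at this

theorem absNorm_ne_one {L : Type} [Field L] [NumberField L] (𝔓 : HeightOneSpectrum (𝓞 L)) :
    Ideal.absNorm 𝔓.asIdeal ≠ 1 := by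
  rw [Ne, Ideal.absNorm_eq_one_iff]
  exact 𝔓.isPrime.ne_top

theorem mul_dvd {L : Type} [Field L] [NumberField L] {𝔓 𝔓' : HeightOneSpectrum (𝓞 L)}
    (hne : 𝔓 ≠ 𝔓') {α : 𝓞 L} (h : α ∈ 𝔓.asIdeal) (h' : α ∈ 𝔓'.asIdeal) :
    Ideal.absNorm 𝔓.asIdeal * Ideal.absNorm 𝔓'.asIdeal ∣ Ideal.absNorm (Ideal.span {α}) := by
  haveI := 𝔓.isMaximal
  haveI := 𝔓'.isMaximal
  have h1 : IsCoprime 𝔓.asIdeal 𝔓'.asIdeal :=
    Ideal.isCoprime_of_isMaximal fun h => hne (HeightOneSpectrum.ext h)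
  rw [← map_mul, Ideal.mul_eq_inf_of_coprime h1.sup_eq]
  refine Ideal.absNorm_dvd_absNorm_of_le ?_
  rw [Ideal.span_singleton_le_iff_mem]
  exact ⟨h, h'⟩

/-- Only one prime above a totally ramified prime number. -/
theorem one_prime_of_elem {L : Type} [Field L] [NumberField L] {v : HeightOneSpectrum (𝓞 ℚ)}
    {p : ℕ} (hp : p.Prime) (hv : (p : 𝓞 ℚ) ∈ v.asIdeal) {α : 𝓞 L}
    (hα : Ideal.absNorm (Ideal.span {α}) = p)
    (hmem : ∀ 𝔓 : HeightOneSpectrum (𝓞 L), (p : 𝓞 L) ∈ 𝔓.asIdeal → α ∈ 𝔓.asIdeal) :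
    OnePrime L v := by
  intro 𝔓 𝔓' h h'
  by_contra hne
  have h1 := mul_dvd hne (hmem 𝔓 (mem_over hv h)) (hmem 𝔓' (mem_over hv h'))
  rw [hα] at h1
  have h2 := (Nat.Prime.eq_one_or_self_of_dvd hp _ (dvd_of_mul_right_dvd h1))
  have h3 := (Nat.Prime.eq_one_or_self_of_dvd hp _ (dvd_of_mul_left_dvd h1))
  rcases h2 with h2 | h2
  · exact absNorm_ne_one 𝔓 h2
  rcases h3 with h3 | h3
  · exact absNorm_ne_one 𝔓' h3
  rw [h2, h3] at h1
  have h4 := Nat.le_of_dvd hp.pos h1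
  nlinarith [hp.two_le]

/-- A prime of degree one gives a root. -/
theorem root_of_absNorm {L : Type} [Field L] [NumberField L] {p : ℕ} (hp : p.Prime)
    {𝔓 : HeightOneSpectrum (𝓞 L)} (h : Ideal.absNorm 𝔓.asIdeal = p) (g : ℤ[X]) (π : 𝓞 L)
    (hπ : aeval π g = 0) : ∃ x : ZMod p, (g.map (Int.castRingHom (ZMod p))).eval x = 0 := by
  haveI := 𝔓.isPrime
  haveI := 𝔓.isMaximal
  haveI : Fact p.Prime := ⟨hp⟩
  let k := 𝓞 L ⧸ 𝔓.asIdeal
  letI : Field k := Ideal.Quotient.field _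
  have hpm : (p : 𝓞 L) ∈ 𝔓.asIdeal := by
    have := Ideal.absNorm_mem 𝔓.asIdeal
    rwa [h] at this
  have hpk : (p : k) = 0 := by
    have h1 : Ideal.Quotient.mk 𝔓.asIdeal (p : 𝓞 L) = 0 := Ideal.Quotient.eq_zero_iff_mem.2 hpm
    rwa [map_natCast] at h1
  haveI : CharP k p := (CharP.charP_iff_prime_eq_zero hp).2 hpk
  have hcard : Nat.card k = p := by
    rw [← h, Ideal.absNorm_apply, Submodule.cardQuot_apply]
  haveI : Finite k := Nat.finite_of_card_ne_zero (by rw [hcard]; exact hp.ne_zero)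
  let φ : ZMod p →+* k := ZMod.castHom (dvd_refl p) k
  have hφ : Function.Bijective φ := by
    rw [Nat.bijective_iff_injective_and_card]
    exact ⟨φ.injective, by rw [hcard, Nat.card_zmod]⟩
  obtain ⟨x, hx⟩ := hφ.2 (Ideal.Quotient.mk 𝔓.asIdeal π)
  refine ⟨x, hφ.1 ?_⟩
  rw [map_zero, eval_map, hom_eval₂, hx]
  have h2 : φ.comp (Int.castRingHom (ZMod p)) =
      (Ideal.Quotient.mk 𝔓.asIdeal).comp (algebraMap ℤ (𝓞 L)) := Subsingleton.elim _ _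
  rw [h2, ← hom_eval₂, ← aeval_def, hπ, map_zero]

/-- Only one prime above a prime number modulo which the polynomial has no zero. -/
theorem one_prime_of_no_root {L : Type} [Field L] [NumberField L] (hk : finrank ℚ L = 3)
    {v : HeightOneSpectrum (𝓞 ℚ)} {p : ℕ} (hp : p.Prime) (hv : (p : 𝓞 ℚ) ∈ v.asIdeal) (g : ℤ[X])
    (π : 𝓞 L) (hπ : aeval π g = 0)
    (hg : ∀ x : ZMod p, (g.map (Int.castRingHom (ZMod p))).eval x ≠ 0) : OnePrime L v := by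
  intro 𝔓 𝔓' h h'
  by_contra hne
  have h1 := mul_dvd hne (mem_over hv h) (mem_over hv h')
  have h2 : Ideal.absNorm (Ideal.span {(p : 𝓞 L)}) = p ^ 3 := by
    rw [Ideal.absNorm_span_singleton]
    have h3 : Algebra.norm ℤ (p : 𝓞 L) = (p : ℤ) ^ 3 := by
      have h4 := Algebra.norm_algebraMap (R := ℤ) (S := 𝓞 L) (p : ℤ)
      rw [RingOfIntegers.rank, hk] at h4
      rw [← h4]
      simp
    rw [h3, Int.natAbs_pow, Int.natAbs_natCast]
  rw [h2] at h1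
  obtain ⟨i, hi, hi'⟩ := (Nat.dvd_prime_pow hp).1 (dvd_of_mul_right_dvd h1)
  obtain ⟨j, hj, hj'⟩ := (Nat.dvd_prime_pow hp).1 (dvd_of_mul_left_dvd h1)
  have hi0 : i ≠ 0 := by
    rintro rfl
    exact absNorm_ne_one 𝔓 (by rw [hi', pow_zero])
  have hj0 : j ≠ 0 := by
    rintro rfl
    exact absNorm_ne_one 𝔓' (by rw [hj', pow_zero])
  rw [hi', hj', ← pow_add, Nat.pow_dvd_pow_iff_le_right hp.one_lt] at h1
  rcases (show i = 1 ∨ j = 1 by omega) with h5 | h5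
  · rw [h5, pow_one] at hi'
    obtain ⟨x, hx⟩ := root_of_absNorm hp hi' g π hπ
    exact hg x hx
  · rw [h5, pow_one] at hj'
    obtain ⟨x, hx⟩ := root_of_absNorm hp hj' g π hπ
    exact hg x hx

end Pool.Agent.H429.T3
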