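import Pool.Agent.H429.T3.D3

/-!
# Cubic fields over the rational numbers: the completion at two
-/

set_option autoImplicit false
set_option linter.all false

open IsDedekindDomain NumberField Module Polynomial WeierstrassCurve
open scoped Classical IntermediateField

namespace Pool.Agent.H429.T3

theorem irr_of {L : Type} [Field L] [NumberField L] (hk : finrank ℚ L = 3) {f : ℚ[X]}
    (hf : f.Monic) (hd : f.natDegree = 3) {θ : L} (hθ : aeval θ f = 0)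
    (hθ' : ∀ q : ℚ, algebraMap ℚ L q ≠ θ) : Irreducible f := by
  have hint : IsIntegral ℚ θ := IsIntegral.of_finite ℚ θ
  have h1 : (minpoly ℚ θ).natDegree ∣ 3 := by
    rw [← hk]
    exact minpoly.degree_dvd hint
  have h2 : (minpoly ℚ θ).natDegree ≠ 1 := by
    intro h
    obtain ⟨q, hq⟩ := minpoly.natDegree_eq_one_iff.1 h
    exact hθ' q hq
  have h3 : (minpoly ℚ θ).natDegree = 3 :=
    ((Nat.dvd_prime Nat.prime_three).1 h1).resolve_left h2
  have h4 : minpoly ℚ θ = f := by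
    refine (eq_of_monic_of_dvd_of_natDegree_le (minpoly.monic hint) hf
      (minpoly.dvd ℚ θ hθ) ?_).symm
    rw [hd, h3]
  rw [← h4]
  exact minpoly.irreducible hint

theorem exists_hom {L : Type} [Field L] [NumberField L] (hk : finrank ℚ L = 3) {f : ℚ[X]}
    (hf : f.Monic) (hd : f.natDegree = 3) {θ : L} (hθ : aeval θ f = 0) (hirr : Irreducible f)
    {E : Type} [Field E] [Algebra ℚ E] {r : E} (hr : aeval r f = 0) : Nonempty (L →+* E) := by
  have hmin : minpoly ℚ θ = f := (minpoly.eq_of_irreducible_of_monic hirr hθ hf).symm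
  have htop : Algebra.adjoin ℚ {θ} = ⊤ := adjoin_top hmin (by rw [hd, hk])
  let pb := PowerBasis.ofAdjoinEqTop (IsIntegral.of_finite ℚ θ) htop
  have hgen : pb.gen = θ := PowerBasis.ofAdjoinEqTop_gen _ _
  exact ⟨(pb.lift r (by rw [hgen, hmin, hr])).toRingHom⟩

theorem mem_bot_loc (τ : ℚ →+* Q2bar) {x : Q2bar} (hx : x ∈ loc ℚ_[2] τ) :
    ∃ y : ℚ_[2], algebraMap ℚ_[2] Q2bar y = x := by
  have h1 : loc ℚ_[2] τ ≤ ⊥ := by
    unfold loc
    rw [IntermediateField.adjoin_le_iff]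
    rintro _ ⟨q, rfl⟩
    rw [SetLike.mem_coe, IntermediateField.mem_bot]
    refine ⟨(q : ℚ_[2]), ?_⟩
    rw [map_ratCast]
    exact (map_ratCast τ q).symm
  exact IntermediateField.mem_bot.1 (h1 hx)

/-- Irreducibility at two. -/
theorem lirr_of {L : Type} [Field L] [NumberField L] (hk : finrank ℚ L = 3)
    (hno : IsEmpty (L →+* ℚ_[2])) {f : ℚ[X]} (hf : f.Monic) (hd : f.natDegree = 3) {θ : L}
    (hθ : aeval θ f = 0) (hirr : Irreducible f) (τ : ℚ →+* Q2bar) :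
    Irreducible (f.map (toLoc ℚ_[2] τ)) := by
  refine (irreducible_iff_roots_eq_zero_of_degree_le_three ?_ ?_).2 ?_
  · rw [hf.natDegree_map, hd]
    norm_num
  · rw [hf.natDegree_map, hd]
  · rw [Multiset.eq_zero_iff_forall_notMem]
    intro r hr
    rw [mem_roots (hf.map _).ne_zero, IsRoot, eval_map] at hr
    obtain ⟨y, hy⟩ := mem_bot_loc τ r.2
    have h1 : aeval y f = 0 := by
      apply (algebraMap ℚ_[2] Q2bar).injective
      rw [map_zero, aeval_def, hom_eval₂, hy]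
      have h2 := congrArg (algebraMap (loc ℚ_[2] τ) Q2bar) hr
      rw [map_zero, hom_eval₂] at h2
      have h3 : (algebraMap ℚ_[2] Q2bar).comp (algebraMap ℚ ℚ_[2]) =
        (algebraMap (loc ℚ_[2] τ) Q2bar).comp (toLoc ℚ_[2] τ) := Subsingleton.elim _ _
      rw [h3]
      exact h2
    exact hno.false (exists_hom hk hf hd hθ hirr h1).some

/-- Local squares and coefficients. -/
theorem coeff_of_sqAt {L : Type} [Field L] [NumberField L] (hk : finrank ℚ L = 3)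
    (hno : IsEmpty (L →+* ℚ_[2])) {g₂ g₁ g₀ : ℚ} {π : L}
    (hπ : π ^ 3 + algebraMap ℚ L g₂ * π ^ 2 + algebraMap ℚ L g₁ * π + algebraMap ℚ L g₀ = 0)
    (hirr : Irreducible (X ^ 3 + C g₂ * X ^ 2 + C g₁ * X + C g₀)) {u v w : ℚ}
    (h : SqAt ℚ_[2] Q2bar (algebraMap ℚ L u + algebraMap ℚ L v * π + algebraMap ℚ L w * π ^ 2)) :
    ∃ a b c : ℚ_[2], a ^ 2 - 2 * b * c * g₀ + c ^ 2 * (g₂ * g₀) = u ∧
      2 * a * b - 2 * b * c * g₁ + c ^ 2 * (g₂ * g₁ - g₀) = v ∧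
      b ^ 2 + 2 * a * c - 2 * b * c * g₂ + c ^ 2 * (g₂ ^ 2 - g₁) = w := by
  obtain ⟨g, hg⟩ : ∃ g, g = (X ^ 3 + C g₂ * X ^ 2 + C g₁ * X + C g₀ : ℚ[X]) := ⟨_, rfl⟩
  have hgd : g.natDegree = 3 := by
    rw [hg]
    compute_degree!
  have hgm : g.Monic := by
    rw [hg]
    monicity!
  rw [← hg] at hirr
  have hroot : aeval π g = 0 := by
    rw [hg]
    simpa using hπ
  have hmin : minpoly ℚ π = g := (minpoly.eq_of_irreducible_of_monic hirr hroot hgm).symm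
  have htop : Algebra.adjoin ℚ {π} = ⊤ := adjoin_top hmin (by rw [hgd, hk])
  let τ : L →+* Q2bar := (IsAlgClosed.lift (R := ℚ) : L →ₐ[ℚ] Q2bar)
  obtain ⟨s, hs, hs2⟩ := h τ
  obtain ⟨p, hp⟩ : ∃ p, p = τ π := ⟨_, rfl⟩
  let G : ℚ_[2][X] := g.map (algebraMap ℚ ℚ_[2])
  have hGm : G.Monic := hgm.map _
  have hGd : G.natDegree = 3 := by rw [hgm.natDegree_map, hgd]
  have hGp : aeval p G = 0 := by
    rw [aeval_map_algebraMap, hp]
    have h1 := congrArg τ hroot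
    rw [map_zero, aeval_def, hom_eval₂] at h1
    rw [aeval_def]
    have h3 : τ.comp (algebraMap ℚ L) = algebraMap ℚ Q2bar := Subsingleton.elim _ _
    rw [← h3]
    exact h1
  have hGi : Irreducible G := by
    refine (irreducible_iff_roots_eq_zero_of_degree_le_three ?_ ?_).2 ?_
    · rw [hGd]
      norm_num
    · rw [hGd]
    · rw [Multiset.eq_zero_iff_forall_notMem]
      intro r hr
      rw [mem_roots hGm.ne_zero, IsRoot, eval_map] at hr
      exact hno.false (exists_hom hk hgm hgd hroot hirr (r := r) hr).some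
  -- the field generated by `p`
  have hle : loc ℚ_[2] τ ≤ ℚ_[2]⟮p⟯ := by
    unfold loc
    rw [IntermediateField.adjoin_le_iff]
    rintro _ ⟨x, rfl⟩
    obtain ⟨y, rfl⟩ := exists_poly htop x
    have h1 : τ (aeval π y) = aeval p (y.map (algebraMap ℚ ℚ_[2])) := by
      rw [aeval_map_algebraMap, aeval_def, aeval_def, hom_eval₂, hp]
      congr 1
      exact Subsingleton.elim _ _
    rw [h1]
    have h2 : aeval p (y.map (algebraMap ℚ ℚ_[2])) ∈ Algebra.adjoin ℚ_[2] {p} := by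
      rw [Algebra.adjoin_singleton_eq_range_aeval]
      exact ⟨_, rfl⟩
    exact IntermediateField.algebra_adjoin_le_adjoin _ _ h2
  have hpint : IsIntegral ℚ_[2] p := ⟨G, hGm, hGp⟩
  let p' : ℚ_[2]⟮p⟯ := IntermediateField.AdjoinSimple.gen ℚ_[2] p
  have hminp : minpoly ℚ_[2] p' = G := by
    have h1 : minpoly ℚ_[2] p = G := (minpoly.eq_of_irreducible_of_monic hGi hGp hGm).symm
    rw [← h1]
    exact IntermediateField.minpoly_gen ℚ_[2] p
  haveI : FiniteDimensional ℚ_[2] ℚ_[2]⟮p⟯ := IntermediateField.adjoin.finiteDimensional hpint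
  have hrk : finrank ℚ_[2] ℚ_[2]⟮p⟯ = 3 := by
    rw [IntermediateField.adjoin.finrank hpint,
      (minpoly.eq_of_irreducible_of_monic hGi hGp hGm).symm, hGd]
  have htop' : Algebra.adjoin ℚ_[2] {p'} = ⊤ := adjoin_top hminp (by rw [hGd, hrk])
  have hrootp : aeval p' G = 0 := by
    rw [← hminp]
    exact minpoly.aeval _ _
  obtain ⟨a, b, c, habc⟩ := exists_quad hGm hGd hrootp htop' (⟨s, hle hs⟩ : ℚ_[2]⟮p⟯)
  have hp3 : p' ^ 3 + algebraMap ℚ_[2] ℚ_[2]⟮p⟯ g₂ * p' ^ 2 + algebraMap ℚ_[2] ℚ_[2]⟮p⟯ g₁ * p' +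
      algebraMap ℚ_[2] ℚ_[2]⟮p⟯ g₀ = 0 := by
    have h1 := hrootp
    simp only [G, hg, Polynomial.map_add, Polynomial.map_mul, Polynomial.map_pow, map_X, map_C,
      map_add, map_mul, map_pow, aeval_X, aeval_C, eq_ratCast] at h1
    simpa using h1
  have hsq : (⟨s, hle hs⟩ : ℚ_[2]⟮p⟯) ^ 2 = algebraMap ℚ_[2] ℚ_[2]⟮p⟯ u +
      algebraMap ℚ_[2] ℚ_[2]⟮p⟯ v * p' + algebraMap ℚ_[2] ℚ_[2]⟮p⟯ w * p' ^ 2 := by
    apply Subtype.ext
    change s ^ 2 = algebraMap ℚ_[2] Q2bar u + algebraMap ℚ_[2] Q2bar v * p +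
      algebraMap ℚ_[2] Q2bar w * p ^ 2
    rw [← hs2]
    simp only [map_add, map_mul, map_pow, hp, eq_ratCast, map_ratCast]
  have h0 := lin_indep (K := ℚ_[2]) (E := ℚ_[2]⟮p⟯) (θ := p')
    (u := a ^ 2 - 2 * b * c * g₀ + c ^ 2 * (g₂ * g₀) - u)
    (v := 2 * a * b - 2 * b * c * g₁ + c ^ 2 * (g₂ * g₁ - g₀) - v)
    (w := b ^ 2 + 2 * a * c - 2 * b * c * g₂ + c ^ 2 * (g₂ ^ 2 - g₁) - w) hGd hminp (by
      rw [habc] at hsq
      simp only [map_add, map_sub, map_mul, map_pow, map_ofNat]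
      linear_combination hsq - (2 * algebraMap ℚ_[2] ℚ_[2]⟮p⟯ b * algebraMap ℚ_[2] ℚ_[2]⟮p⟯ c +
        (algebraMap ℚ_[2] ℚ_[2]⟮p⟯ c) ^ 2 * (p' - algebraMap ℚ_[2] ℚ_[2]⟮p⟯ g₂)) * hp3)
  exact ⟨a, b, c, by linear_combination h0.1, by linear_combination h0.2.1,
    by linear_combination h0.2.2⟩

/-- Clearing denominators. -/
theorem exists_int (a b c : ℚ_[2]) : ∃ (k : ℕ) (a' b' c' : ℤ_[2]), 2 ^ k * a = a' ∧
    2 ^ k * b = b' ∧ 2 ^ k * c = c' := by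
  have h1 : ∀ z : ℚ_[2], ∃ k₀ : ℕ, ∀ k, k₀ ≤ k → ‖2 ^ k * z‖ ≤ 1 := by
    intro z
    have h2 : ‖(2 : ℚ_[2])‖ < 1 := by
      have := Padic.norm_p_lt_one (p := 2)
      exact_mod_cast this
    obtain ⟨k₀, hk₀⟩ := exists_pow_lt_of_lt_one (y := ‖(2 : ℚ_[2])‖) (x := (‖z‖ + 1)⁻¹)
      (by positivity) h2
    refine ⟨k₀, fun k hk => ?_⟩
    rw [norm_mul, norm_pow]
    have h3 : ‖(2 : ℚ_[2])‖ ^ k ≤ ‖(2 : ℚ_[2])‖ ^ k₀ :=
      pow_le_pow_of_le_one (norm_nonneg _) h2.le hk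
    have h4 : ‖(2 : ℚ_[2])‖ ^ k * ‖z‖ ≤ (‖z‖ + 1)⁻¹ * ‖z‖ :=
      mul_le_mul_of_nonneg_right (h3.trans hk₀.le) (norm_nonneg _)
    refine h4.trans ?_
    rw [inv_mul_le_iff₀ (by positivity), mul_one]
    linarith
  obtain ⟨k1, h1'⟩ := h1 a
  obtain ⟨k2, h2'⟩ := h1 b
  obtain ⟨k3, h3'⟩ := h1 c
  exact ⟨max k1 (max k2 k3), ⟨_, h1' _ (le_max_left _ _)⟩,
    ⟨_, h2' _ ((le_max_left _ _).trans (le_max_right _ _))⟩,
    ⟨_, h3' _ ((le_max_right _ _).trans (le_max_right _ _))⟩, rfl, rfl, rfl⟩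

end Pool.Agent.H429.T3
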