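import Pool.Agent.H429.T3.G1
import Pool.Agent.H429.T3.G2
import Pool.Graph.R_seed8.Y180.CbrtTwo

/-!
# The field of the cube root of two
-/

set_option autoImplicit false
set_option linter.all false

open IsDedekindDomain NumberField Module Polynomial WeierstrassCurve
open scoped Classical IntermediateField

namespace Pool.Agent.H429.T3

theorem sel_of {L : Type} [Field L] [NumberField L] (hk : finrank ℚ L = 3) {η : L} (hη0 : η ≠ 0)
    (hη : ¬ SqAt ℚ_[2] Q2bar η)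
    (h2 : ∀ v : HeightOneSpectrum (𝓞 ℚ), (2 : 𝓞 ℚ) ∈ v.asIdeal → OnePrime L v)
    (hcls : ∀ δ : L, δ ≠ 0 → (∃ r : ℚ, Algebra.norm ℚ δ = r ^ 2) →
      (∀ P : HeightOneSpectrum (𝓞 L), Ev P δ) → ∃ t, δ = t ^ 2 ∨ δ = η * t ^ 2) (x : L)
    (hx : Strict ℚ x) : IsSquare x := by
  obtain ⟨r, hr⟩ := hx.norm
  obtain ⟨t, ht⟩ := hcls x hx.ne ⟨r, by rw [hr, pow_two]⟩ (fun P => by
    by_cases h : (2 : 𝓞 L) ∈ P.asIdeal
    · obtain ⟨v, hv⟩ := exists_under (F := ℚ) P
      have h2v : (2 : 𝓞 ℚ) ∈ v.asIdeal := (two_mem_iff hv).2 h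
      exact ev_of_unique (by rw [hk]; decide) v hv (fun P' h' => h2 v h2v P' P h' hv) hx.ne hx.norm
    · exact hx.even P h)
  rcases ht with ht | ht
  · exact ⟨t, by rw [ht, pow_two]⟩
  · exfalso
    apply hη
    have ht0 : t ≠ 0 := by
      rintro rfl
      apply hx.ne
      rw [ht]
      ring
    have h3 : η = x * (t⁻¹) ^ 2 := by
      rw [ht]
      field_simp
    rw [h3]
    exact hx.two.mul _ _ (sqAt_sq _ _ _)

section cbrt

theorem two_dvd_of_sq {z w : ℤ_[2]} (h : z ^ 2 = 2 * w) : (2 : ℤ_[2]) ∣ z := by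
  have hp : Prime (2 : ℤ_[2]) := by
    have := PadicInt.prime_p (p := 2)
    exact_mod_cast this
  exact hp.dvd_of_dvd_pow (n := 2) ⟨w, h⟩

theorem not_two_dvd_one : ¬ (2 : ℤ_[2]) ∣ 1 := by
  have hp : Prime (2 : ℤ_[2]) := by
    have := PadicInt.prime_p (p := 2)
    exact_mod_cast this
  exact fun h => hp.not_isUnit (isUnit_of_dvd_one h)

theorem desc_cbrt (k : ℕ) : ∀ a b c : ℤ_[2], a ^ 2 + 4 * b * c = -4 ^ k →
    2 * a * b + 2 * c ^ 2 = 4 ^ k → b ^ 2 + 2 * a * c = 0 → False := by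
  induction k with
  | zero =>
    intro a b c h1 h2 h3
    exact not_two_dvd_one ⟨a * b + c ^ 2, by rw [pow_zero] at h2; linear_combination -h2⟩
  | succ k ih =>
    intro a b c h1 h2 h3
    obtain ⟨a', rfl⟩ := two_dvd_of_sq (z := a) (w := -2 * 4 ^ k - 2 * b * c)
      (by rw [pow_succ] at h1; linear_combination h1)
    obtain ⟨b', rfl⟩ := two_dvd_of_sq (z := b) (w := -2 * a' * c) (by linear_combination h3)
    have h20 : (2 : ℤ_[2]) ≠ 0 := two_ne_zero
    obtain ⟨c', rfl⟩ := two_dvd_of_sq (z := c) (w := 4 ^ k - 2 * a' * b') (by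
      apply mul_left_cancel₀ h20
      rw [pow_succ] at h2
      linear_combination h2)
    have h40 : (4 : ℤ_[2]) ≠ 0 := by norm_num
    refine ih a' b' c' ?_ ?_ ?_ <;> apply mul_left_cancel₀ h40
    · rw [pow_succ] at h1
      linear_combination h1
    · rw [pow_succ] at h2
      linear_combination h2
    · linear_combination h3

theorem coe_inj2 : Function.Injective (PadicInt.Coe.ringHom (p := 2)) := Subtype.coe_injective

theorem coe_apply2 (z : ℤ_[2]) : PadicInt.Coe.ringHom (p := 2) z = (z : ℚ_[2]) := rfl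

theorem nosq_cbrt (a b c : ℚ_[2]) (h1 : a ^ 2 + 4 * b * c = -1) (h2 : 2 * a * b + 2 * c ^ 2 = 1)
    (h3 : b ^ 2 + 2 * a * c = 0) : False := by
  obtain ⟨k, a', b', c', ha, hb, hc⟩ := exists_int a b c
  have h4 : (4 : ℚ_[2]) ^ k = 2 ^ k * 2 ^ k := by
    rw [← mul_pow]
    norm_num
  refine desc_cbrt k a' b' c' ?_ ?_ ?_ <;> apply coe_inj2 <;>
    simp only [map_add, map_sub, map_neg, map_mul, map_pow, map_ofNat, map_zero, map_one, coe_apply2] <;>
    simp only [← ha, ← hb, ← hc]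
  · rw [h4]
    linear_combination (2 ^ k * 2 ^ k : ℚ_[2]) * h1
  · rw [h4]
    linear_combination (2 ^ k * 2 ^ k : ℚ_[2]) * h2
  · linear_combination (2 ^ k * 2 ^ k : ℚ_[2]) * h3

theorem no_hom_cbrt {L : Type} [Field L] {π : L} (hπ : π ^ 3 = 2) : IsEmpty (L →+* ℚ_[2]) := by
  refine ⟨fun φ => ?_⟩
  have h1 : (φ π) ^ 3 = 2 := by rw [← map_pow, hπ, map_ofNat]
  have h2 : ‖φ π‖ ^ 3 = ‖(2 : ℚ_[2])‖ := by rw [← norm_pow, h1]
  have h3 : ‖(2 : ℚ_[2])‖ = (2 : ℝ)⁻¹ := by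
    have := Padic.norm_p (p := 2)
    exact_mod_cast this
  have hne : φ π ≠ 0 := by
    intro h
    rw [h] at h1
    norm_num at h1
  rw [Padic.norm_eq_zpow_neg_valuation (p := 2) hne, h3] at h2
  have h4 : ((2 : ℕ) : ℝ) ^ ((-(φ π).valuation) * 3) = ((2 : ℕ) : ℝ) ^ (-1 : ℤ) := by
    rw [zpow_mul, zpow_neg_one]
    exact_mod_cast h2
  have h5 := zpow_right_injective₀ (a := ((2 : ℕ) : ℝ)) (by norm_num) (by norm_num) h4
  omega

variable {L : Type} [Field L] [NumberField L]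

theorem nonsq_cbrt (hk : finrank ℚ L = 3) {π : L} (hπ : π ^ 3 = 2) :
    ¬ SqAt ℚ_[2] Q2bar (π - 1) := by
  intro h
  have hirr : Irreducible (X ^ 3 + C (0 : ℚ) * X ^ 2 + C (0 : ℚ) * X + C (-2 : ℚ)) := by
    have h1 := X_pow_sub_C_irreducible_of_prime Nat.prime_three Y180.Cbrt.no_cube
    have h2 : (X ^ 3 + C (0 : ℚ) * X ^ 2 + C (0 : ℚ) * X + C (-2 : ℚ)) = X ^ 3 - C 2 := by
      simp only [map_zero, map_neg]
      ring
    rw [h2]
    exact h1
  obtain ⟨a, b, c, h1, h2, h3⟩ := coeff_of_sqAt hk (no_hom_cbrt hπ) (g₂ := 0) (g₁ := 0)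
    (g₀ := -2) (π := π) (by
      simp only [map_zero, map_neg, map_ofNat]
      linear_combination hπ) hirr (u := -1) (v := 1) (w := 0) (by
      convert h using 1
      simp only [map_zero, map_neg, map_one]
      ring)
  push_cast at h1 h2 h3
  exact nosq_cbrt a b c (by linear_combination h1) (by linear_combination h2)
    (by linear_combination h3)

end cbrt

end Pool.Agent.H429.T3
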