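import Pool.Agent.H429.T3.G3

/-!
# Complex cubic fields of odd class number
-/

set_option autoImplicit false
set_option linter.all false

open IsDedekindDomain NumberField Module Polynomial WeierstrassCurve
open scoped Classical IntermediateField

namespace Pool.Agent.H429.T3

section cls

variable {L : Type} [Field L] [NumberField L]

theorem unit_mul_sq (hodd : Odd (NumberField.classNumber L)) {x : L} (hx : x ≠ 0)
    (hv : ∀ P : HeightOneSpectrum (𝓞 L), Ev P x) : ∃ (u : (𝓞 L)ˣ) (t : L),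
      x = algebraMap (𝓞 L) L u * t ^ 2 := by
  obtain ⟨a, b, hb, hab⟩ := IsFractionRing.div_surjective (A := 𝓞 L) x
  have hb0 : b ≠ 0 := nonZeroDivisors.ne_zero hb
  have hbL : algebraMap (𝓞 L) L b ≠ 0 := by simpa using hb0
  have ha0 : a ≠ 0 := by
    rintro rfl
    rw [map_zero, zero_div] at hab
    exact hx hab.symm
  have hz : algebraMap (𝓞 L) L (a * b) = x * (algebraMap (𝓞 L) L b) ^ 2 := by
    rw [← hab, map_mul]
    field_simp
  have hab0 : a * b ≠ 0 := mul_ne_zero ha0 hb0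
  have hspan : Ideal.span {a * b} ≠ ⊥ := by
    rw [Ne, Ideal.span_singleton_eq_bot]
    exact hab0
  have hmk0 : Associates.mk (Ideal.span {a * b}) ≠ 0 := by
    rw [Ne, Associates.mk_eq_zero]
    exact hspan
  obtain ⟨c, hc⟩ := Associates.is_pow_of_dvd_count (k := 2) hmk0 (by
    intro p hp
    obtain ⟨P, rfl⟩ := Associates.mk_surjective p
    rw [Associates.irreducible_mk] at hp
    have hP0 : P ≠ ⊥ := hp.ne_zero
    let 𝔓 : HeightOneSpectrum (𝓞 L) := ⟨P, Ideal.isPrime_of_prime hp.prime, hP0⟩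
    have h1 : 𝔓.valuation L (algebraMap (𝓞 L) L (a * b)) =
        WithZero.exp (-((Associates.mk 𝔓.asIdeal).count
          (Associates.mk (Ideal.span {a * b})).factors : ℤ)) := by
      rw [HeightOneSpectrum.valuation_of_algebraMap, HeightOneSpectrum.intValuation_if_neg _ hab0]
    have h2 := (hv 𝔓)
    rw [← ev_mul_sq_iff hx hbL, ← hz, ev_iff h1, even_neg, Int.even_coe_nat] at h2
    exact even_iff_two_dvd.1 h2)
  obtain ⟨J, rfl⟩ := Associates.mk_surjective c
  rw [← Associates.mk_pow, Associates.mk_eq_mk_iff_associated, associated_iff_eq] at hc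
  have hJ0 : J ≠ ⊥ := by
    rintro rfl
    rw [hc] at hspan
    exact hspan (by rw [pow_two, Ideal.bot_mul])
  have hJp : J.IsPrincipal := by
    have hJm : J ∈ nonZeroDivisors (Ideal (𝓞 L)) := mem_nonZeroDivisors_of_ne_zero hJ0
    rw [← ClassGroup.mk0_eq_one_iff hJm]
    have h1 : ClassGroup.mk0 (⟨J, hJm⟩ : nonZeroDivisors (Ideal (𝓞 L))) ^ 2 = 1 := by
      rw [← map_pow]
      have h2 : (⟨J, hJm⟩ : nonZeroDivisors (Ideal (𝓞 L))) ^ 2 =
          ⟨J ^ 2, pow_mem hJm 2⟩ := rfl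
      rw [h2, ClassGroup.mk0_eq_one_iff (pow_mem hJm 2), ← hc]
      exact ⟨⟨_, rfl⟩⟩
    have h2 := orderOf_dvd_of_pow_eq_one h1
    have h3 : orderOf (ClassGroup.mk0 (⟨J, hJm⟩ : nonZeroDivisors (Ideal (𝓞 L)))) ∣
        NumberField.classNumber L := orderOf_dvd_card
    rw [← orderOf_eq_one_iff]
    refine Nat.eq_one_of_dvd_coprimes ?_ h2 h3
    exact Nat.coprime_two_left.2 hodd
  obtain ⟨⟨t, ht⟩⟩ := hJp
  change J = Ideal.span {t} at ht
  rw [ht, Ideal.span_singleton_pow, Ideal.span_singleton_eq_span_singleton] at hc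
  obtain ⟨u, hu⟩ := hc.symm
  refine ⟨u, algebraMap (𝓞 L) L t / algebraMap (𝓞 L) L b, ?_⟩
  have h1 : x * (algebraMap (𝓞 L) L b) ^ 2 = algebraMap (𝓞 L) L u * (algebraMap (𝓞 L) L t) ^ 2 := by
    rw [← hz, ← hu, map_mul, map_pow]
    ring
  field_simp
  linear_combination h1

theorem units_gen (hk : finrank ℚ L = 3) (hc : InfinitePlace.nrComplexPlaces L ≠ 0) :
    ∃ η : (𝓞 L)ˣ, ∀ x : (𝓞 L)ˣ, ∃ n : ℤ, x = η ^ n ∨ x = -η ^ n := by
  have hrank : Units.rank L = 1 := by
    have h1 := InfinitePlace.card_add_two_mul_card_eq_rank L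
    rw [hk] at h1
    have h2 := InfinitePlace.card_eq_nrRealPlaces_add_nrComplexPlaces L
    have : Fintype.card (InfinitePlace L) = 2 := by
      rw [h2]
      omega
    unfold Units.rank
    rw [this]
  have hs : Subsingleton (Fin (Units.rank L)) := by rw [hrank]; infer_instance
  let i0 : Fin (Units.rank L) := ⟨0, by rw [hrank]; exact one_pos⟩
  refine ⟨Units.fundSystem L i0, fun x => ?_⟩
  obtain ⟨⟨ζ, e⟩, hx, -⟩ := Units.exist_unique_eq_mul_prod L x
  rw [Fintype.prod_subsingleton _ i0] at hx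
  refine ⟨e i0, ?_⟩
  rcases Units.torsion_eq_one_or_neg_one_of_odd_finrank (by rw [hk]; decide) ζ with h | h
  · left
    rw [hx, h, one_mul]
  · right
    rw [hx, h, neg_one_mul]

/-- Units modulo squares. -/
theorem units_cls (hk : finrank ℚ L = 3) (hc : InfinitePlace.nrComplexPlaces L ≠ 0)
    (ε : (𝓞 L)ˣ) (h1 : ∀ s : (𝓞 L)ˣ, ε ≠ s ^ 2) (h2 : ∀ s : (𝓞 L)ˣ, ε ≠ -s ^ 2) (x : (𝓞 L)ˣ) :
    ∃ s : (𝓞 L)ˣ, x = s ^ 2 ∨ x = -s ^ 2 ∨ x = ε * s ^ 2 ∨ x = -(ε * s ^ 2) := by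
  obtain ⟨η, hη⟩ := units_gen hk hc
  obtain ⟨m, hm⟩ := hη ε
  have hmo : ¬ Even m := by
    rintro ⟨r, hr⟩
    have e1 : η ^ m = (η ^ r) ^ 2 := by rw [hr, zpow_add, pow_two]
    rw [e1] at hm
    rcases hm with h | h
    · exact h1 _ h
    · exact h2 _ h
  obtain ⟨n, hn⟩ := hη x
  by_cases hne : Even n
  · obtain ⟨r, hr⟩ := hne
    have e1 : η ^ n = (η ^ r) ^ 2 := by rw [hr, zpow_add, pow_two]
    rw [e1] at hn
    rcases hn with h | h
    · exact ⟨η ^ r, Or.inl h⟩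
    · exact ⟨η ^ r, Or.inr (Or.inl h)⟩
  · obtain ⟨r, hr⟩ : Even (n - m) := by
      rw [Int.even_sub]
      exact ⟨fun h => absurd h hne, fun h => absurd h hmo⟩
    have e1 : η ^ n = η ^ m * (η ^ r) ^ 2 := by
      rw [← zpow_natCast, ← zpow_mul, ← zpow_add]
      congr 1
      push_cast
      omega
    refine ⟨η ^ r, ?_⟩
    rcases hm with h1 | h1 <;> rcases hn with h2 | h2
    · right; right; left
      rw [h2, e1, h1]
    · right; right; right
      rw [h2, e1, h1]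
    · right; right; right
      rw [h2, e1, h1]
      simp
    · right; right; left
      rw [h2, e1, h1]
      simp

/-- The criterion for cubic fields with a complex place. -/
theorem cls_of (hk : finrank ℚ L = 3) (hc : InfinitePlace.nrComplexPlaces L ≠ 0)
    (hodd : Odd (NumberField.classNumber L)) (ε : (𝓞 L)ˣ)
    (hε : Algebra.norm ℚ (algebraMap (𝓞 L) L ε) = 1)
    (hns : ¬ IsSquare (algebraMap (𝓞 L) L ε)) (δ : L) (hδ : δ ≠ 0)
    (hN : ∃ r : ℚ, Algebra.norm ℚ δ = r ^ 2) (hv : ∀ P : HeightOneSpectrum (𝓞 L), Ev P δ) :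
    ∃ t, δ = t ^ 2 ∨ δ = algebraMap (𝓞 L) L ε * t ^ 2 := by
  obtain ⟨u, t, hut⟩ := unit_mul_sq hodd hδ hv
  have hneg : Algebra.norm ℚ (-1 : L) = -1 := by
    have := Algebra.norm_algebraMap (S := L) (-1 : ℚ)
    rw [hk] at this
    have e : ((-1 : ℚ)) ^ 3 = -1 := by norm_num
    rw [e] at this
    simpa using this
  have ht0 : t ≠ 0 := by
    rintro rfl
    apply hδ
    rw [hut]
    ring
  have hpos : ∀ z : L, z ≠ 0 → 0 < (Algebra.norm ℚ z) ^ 2 := by
    intro z hz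
    have : Algebra.norm ℚ z ≠ 0 := Algebra.norm_ne_zero_iff.2 hz
    positivity
  obtain ⟨r, hr⟩ := hN
  have hu0 : ∀ s : (𝓞 L)ˣ, algebraMap (𝓞 L) L s ≠ 0 := by
    intro s
    have : (s : 𝓞 L) ≠ 0 := s.ne_zero
    simpa using this
  obtain ⟨s, hs⟩ := units_cls hk hc ε (fun s h => hns ⟨algebraMap (𝓞 L) L s, by
    rw [h, Units.val_pow_eq_pow_val, map_pow, pow_two]⟩) (fun s h => by
      rw [h, Units.val_neg, Units.val_pow_eq_pow_val, map_neg, ← neg_one_mul, map_mul, hneg,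
        map_pow, map_pow] at hε
      have := hpos _ (hu0 s)
      nlinarith) u
  have hst := hpos _ (mul_ne_zero (hu0 s) ht0)
  rcases hs with h | h | h | h
  · refine ⟨algebraMap (𝓞 L) L s * t, Or.inl ?_⟩
    rw [hut, h, Units.val_pow_eq_pow_val, map_pow]
    ring
  · exfalso
    have h1 : δ = -1 * (algebraMap (𝓞 L) L s * t) ^ 2 := by
      rw [hut, h, Units.val_neg, Units.val_pow_eq_pow_val, map_neg, map_pow]
      ring
    rw [h1, map_mul, map_pow, hneg] at hr
    nlinarith [sq_nonneg r]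
  · refine ⟨algebraMap (𝓞 L) L s * t, Or.inr ?_⟩
    rw [hut, h, Units.val_mul, Units.val_pow_eq_pow_val, map_mul, map_pow]
    ring
  · exfalso
    have h1 : δ = -1 * (algebraMap (𝓞 L) L ε * (algebraMap (𝓞 L) L s * t) ^ 2) := by
      rw [hut, h, Units.val_neg, Units.val_mul, Units.val_pow_eq_pow_val, map_neg, map_mul, map_pow]
      ring
    rw [h1, map_mul, map_mul, map_pow, hneg, hε] at hr
    nlinarith [sq_nonneg r]

end cls

end Pool.Agent.H429.T3
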