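import Pool.Agent.H429.T3.G5
import Pool.Graph.R_seed8.W413.MZ.Disc

/-!
# Six cubic fields generated by a unit
-/

set_option autoImplicit false
set_option linter.all false

open IsDedekindDomain NumberField Module Polynomial WeierstrassCurve
open scoped Classical IntermediateField

namespace Pool.Agent.H429.T3

/-- The six cubic polynomials `x ^ 3 + g₂ x ^ 2 + g₁ x - 1`, of discriminants
`-23, -31, -44, -76, -87, -108`. -/
def Six (g₂ g₁ : ℤ) : Prop :=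
  (g₂ = 0 ∧ g₁ = -1) ∨ (g₂ = 0 ∧ g₁ = 1) ∨ (g₂ = 1 ∧ g₁ = 1) ∨ (g₂ = -1 ∧ g₁ = 3) ∨
    (g₂ = 1 ∧ g₁ = 2) ∨ (g₂ = 3 ∧ g₁ = 3)

theorem Six.no_root4 {g₂ g₁ : ℤ} (h : Six g₂ g₁) (x : ZMod (2 ^ 2)) :
    x ^ 3 + g₂ * x ^ 2 + g₁ * x - 1 ≠ 0 := by
  rcases h with ⟨rfl, rfl⟩ | ⟨rfl, rfl⟩ | ⟨rfl, rfl⟩ | ⟨rfl, rfl⟩ | ⟨rfl, rfl⟩ | ⟨rfl, rfl⟩ <;>
    revert x <;> decide

theorem Six.loc4 {g₂ g₁ : ℤ} (h : Six g₂ g₁) (a b c : ZMod (2 ^ 2)) :
    (a ^ 2 + 2 * b * c - c ^ 2 * (g₂ : ZMod (2 ^ 2)) = 0 → b ^ 2 + 2 * a * c - 2 * b * c *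
      (g₂ : ZMod (2 ^ 2)) + c ^ 2 * ((g₂ : ZMod (2 ^ 2)) ^ 2 - (g₁ : ZMod (2 ^ 2))) = 0 →
      2 * a * b - 2 * b * c * (g₁ : ZMod (2 ^ 2)) + c ^ 2 * ((g₂ : ZMod (2 ^ 2)) *
        (g₁ : ZMod (2 ^ 2)) + 1) ≠ 1) ∧
    (a ^ 2 + 2 * b * c - c ^ 2 * (g₂ : ZMod (2 ^ 2)) = 0 → b ^ 2 + 2 * a * c - 2 * b * c *
      (g₂ : ZMod (2 ^ 2)) + c ^ 2 * ((g₂ : ZMod (2 ^ 2)) ^ 2 - (g₁ : ZMod (2 ^ 2))) = 0 →
      2 * a * b - 2 * b * c * (g₁ : ZMod (2 ^ 2)) + c ^ 2 * ((g₂ : ZMod (2 ^ 2)) *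
        (g₁ : ZMod (2 ^ 2)) + 1) = 0 → 2 * a = 0 ∧ 2 * b = 0 ∧ 2 * c = 0) := by
  rcases h with ⟨rfl, rfl⟩ | ⟨rfl, rfl⟩ | ⟨rfl, rfl⟩ | ⟨rfl, rfl⟩ | ⟨rfl, rfl⟩ | ⟨rfl, rfl⟩ <;>
    revert a b c <;> decide

theorem two_dvd_of_four {a : ℤ_[2]} (h : PadicInt.toZModPow (p := 2) 2 (2 * a) = 0) :
    ∃ b, a = 2 * b := by
  rw [← RingHom.mem_ker, PadicInt.ker_toZModPow, Ideal.mem_span_singleton] at h
  obtain ⟨b, hb⟩ := h
  refine ⟨b, ?_⟩
  have h2 : (2 : ℤ_[2]) ≠ 0 := two_ne_zero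
  apply mul_left_cancel₀ h2
  rw [hb]
  push_cast
  ring

theorem Six.desc {g₂ g₁ : ℤ} (h : Six g₂ g₁) (k : ℕ) : ∀ a b c : ℤ_[2],
    a ^ 2 + 2 * b * c - c ^ 2 * g₂ = 0 →
    b ^ 2 + 2 * a * c - 2 * b * c * g₂ + c ^ 2 * (g₂ ^ 2 - g₁) = 0 →
    2 * a * b - 2 * b * c * g₁ + c ^ 2 * (g₂ * g₁ + 1) = 4 ^ k → False := by
  induction k with
  | zero =>
    intro a b c h1 h2 h3
    have e1 := congrArg (PadicInt.toZModPow (p := 2) 2) h1
    have e2 := congrArg (PadicInt.toZModPow (p := 2) 2) h2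
    have e3 := congrArg (PadicInt.toZModPow (p := 2) 2) h3
    simp only [map_add, map_sub, map_mul, map_pow, map_ofNat, map_zero, map_one, map_intCast,
      pow_zero] at e1 e2 e3
    exact (h.loc4 _ _ _).1 e1 e2 e3
  | succ k ih =>
    intro a b c h1 h2 h3
    have e1 := congrArg (PadicInt.toZModPow (p := 2) 2) h1
    have e2 := congrArg (PadicInt.toZModPow (p := 2) 2) h2
    have e3 := congrArg (PadicInt.toZModPow (p := 2) 2) h3
    simp only [map_add, map_sub, map_mul, map_pow, map_ofNat, map_zero, map_one, map_intCast]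
      at e1 e2 e3
    have h40 : (4 : ZMod (2 ^ 2)) ^ (k + 1) = 0 := by
      have : (4 : ZMod (2 ^ 2)) = 0 := by decide
      rw [this, zero_pow (Nat.succ_ne_zero k)]
    rw [h40] at e3
    obtain ⟨ha, hb, hc⟩ := (h.loc4 _ _ _).2 e1 e2 e3
    obtain ⟨a, rfl⟩ := two_dvd_of_four (a := a) (by rw [map_mul, map_ofNat]; exact ha)
    obtain ⟨b, rfl⟩ := two_dvd_of_four (a := b) (by rw [map_mul, map_ofNat]; exact hb)
    obtain ⟨c, rfl⟩ := two_dvd_of_four (a := c) (by rw [map_mul, map_ofNat]; exact hc)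
    have h4 : (4 : ℤ_[2]) ≠ 0 := by norm_num
    refine ih a b c ?_ ?_ ?_ <;> apply mul_left_cancel₀ h4
    · linear_combination h1
    · linear_combination h2
    · rw [pow_succ] at h3
      linear_combination h3

theorem Six.no_hom {g₂ g₁ : ℤ} (h : Six g₂ g₁) {L : Type} [Field L] {π : L}
    (hπ : π ^ 3 + g₂ * π ^ 2 + g₁ * π - 1 = 0) : IsEmpty (L →+* ℚ_[2]) := by
  refine ⟨fun φ => ?_⟩
  have h1 : (φ π) ^ 3 + g₂ * (φ π) ^ 2 + g₁ * φ π - 1 = 0 := by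
    have := congrArg φ hπ
    simpa using this
  have hint : ‖φ π‖ ≤ 1 := by
    by_contra hlt
    push Not at hlt
    have hg2 : ‖(g₂ : ℚ_[2])‖ ≤ 1 := Padic.norm_int_le_one _
    have hg1 : ‖(g₁ : ℚ_[2])‖ ≤ 1 := Padic.norm_int_le_one _
    have h2 : (φ π) ^ 3 = -(g₂ * (φ π) ^ 2 + (g₁ * φ π + -1)) := by linear_combination h1
    have h3 : ‖(φ π) ^ 3‖ ≤ ‖φ π‖ ^ 2 := by
      rw [h2, norm_neg]
      refine (Padic.nonarchimedean _ _).trans (max_le ?_ ((Padic.nonarchimedean _ _).trans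
        (max_le ?_ ?_)))
      · rw [norm_mul, norm_pow]
        exact mul_le_of_le_one_left (by positivity) hg2
      · rw [norm_mul]
        refine (mul_le_of_le_one_left (norm_nonneg _) hg1).trans ?_
        nlinarith
      · rw [norm_neg, norm_one]
        nlinarith
    rw [norm_pow] at h3
    nlinarith [mul_pos (zero_lt_one.trans hlt) (zero_lt_one.trans hlt)]
  obtain ⟨z, hz⟩ : ∃ z : ℤ_[2], (z : ℚ_[2]) = φ π := ⟨⟨_, hint⟩, rfl⟩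
  have h2 : z ^ 3 + g₂ * z ^ 2 + g₁ * z - 1 = 0 := by
    apply coe_inj2
    simp only [map_add, map_sub, map_mul, map_pow, map_zero, map_one, map_intCast, coe_apply2]
    rw [hz]
    exact h1
  have h3 := congrArg (PadicInt.toZModPow (p := 2) 2) h2
  simp only [map_add, map_sub, map_mul, map_pow, map_zero, map_one, map_intCast] at h3
  exact h.no_root4 _ h3

/-- The polynomial over the rational numbers. -/
noncomputable def gQ (g₂ g₁ : ℤ) : ℚ[X] := X ^ 3 + C (g₂ : ℚ) * X ^ 2 + C (g₁ : ℚ) * X + C (-1 : ℚ)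

theorem gQ_monic (g₂ g₁ : ℤ) : (gQ g₂ g₁).Monic := by
  unfold gQ
  monicity!

theorem gQ_deg (g₂ g₁ : ℤ) : (gQ g₂ g₁).natDegree = 3 := by
  unfold gQ
  compute_degree!

theorem aeval_gQ (g₂ g₁ : ℤ) {E : Type} [Field E] [Algebra ℚ E] (x : E) :
    aeval x (gQ g₂ g₁) = x ^ 3 + g₂ * x ^ 2 + g₁ * x - 1 := by
  simp [gQ]
  ring

theorem Six.irr {g₂ g₁ : ℤ} (h : Six g₂ g₁) : Irreducible (gQ g₂ g₁) := by
  refine (irreducible_iff_roots_eq_zero_of_degree_le_three ?_ ?_).2 ?_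
  · rw [gQ_deg]
    norm_num
  · rw [gQ_deg]
  · rw [Multiset.eq_zero_iff_forall_notMem]
    intro r hr
    rw [mem_roots (gQ_monic _ _).ne_zero, IsRoot] at hr
    have h1 : aeval r (gQ g₂ g₁) = 0 := by
      rw [← hr]
      rfl
    rw [aeval_gQ] at h1
    exact (h.no_hom h1).false (algebraMap ℚ ℚ_[2])

variable {L : Type} [Field L] [NumberField L]

theorem Six.nonsq {g₂ g₁ : ℤ} (h : Six g₂ g₁) (hk : finrank ℚ L = 3) {π : L}
    (hπ : π ^ 3 + g₂ * π ^ 2 + g₁ * π - 1 = 0) : ¬ SqAt ℚ_[2] Q2bar π := by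
  intro hs
  obtain ⟨a, b, c, h1, h2, h3⟩ := coeff_of_sqAt hk (h.no_hom hπ) (g₂ := g₂) (g₁ := g₁)
    (g₀ := -1) (π := π) (by
      simp only [map_neg, map_one, map_intCast]
      linear_combination hπ) h.irr (u := 0) (v := 1) (w := 0) (by
      convert hs using 1
      simp only [map_zero, map_one]
      ring)
  push_cast at h1 h2 h3
  obtain ⟨k, a', b', c', ha, hb, hc⟩ := exists_int a b c
  have h4 : (4 : ℚ_[2]) ^ k = 2 ^ k * 2 ^ k := by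
    rw [← mul_pow]
    norm_num
  refine h.desc k a' b' c' ?_ ?_ ?_ <;> apply coe_inj2 <;>
    simp only [map_add, map_sub, map_neg, map_mul, map_pow, map_ofNat, map_zero, map_one,
      map_intCast, coe_apply2] <;> simp only [← ha, ← hb, ← hc]
  · linear_combination (2 ^ k * 2 ^ k : ℚ_[2]) * h1
  · linear_combination (2 ^ k * 2 ^ k : ℚ_[2]) * h3
  · rw [h4]
    linear_combination (2 ^ k * 2 ^ k : ℚ_[2]) * h2

end Pool.Agent.H429.T3
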