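import Pool.Agent.H429.T3.G6

/-!
# Six cubic fields generated by a unit: discriminants, class numbers, primes
-/

set_option autoImplicit false
set_option linter.all false

open IsDedekindDomain NumberField Module Polynomial WeierstrassCurve
open scoped Classical IntermediateField

namespace Pool.Agent.H429.T3

variable {L : Type} [Field L] [NumberField L]

theorem Six.exists_basis {g₂ g₁ : ℤ} (h : Six g₂ g₁) (hk : finrank ℚ L = 3) {π : L}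
    (hπ : π ^ 3 + g₂ * π ^ 2 + g₁ * π - 1 = 0) :
    ∃ b : Basis (Fin 3) ℚ L, ∀ i, b i = π ^ (i : ℕ) := by
  have hroot : aeval π (gQ g₂ g₁) = 0 := by rw [aeval_gQ, hπ]
  have h1 : (minpoly ℚ π).natDegree = 3 := by
    rw [← minpoly.eq_of_irreducible_of_monic h.irr hroot (gQ_monic _ _), gQ_deg]
  have h2 := linearIndependent_pow (K := ℚ) π
  rw [h1] at h2
  let b := basisOfLinearIndependentOfCardEqFinrank h2 (by simp [hk])
  refine ⟨b, fun i => ?_⟩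
  simp [b]

/-- The structure constants. -/
def cc (g₂ g₁ : ℤ) (i j l : Fin 3) : ℤ :=
  if (i : ℕ) + j = 3 then ![1, -g₁, -g₂] l
  else if (i : ℕ) + j = 4 then ![-g₂, g₂ * g₁ + 1, g₂ ^ 2 - g₁] l
  else if (i : ℕ) + j = l then 1 else 0

theorem Six.discr_b {g₂ g₁ : ℤ} (h : Six g₂ g₁) {π : L}
    (hπ : π ^ 3 + g₂ * π ^ 2 + g₁ * π - 1 = 0) (b : Basis (Fin 3) ℚ L)
    (hb : ∀ i, b i = π ^ (i : ℕ)) :
    Algebra.discr ℚ b = ((g₂ ^ 2 * g₁ ^ 2 - 4 * g₁ ^ 3 + 4 * g₂ ^ 3 - 27 - 18 * g₂ * g₁ : ℤ) : ℚ) := by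
  rw [MZ413.discr_of_struct b (cc g₂ g₁)]
  · congr 1
    rcases h with ⟨rfl, rfl⟩ | ⟨rfl, rfl⟩ | ⟨rfl, rfl⟩ | ⟨rfl, rfl⟩ | ⟨rfl, rfl⟩ | ⟨rfl, rfl⟩ <;>
      decide
  · intro i j
    rw [Fin.sum_univ_three]
    simp only [hb]
    fin_cases i <;> fin_cases j <;> simp [cc]
    · ring
    · linear_combination hπ
    · linear_combination hπ
    · linear_combination (π - g₂) * hπ

theorem Six.discr_facts {g₂ g₁ : ℤ} (h : Six g₂ g₁) (hk : finrank ℚ L = 3) {π : L}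
    (hπ : π ^ 3 + g₂ * π ^ 2 + g₁ * π - 1 = 0) : discr L < 0 ∧ |discr L| ≤ 108 := by
  obtain ⟨b, hb⟩ := h.exists_basis hk hπ
  have hint : IsIntegral ℤ π := ⟨X ^ 3 + C g₂ * X ^ 2 + C g₁ * X - C 1, by monicity!, by
    rw [eval₂_sub, eval₂_add, eval₂_add, eval₂_mul, eval₂_mul, eval₂_pow, eval₂_pow, eval₂_X,
      eval₂_C, eval₂_C, eval₂_C, eq_intCast, eq_intCast, eq_intCast, Int.cast_one]
    exact hπ⟩
  let p : 𝓞 L := ⟨π, hint⟩
  obtain ⟨m, hm, hm0, -⟩ := MZ413.exists_index b (fun i => p ^ (i : ℕ)) (fun i => by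
    rw [hb, map_pow]; rfl) _ (h.discr_b hπ b hb)
  have hm2 : 1 ≤ m ^ 2 := by
    have : 0 < m ^ 2 := by positivity
    omega
  have hD : g₂ ^ 2 * g₁ ^ 2 - 4 * g₁ ^ 3 + 4 * g₂ ^ 3 - 27 - 18 * g₂ * g₁ < 0 ∧
      -108 ≤ g₂ ^ 2 * g₁ ^ 2 - 4 * g₁ ^ 3 + 4 * g₂ ^ 3 - 27 - 18 * g₂ * g₁ := by
    rcases h with ⟨rfl, rfl⟩ | ⟨rfl, rfl⟩ | ⟨rfl, rfl⟩ | ⟨rfl, rfl⟩ | ⟨rfl, rfl⟩ | ⟨rfl, rfl⟩ <;>
      norm_num
  rw [← hm] at hD
  have hneg : discr L < 0 := by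
    by_contra h
    push Not at h
    nlinarith
  refine ⟨hneg, ?_⟩
  rw [abs_of_neg hneg]
  nlinarith

theorem Six.places {g₂ g₁ : ℤ} (h : Six g₂ g₁) (hk : finrank ℚ L = 3) {π : L}
    (hπ : π ^ 3 + g₂ * π ^ 2 + g₁ * π - 1 = 0) :
    InfinitePlace.nrComplexPlaces L = 1 := by
  have h1 := InfinitePlace.card_add_two_mul_card_eq_rank L
  rw [hk] at h1
  have h2 : InfinitePlace.nrComplexPlaces L ≠ 0 := by
    intro h'
    have h3 := NumberField.sign_discr L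
    rw [h', pow_zero] at h3
    have h4 := (h.discr_facts hk hπ).1
    rw [Int.sign_eq_one_iff_pos] at h3
    omega
  omega

theorem Six.norm_sub {g₂ g₁ : ℤ} (h : Six g₂ g₁) (hk : finrank ℚ L = 3) {π : L}
    (hπ : π ^ 3 + g₂ * π ^ 2 + g₁ * π - 1 = 0) (n : ℤ) :
    Algebra.norm ℚ ((n : L) - π) = n ^ 3 + g₂ * n ^ 2 + g₁ * n - 1 := by
  have hroot : aeval π (gQ g₂ g₁) = 0 := by rw [aeval_gQ, hπ]
  have hmin : minpoly ℚ π = gQ g₂ g₁ :=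
    (minpoly.eq_of_irreducible_of_monic h.irr hroot (gQ_monic _ _)).symm
  have htop : Algebra.adjoin ℚ {π} = ⊤ := adjoin_top hmin (by rw [gQ_deg, hk])
  have h1 := T3.norm_sub hmin htop (n : ℚ)
  rw [map_intCast] at h1
  rw [h1]
  simp [gQ]
  ring

theorem absNorm_of {α : 𝓞 L} {n : ℤ} (h : Algebra.norm ℚ (algebraMap (𝓞 L) L α) = n) :
    Ideal.absNorm (Ideal.span {α}) = n.natAbs := by
  rw [Ideal.absNorm_span_singleton]
  have h1 : (Algebra.norm ℤ α : ℚ) = n := by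
    rw [Algebra.coe_norm_int]
    exact h
  have h2 : Algebra.norm ℤ α = n := by exact_mod_cast h1
  rw [h2]

/-- Either the cubic polynomial has no zero modulo two, or there is an element of norm two. -/
theorem Six.at_two {g₂ g₁ : ℤ} (h : Six g₂ g₁) (hk : finrank ℚ L = 3) {p : 𝓞 L}
    (hp : p ^ 3 + g₂ * p ^ 2 + g₁ * p - 1 = 0) :
    (∀ x : ZMod 2, x ^ 3 + g₂ * x ^ 2 + g₁ * x - 1 ≠ 0) ∨
    ∃ α : 𝓞 L, Ideal.absNorm (Ideal.span {α}) = 2 ∧ (2 : 𝓞 L) ∣ α ^ 3 := by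
  have hπ : (algebraMap (𝓞 L) L p) ^ 3 + g₂ * (algebraMap (𝓞 L) L p) ^ 2 +
      g₁ * algebraMap (𝓞 L) L p - 1 = 0 := by
    have := congrArg (algebraMap (𝓞 L) L) hp
    simpa using this
  have hn := fun n : ℤ => h.norm_sub hk hπ n
  have hα : ∀ n : ℤ, algebraMap (𝓞 L) L ((n : 𝓞 L) - p) = (n : L) - algebraMap (𝓞 L) L p := by
    intro n
    rw [map_sub, map_intCast]
  rcases h with ⟨rfl, rfl⟩ | ⟨rfl, rfl⟩ | ⟨rfl, rfl⟩ | ⟨rfl, rfl⟩ | ⟨rfl, rfl⟩ | ⟨rfl, rfl⟩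
  · left
    decide
  · left
    decide
  · right
    refine ⟨((1 : ℤ) : 𝓞 L) - p, ?_, ?_⟩
    · rw [absNorm_of (n := 2) (by rw [hα, hn]; norm_num)]
      rfl
    · push_cast at hp ⊢
      exact ⟨2 * p ^ 2 - p, by linear_combination -hp⟩
  · right
    refine ⟨((1 : ℤ) : 𝓞 L) - p, ?_, ?_⟩
    · rw [absNorm_of (n := 2) (by rw [hα, hn]; norm_num)]
      rfl
    · push_cast at hp ⊢
      exact ⟨p ^ 2, by linear_combination -hp⟩
  · left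
    decide
  · right
    refine ⟨((-1 : ℤ) : 𝓞 L) - p, ?_, ?_⟩
    · rw [absNorm_of (n := -2) (by rw [hα, hn]; norm_num)]
      rfl
    · push_cast at hp ⊢
      exact ⟨-1, by linear_combination -hp⟩

end Pool.Agent.H429.T3
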