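import Pool.Agent.H429.T3.G7

/-!
# Six cubic fields generated by a unit: the strict Selmer group, and the hypotheses
-/

set_option autoImplicit false
set_option linter.all false

open IsDedekindDomain NumberField Module Polynomial WeierstrassCurve
open scoped Classical IntermediateField

namespace Pool.Agent.H429.T3

/-- The polynomial over the integers. -/
noncomputable def gZ (g₂ g₁ : ℤ) : ℤ[X] := X ^ 3 + C g₂ * X ^ 2 + C g₁ * X - C 1

theorem eval₂_gZ (g₂ g₁ : ℤ) {R : Type} [CommRing R] (f : ℤ →+* R) (x : R) :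
    (gZ g₂ g₁).eval₂ f x = x ^ 3 + g₂ * x ^ 2 + g₁ * x - 1 := by
  unfold gZ
  rw [eval₂_sub, eval₂_add, eval₂_add, eval₂_mul, eval₂_mul, eval₂_pow, eval₂_pow, eval₂_X,
      eval₂_C, eval₂_C, eval₂_C, eq_intCast, eq_intCast, eq_intCast, Int.cast_one]

variable {L : Type} [Field L] [NumberField L]

theorem exists_int_root {g₂ g₁ : ℤ} {π : L} (hπ : π ^ 3 + g₂ * π ^ 2 + g₁ * π - 1 = 0) :
    ∃ p : 𝓞 L, algebraMap (𝓞 L) L p = π ∧ p ^ 3 + g₂ * p ^ 2 + g₁ * p - 1 = 0 := by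
  have hint : IsIntegral ℤ π := ⟨gZ g₂ g₁, by unfold gZ; monicity!, by
    rw [eval₂_gZ]
    exact hπ⟩
  refine ⟨⟨π, hint⟩, rfl, ?_⟩
  apply FaithfulSMul.algebraMap_injective (𝓞 L) L
  simp only [map_add, map_sub, map_mul, map_pow, map_intCast, map_one, map_zero]
  exact hπ

theorem aeval_gZ {g₂ g₁ : ℤ} {p : 𝓞 L} (hp : p ^ 3 + g₂ * p ^ 2 + g₁ * p - 1 = 0) :
    aeval p (gZ g₂ g₁) = 0 := by
  rw [aeval_def, eval₂_gZ]
  exact hp

theorem Six.one_prime_two {g₂ g₁ : ℤ} (h : Six g₂ g₁) (hk : finrank ℚ L = 3) {p : 𝓞 L}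
    (hp : p ^ 3 + g₂ * p ^ 2 + g₁ * p - 1 = 0) {v : HeightOneSpectrum (𝓞 ℚ)}
    (hv : (2 : 𝓞 ℚ) ∈ v.asIdeal) : OnePrime L v := by
  have hv' : ((2 : ℕ) : 𝓞 ℚ) ∈ v.asIdeal := by exact_mod_cast hv
  rcases h.at_two hk hp with h2 | ⟨α, hα, hd⟩
  · refine one_prime_of_no_root hk Nat.prime_two hv' (gZ g₂ g₁) p (aeval_gZ hp) fun x => ?_
    rw [eval_map, eval₂_gZ]
    exact h2 x
  · refine one_prime_of_elem Nat.prime_two hv' hα fun 𝔓 h𝔓 => ?_
    have h1 : α ^ 3 ∈ 𝔓.asIdeal := by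
      obtain ⟨β, hβ⟩ := hd
      rw [hβ]
      exact Ideal.mul_mem_right _ _ (by exact_mod_cast h𝔓)
    exact 𝔓.isPrime.mem_of_pow_mem 3 h1

theorem Six.principal {g₂ g₁ : ℤ} (h : Six g₂ g₁) (hk : finrank ℚ L = 3) {p : 𝓞 L}
    (hp : p ^ 3 + g₂ * p ^ 2 + g₁ * p - 1 = 0) (J : Ideal (𝓞 L)) (hI0 : J ≠ ⊥)
    (h2 : Ideal.absNorm J = 2) : J.IsPrincipal := by
  have hprime : J.IsPrime :=
    Ideal.isPrime_of_irreducible_absNorm (by rw [h2]; exact Nat.prime_two)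
  have hmem : (2 : 𝓞 L) ∈ J := by
    have := Ideal.absNorm_mem J
    rw [h2] at this
    exact_mod_cast this
  rcases h.at_two hk hp with h3 | ⟨α, hα, hd⟩
  · exfalso
    obtain ⟨𝔓, h𝔓⟩ : ∃ 𝔓 : HeightOneSpectrum (𝓞 L), 𝔓.asIdeal = J := ⟨⟨J, hprime, hI0⟩, rfl⟩
    rw [← h𝔓] at h2
    obtain ⟨x, hx⟩ := root_of_absNorm Nat.prime_two h2 (gZ g₂ g₁) p (aeval_gZ hp)
    rw [eval_map, eval₂_gZ] at hx
    exact h3 x hx
  · have hαI : α ∈ J := by
      refine hprime.mem_of_pow_mem 3 ?_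
      obtain ⟨β, hβ⟩ := hd
      rw [hβ]
      exact Ideal.mul_mem_right _ _ hmem
    have hle : Ideal.span {α} ≤ J := (Ideal.span_singleton_le_iff_mem _).2 hαI
    have hα0 : Ideal.span {α} ≠ ⊥ := by
      intro h0
      rw [h0, Ideal.absNorm_bot] at hα
      exact absurd hα (by norm_num)
    have hpr : (Ideal.span {α}).IsPrime :=
      Ideal.isPrime_of_irreducible_absNorm (by rw [hα]; exact Nat.prime_two)
    have hmax : (Ideal.span {α}).IsMaximal := hpr.isMaximal hα0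
    rw [← hmax.eq_of_le hprime.ne_top hle]
    exact ⟨⟨α, rfl⟩⟩

theorem Six.pid {g₂ g₁ : ℤ} (h : Six g₂ g₁) (hk : finrank ℚ L = 3) {p : 𝓞 L}
    (hp : p ^ 3 + g₂ * p ^ 2 + g₁ * p - 1 = 0) : IsPrincipalIdealRing (𝓞 L) := by
  have hπ : (algebraMap (𝓞 L) L p) ^ 3 + g₂ * (algebraMap (𝓞 L) L p) ^ 2 +
      g₁ * algebraMap (𝓞 L) L p - 1 = 0 := by
    have := congrArg (algebraMap (𝓞 L) L) hp
    simpa using this
  have hc := h.places hk hπ
  have hd := (h.discr_facts hk hπ).2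
  apply RingOfIntegers.isPrincipalIdealRing_of_isPrincipal_of_norm_le
  intro I hN
  have hI0 : (I : Ideal (𝓞 L)) ≠ ⊥ := nonZeroDivisors.coe_ne_zero I
  have hpos : Ideal.absNorm (I : Ideal (𝓞 L)) ≠ 0 := Ideal.absNorm_ne_zero_of_nonZeroDivisors I
  obtain ⟨J, hJ⟩ : ∃ J : Ideal (𝓞 L), J = I := ⟨_, rfl⟩
  rw [← hJ] at hN hI0 hpos ⊢
  clear hJ I
  have hlt : (Ideal.absNorm J : ℝ) < 3 := by
    refine hN.trans_lt ?_
    rw [hc, hk]
    have h1 : |((discr L : ℤ) : ℝ)| ≤ 108 := by exact_mod_cast hd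
    have h2 : Real.sqrt |((discr L : ℤ) : ℝ)| ≤ 10.393 := by
      rw [Real.sqrt_le_left (by norm_num)]
      refine h1.trans (by norm_num)
    have h3 : 4 / Real.pi ≤ 1.2733 := by
      rw [div_le_iff₀ Real.pi_pos]
      have := Real.pi_gt_d4
      nlinarith
    have h4 : (0 : ℝ) ≤ 4 / Real.pi := by have := Real.pi_pos; positivity
    have h5 := Real.sqrt_nonneg |((discr L : ℤ) : ℝ)|
    have e : ((Nat.factorial 3 : ℕ) : ℝ) = 6 := by norm_num [Nat.factorial]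
    rw [pow_one, e]
    push_cast
    nlinarith [mul_le_mul h3 h2 h5 (by norm_num : (0 : ℝ) ≤ 1.2733)]
  have hlt2 : Ideal.absNorm J < 3 := by exact_mod_cast hlt
  rcases (show Ideal.absNorm J = 1 ∨ Ideal.absNorm J = 2 by omega) with h1 | h2
  · rw [Ideal.absNorm_eq_one_iff.1 h1]
    exact top_isPrincipal
  · exact h.principal hk hp J hI0 h2

theorem Six.sel {g₂ g₁ : ℤ} (h : Six g₂ g₁) (hk : finrank ℚ L = 3) {π : L}
    (hπ : π ^ 3 + g₂ * π ^ 2 + g₁ * π - 1 = 0) (x : L) (hx : Strict ℚ x) : IsSquare x := by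
  obtain ⟨p, hpπ, hp⟩ := exists_int_root hπ
  haveI := h.pid hk hp
  have hcl : NumberField.classNumber L = 1 := NumberField.classNumber_eq_one_iff.2 inferInstance
  have hc : InfinitePlace.nrComplexPlaces L ≠ 0 := by
    rw [h.places hk hπ]
    exact one_ne_zero
  have hπ0 : π ≠ 0 := by
    rintro rfl
    norm_num at hπ
  let ε : (𝓞 L)ˣ := ⟨p, p ^ 2 + g₂ * p + g₁, by linear_combination hp, by linear_combination hp⟩
  have hε : algebraMap (𝓞 L) L ε = π := hpπ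
  have hNπ : Algebra.norm ℚ π = 1 := by
    have h1 := h.norm_sub hk hπ 0
    have hneg : Algebra.norm ℚ (-1 : L) = -1 := by
      have := Algebra.norm_algebraMap (S := L) (-1 : ℚ)
      rw [hk] at this
      have e : ((-1 : ℚ)) ^ 3 = -1 := by norm_num
      rw [e] at this
      simpa using this
    have h2 : ((0 : ℤ) : L) - π = -1 * π := by
      push_cast
      ring
    rw [h2, map_mul, hneg] at h1
    push_cast at h1
    linarith
  have hns := h.nonsq hk hπ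
  refine sel_of hk hπ0 hns (fun v hv => h.one_prime_two hk hp hv) (fun δ hδ hN hv => ?_) x hx
  obtain ⟨t, ht⟩ := cls_of hk hc (by rw [hcl]; decide) ε (by rw [hε, hNπ]) (by
    rw [hε]
    rintro ⟨s, hs⟩
    apply hns
    rw [hs, ← pow_two]
    exact sqAt_sq _ _ s) δ hδ hN hv
  exact ⟨t, by rw [hε] at ht; exact ht⟩

/-- The prime number `p` does not split in the cubic field. -/
def NoSplit (g₂ g₁ : ℤ) (p : ℕ) : Prop :=
  (∀ x : ZMod p, x ^ 3 + g₂ * x ^ 2 + g₁ * x - 1 ≠ 0) ∨ (g₂ = 3 ∧ g₁ = 3 ∧ p = 3)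

theorem Six.one_prime {g₂ g₁ : ℤ} (h : Six g₂ g₁) (hk : finrank ℚ L = 3) {π : L}
    (hπ : π ^ 3 + g₂ * π ^ 2 + g₁ * π - 1 = 0) {q : ℕ} (hq : q.Prime)
    {v : HeightOneSpectrum (𝓞 ℚ)} (hv : (q : 𝓞 ℚ) ∈ v.asIdeal) (hs : NoSplit g₂ g₁ q) :
    OnePrime L v := by
  obtain ⟨p, hpπ, hp⟩ := exists_int_root hπ
  rcases hs with hs | ⟨rfl, rfl, rfl⟩
  · refine one_prime_of_no_root hk hq hv (gZ g₂ g₁) p (aeval_gZ hp) fun x => ?_
    rw [eval_map, eval₂_gZ]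
    exact hs x
  · have hα : Ideal.absNorm (Ideal.span {((-2 : ℤ) : 𝓞 L) - p}) = 3 := by
      rw [absNorm_of (n := -3) (by
        rw [map_sub, map_intCast, hpπ, h.norm_sub hk hπ]
        norm_num)]
      rfl
    refine one_prime_of_elem hq hv hα fun 𝔓 h𝔓 => ?_
    have h1 : (((-2 : ℤ) : 𝓞 L) - p) ^ 3 ∈ 𝔓.asIdeal := by
      have h2 : (((-2 : ℤ) : 𝓞 L) - p) ^ 3 = ((3 : ℕ) : 𝓞 L) * (-p ^ 2 - 3 * p - 3) := by
        push_cast at hp ⊢
        linear_combination -hp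
      rw [h2]
      exact Ideal.mul_mem_right _ _ h𝔓
    exact 𝔓.isPrime.mem_of_pow_mem 3 h1

end Pool.Agent.H429.T3
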