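import Pool.Agent.H429.T3.G8
import Pool.Agent.H429.T3.E3

/-!
# Curves with a point of order two over one of six cubic fields
-/

set_option autoImplicit false
set_option linter.all false

open IsDedekindDomain NumberField Module Polynomial WeierstrassCurve
open scoped Classical IntermediateField

namespace Pool.Agent.H429.T3

theorem val_prime {v : HeightOneSpectrum (𝓞 ℚ)} {p : ℕ} (hp : p.Prime)
    (hv : (p : 𝓞 ℚ) ∈ v.asIdeal) : v.valuation ℚ (p : ℚ) = WithZero.exp (-1 : ℤ) := by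
  have h1 : Ideal.absNorm (Ideal.span {(p : 𝓞 ℚ)}) = p := by
    rw [Ideal.absNorm_span_singleton]
    have h4 := Algebra.norm_algebraMap (R := ℤ) (S := 𝓞 ℚ) (p : ℤ)
    rw [RingOfIntegers.rank, finrank_self, pow_one] at h4
    have h5 : algebraMap ℤ (𝓞 ℚ) (p : ℤ) = (p : 𝓞 ℚ) := by simp
    rw [h5] at h4
    rw [h4, Int.natAbs_natCast]
  have hpr : (Ideal.span {(p : 𝓞 ℚ)}).IsPrime :=
    Ideal.isPrime_of_irreducible_absNorm (by rw [h1]; exact hp)
  have hp0 : (p : 𝓞 ℚ) ≠ 0 := by exact_mod_cast hp.ne_zero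
  have hmax : (Ideal.span {(p : 𝓞 ℚ)}).IsMaximal := hpr.isMaximal (by simpa using hp0)
  have h2 : Ideal.span {(p : 𝓞 ℚ)} = v.asIdeal :=
    hmax.eq_of_le v.isPrime.ne_top ((Ideal.span_singleton_le_iff_mem _).2 hv)
  have h3 := HeightOneSpectrum.intValuation_singleton v hp0 h2.symm
  have e : algebraMap (𝓞 ℚ) ℚ (p : 𝓞 ℚ) = (p : ℚ) := map_natCast _ _
  rw [← e, HeightOneSpectrum.valuation_of_algebraMap]
  exact h3

theorem val_int_ge {v : HeightOneSpectrum (𝓞 ℚ)} {p : ℕ} (hp : p.Prime)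
    (hv : (p : 𝓞 ℚ) ∈ v.asIdeal) {n : ℤ} (h : ¬ (p : ℤ) ^ 2 ∣ n) :
    WithZero.exp (-1 : ℤ) ≤ v.valuation ℚ (n : ℚ) := by
  by_cases hd : (p : ℤ) ∣ n
  · obtain ⟨m, rfl⟩ := hd
    have hm : ¬ (p : ℤ) ∣ m := fun h' => h (by
      rw [pow_two]
      exact mul_dvd_mul_left _ h')
    rw [Int.cast_mul, map_mul, val_int_one hp hv hm, mul_one, Int.cast_natCast, val_prime hp hv]
  · rw [val_int_one hp hv hd]
    rw [← WithZero.exp_zero, WithZero.exp_le_exp]
    norm_num

/-- The curve `y ^ 2 = x ^ 3 + a x ^ 2 + b x + c`. -/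
def crv (a b c : ℤ) : WeierstrassCurve ℚ := ⟨0, a, 0, b, c⟩

/-- The discriminant of the cubic polynomial. -/
def dsc (a b c : ℤ) : ℤ := a ^ 2 * b ^ 2 - 4 * b ^ 3 - 4 * a ^ 3 * c - 27 * c ^ 2 + 18 * a * b * c

theorem crv_disc (a b c : ℤ) : (crv a b c).Δ = 16 * (dsc a b c : ℤ) := by
  rw [disc_eq _ rfl rfl]
  simp only [crv, dsc]
  push_cast
  ring

variable {L : Type} [Field L] [NumberField L]

theorem Six.hyp {g₂ g₁ : ℤ} (h : Six g₂ g₁) (hk : finrank ℚ L = 3) {π : L}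
    (hπ : π ^ 3 + g₂ * π ^ 2 + g₁ * π - 1 = 0) {a b c : ℤ} {θ : L}
    (hθ : θ ^ 3 + a * θ ^ 2 + b * θ + c = 0) (hθ' : ∀ q : ℚ, algebraMap ℚ L q ≠ θ)
    {M : Type} [Field M] [NumberField M]
    (hM : ∀ p : ℕ, p.Prime → p ≠ 2 → ((p : ℤ) ^ 2 ∣ dsc a b c ∨ (p : ℤ) ∣ discr M) →
      NoSplit g₂ g₁ p) : Hyp (crv a b c) L M := by
  have hroot : aeval θ (cub (crv a b c)) = 0 := by
    rw [aeval_cub]
    simpa [crv] using hθ
  have hirr := irr_of hk (cub_monic (crv a b c)) (cub_deg _) hroot hθ'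
  have hmin : minpoly ℚ θ = cub (crv a b c) :=
    (minpoly.eq_of_irreducible_of_monic hirr hroot (cub_monic _)).symm
  refine ⟨rfl, rfl, ?_, hk, ⟨θ, hroot⟩,
    lirr_of hk (h.no_hom hπ) (cub_monic _) (cub_deg _) hroot hirr, h.sel hk hπ, fun v hv => ?_⟩
  · rw [crv_disc]
    intro h0
    have h1 : ((dsc a b c : ℤ) : L) = 0 := by
      have : (dsc a b c : ℚ) = 0 := by linarith
      have : dsc a b c = 0 := by exact_mod_cast this
      rw [this, Int.cast_zero]
    have h2 : ((dsc a b c : ℤ) : L) = ((a + θ) ^ 2 - 4 * (b + a * θ + θ ^ 2)) *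
        (3 * θ ^ 2 + 2 * a * θ + b) ^ 2 := by
      have hc' : (c : L) = -(θ ^ 3 + a * θ ^ 2 + b * θ) := by linear_combination hθ
      simp only [dsc]
      push_cast
      rw [hc']
      ring
    rw [h2] at h1
    rcases mul_eq_zero.1 h1 with h3 | h3
    · have h4 := lin_indep (u := ((a ^ 2 - 4 * b : ℤ) : ℚ)) (v := ((-2 * a : ℤ) : ℚ)) (w := -3)
        (cub_deg _) hmin (by
          simp only [map_intCast, map_neg, map_ofNat]
          push_cast
          linear_combination h3)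
      exact absurd h4.2.2 (by norm_num)
    · have h5 : 3 * θ ^ 2 + 2 * a * θ + b = 0 := by simpa using h3
      have h4 := lin_indep (u := ((b : ℤ) : ℚ)) (v := ((2 * a : ℤ) : ℚ)) (w := 3)
        (cub_deg _) hmin (by
          simp only [map_intCast, map_neg, map_ofNat]
          push_cast
          linear_combination h5)
      exact absurd h4.2.2 (by norm_num)
  · obtain ⟨p, hp, hpv⟩ := exists_prime_mem v
    have hp2 : p ≠ 2 := by
      rintro rfl
      exact hv (by exact_mod_cast hpv)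
    by_cases hbad : ((p : ℤ) ^ 2 ∣ dsc a b c ∨ (p : ℤ) ∣ discr M)
    · exact Or.inr (h.one_prime hk hπ hp hpv (hM p hp hp2 hbad))
    · rw [not_or] at hbad
      refine Or.inl ⟨⟨val_int_le v a, val_int_le v b, val_int_le v c, ?_⟩,
        unram_of_discr hp hbad.2 hpv⟩
      rw [crv_disc, map_mul]
      have h16 : v.valuation ℚ 16 = 1 := by
        have h2 : ¬ (p : ℤ) ∣ 16 := by
          intro h3
          have h4 : (p : ℤ) ∣ 2 ^ 4 := by
            norm_num
            exact h3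
          have h5 := (Nat.prime_iff_prime_int.1 hp).dvd_of_dvd_pow h4
          have h6 : p ∣ 2 := by exact_mod_cast h5
          exact hp2 ((Nat.prime_dvd_prime_iff_eq hp Nat.prime_two).1 h6)
        have := val_int_one hp hpv h2
        exact_mod_cast this
      rw [h16, one_mul]
      exact val_int_ge hp hpv hbad.1

end Pool.Agent.H429.T3
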